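import Pool.Agent.Shr.Targets
import Pool.Agent.Dil.NORM

/-!
# TRN
-/

namespace Pool.Agent.Shr

open MeasureTheory Set Filter
open Pool.Agent.Restr (u E QQ)
open Pool.Agent.Dil (sl)
open scoped ENNReal NNReal Topology

namespace TRN_

theorem u_add (a b : ℝ) : u (a + b) = u a * u b := by
  unfold u
  rw [← Complex.exp_add]
  congr 1
  push_cast
  ring

theorem E_shift (f : ℝ × ℝ → ℂ) (a b : ℝ) (ξ : ℝ × ℝ × ℝ) :
    E (fun x : ℝ × ℝ => f (x.1 + a, x.2 + b)) ξ =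
      u (-(ξ.1 * a) - ξ.2.1 * b + ξ.2.2 * (a ^ 2 + b ^ 2)) *
        E f (ξ.1 - 2 * a * ξ.2.2, ξ.2.1 - 2 * b * ξ.2.2, ξ.2.2) := by
  unfold E
  rw [← integral_const_mul]
  have h := integral_add_right_eq_self (μ := (volume : Measure (ℝ × ℝ)))
    (fun y : ℝ × ℝ => u (-(ξ.1 * a) - ξ.2.1 * b + ξ.2.2 * (a ^ 2 + b ^ 2)) *
      (u ((ξ.1 - 2 * a * ξ.2.2) * y.1 + ((ξ.2.1 - 2 * b * ξ.2.2) * y.2 +
        ξ.2.2 * (y.1 ^ 2 + y.2 ^ 2))) * f y)) (a, b)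
  rw [← h]
  apply integral_congr_ae
  refine Eventually.of_forall fun x => ?_
  simp only [Prod.fst_add, Prod.snd_add]
  rw [← mul_assoc, ← u_add]
  congr 2
  ring

end TRN_

open TRN_ in
/-- TRN. -/
theorem p_TRN : T_TRN := by
  intro q hq f hf a b
  apply ENNReal.rpow_left_injective hq.ne'
  simp only
  have hE : Measurable (E f) := Pool.Agent.Restr.measurable_E hf
  have hE2 : Measurable (E fun x : ℝ × ℝ => f (x.1 + a, x.2 + b)) :=
    Pool.Agent.Restr.measurable_E (hf.comp (by fun_prop))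
  rw [← Pool.Agent.Restr.lin_q hq, ← Pool.Agent.Restr.lin_q hq,
    Pool.Agent.Dil.NORM_.lintegral_last (hE2.enorm.pow_const q),
    Pool.Agent.Dil.NORM_.lintegral_last (hE.enorm.pow_const q)]
  apply lintegral_congr
  intro t
  have h1 : ∀ w : ℝ × ℝ, ‖E (fun x : ℝ × ℝ => f (x.1 + a, x.2 + b)) (w.1, w.2, t)‖ₑ ^ q =
      (fun w : ℝ × ℝ => ‖E f (w.1, w.2, t)‖ₑ ^ q) (w - (2 * a * t, 2 * b * t)) := by
    intro w
    simp only [E_shift, Prod.fst_sub, Prod.snd_sub]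
    rw [enorm_mul]
    have : ‖u (-(w.1 * a) - w.2 * b + t * (a ^ 2 + b ^ 2))‖ₑ = 1 := by
      rw [← ofReal_norm_eq_enorm, Pool.Agent.Restr.norm_u, ENNReal.ofReal_one]
    rw [this, one_mul]
  simp only [h1]
  exact lintegral_sub_right_eq_self (fun w : ℝ × ℝ => ‖E f (w.1, w.2, t)‖ₑ ^ q)
    ((2 * a * t, 2 * b * t) : ℝ × ℝ)

end Pool.Agent.Shr
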