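import Pool.Agent.Shr.Targets

/-!
# CUT
-/

namespace Pool.Agent.Shr

open MeasureTheory Set Filter
open Pool.Agent.Restr (u E QQ)
open scoped ENNReal NNReal Topology

namespace CUT_

/-- The shear map preserves the measure. -/
theorem mp_shear {b : ℝ → ℝ} (hb : Measurable b) :
    MeasurePreserving (fun x : ℝ × ℝ => (x.1, x.2 + b x.1)) := by
  have h := (MeasurePreserving.id (volume : Measure ℝ)).skew_product (μc := (volume : Measure ℝ))
    (μd := (volume : Measure ℝ)) (g := fun x y => y + b x)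
    (measurable_snd.add (hb.comp measurable_fst))
    (ae_of_all _ fun x => (measurePreserving_add_right volume (b x)).map_eq)
  exact h

theorem int_shr {b : ℝ → ℝ} (hb : Measurable b) {f : ℝ × ℝ → ℂ} (hf : Integrable f) :
    Integrable (shr b f) := by
  have h := (mp_shear hb).integrable_comp_of_integrable hf
  exact h

theorem meas_shr {b : ℝ → ℝ} (hb : Measurable b) {f : ℝ × ℝ → ℂ} (hf : Measurable f) :
    Measurable (shr b f) := hf.comp (mp_shear hb).measurable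

/-- The cell. -/
def cell (i j : ℤ) : Set (ℝ × ℝ) := {x | ⌊x.1⌋ = i ∧ ⌊x.2⌋ = j}

theorem meas_cell (i j : ℤ) : MeasurableSet (cell i j) := by
  have h1 : MeasurableSet {x : ℝ × ℝ | ⌊x.1⌋ = i} :=
    (Int.measurable_floor.comp measurable_fst) (measurableSet_singleton i)
  have h2 : MeasurableSet {x : ℝ × ℝ | ⌊x.2⌋ = j} :=
    (Int.measurable_floor.comp measurable_snd) (measurableSet_singleton j)
  exact h1.inter h2

/-- Extension of a finite sum. -/
theorem E_fsum {ι : Type} (s : Finset ι) (f : ι → ℝ × ℝ → ℂ) (hf : ∀ i ∈ s, Integrable (f i))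
    (ξ : ℝ × ℝ × ℝ) : E (fun x => ∑ i ∈ s, f i x) ξ = ∑ i ∈ s, E (f i) ξ := by
  unfold E
  rw [← integral_finset_sum]
  · apply integral_congr_ae
    exact Eventually.of_forall fun x => by simp only [Finset.mul_sum]
  · intro i hi
    exact (hf i hi).bdd_mul (c := 1)
      (Pool.Agent.Restr.measurable_u.comp (by fun_prop)).aestronglyMeasurable
      (Eventually.of_forall fun x => (Pool.Agent.Restr.norm_u _).le)

theorem key (b : ℝ → ℝ) (f : ℝ × ℝ → ℂ) (i j : ℤ) :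
    shr (fun x => b (x + ((i : ℝ) + 1 / 2))) (pc ((i : ℝ) + 1 / 2) ((j : ℝ) + 1 / 2) f) =
      fun x : ℝ × ℝ => shr b ((cell i j).indicator f) (x.1 + ((i : ℝ) + 1 / 2),
        x.2 + ((j : ℝ) + 1 / 2)) := by
  funext x
  unfold shr pc
  simp only
  set β := b (x.1 + ((i : ℝ) + 1 / 2)) with hβ
  have e1 : x.2 + β + ((j : ℝ) + 1 / 2) = x.2 + ((j : ℝ) + 1 / 2) + β := by ring
  by_cases h : (x.1, x.2 + β) ∈ Ico (-(1 / 2) : ℝ) (1 / 2) ×ˢ Ico (-(1 / 2) : ℝ) (1 / 2)
  · rw [indicator_of_mem h]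
    have h2 : (x.1 + ((i : ℝ) + 1 / 2), x.2 + ((j : ℝ) + 1 / 2) + β) ∈ cell i j := by
      obtain ⟨⟨a1, a2⟩, ⟨a3, a4⟩⟩ := h
      simp only at a1 a2 a3 a4
      refine ⟨Int.floor_eq_iff.mpr ⟨?_, ?_⟩, Int.floor_eq_iff.mpr ⟨?_, ?_⟩⟩ <;> simp only <;>
        linarith
    rw [indicator_of_mem h2]
    simp only [e1]
  · rw [indicator_of_notMem h]
    have h2 : (x.1 + ((i : ℝ) + 1 / 2), x.2 + ((j : ℝ) + 1 / 2) + β) ∉ cell i j := by
      rintro ⟨b1, b2⟩
      rw [Int.floor_eq_iff] at b1 b2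
      simp only at b1 b2
      apply h
      refine ⟨⟨?_, ?_⟩, ⟨?_, ?_⟩⟩ <;> simp only <;> linarith [b1.1, b1.2, b2.1, b2.2]
    rw [indicator_of_notMem h2]

theorem split (M : ℕ) (f : ℝ × ℝ → ℂ)
    (hs : ∀ x : ℝ × ℝ, x ∉ Ico (-(M : ℝ)) M ×ˢ Ico (-(M : ℝ)) M → f x = 0) (x : ℝ × ℝ) :
    f x = ∑ i ∈ Finset.Ico (-(M : ℤ)) M, ∑ j ∈ Finset.Ico (-(M : ℤ)) M,
      (cell i j).indicator f x := by
  classical
  by_cases h : x ∈ Ico (-(M : ℝ)) M ×ˢ Ico (-(M : ℝ)) M
  · obtain ⟨⟨a1, a2⟩, ⟨a3, a4⟩⟩ := h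
    have i1 : ⌊x.1⌋ ∈ Finset.Ico (-(M : ℤ)) M := by
      rw [Finset.mem_Ico]
      refine ⟨Int.le_floor.mpr (by push_cast; exact a1), Int.floor_lt.mpr (by push_cast; exact a2)⟩
    have i2 : ⌊x.2⌋ ∈ Finset.Ico (-(M : ℤ)) M := by
      rw [Finset.mem_Ico]
      refine ⟨Int.le_floor.mpr (by push_cast; exact a3), Int.floor_lt.mpr (by push_cast; exact a4)⟩
    rw [Finset.sum_eq_single_of_mem _ i1, Finset.sum_eq_single_of_mem _ i2]
    · rw [indicator_of_mem]
      exact ⟨rfl, rfl⟩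
    · intro j _ hj
      rw [indicator_of_notMem]
      rintro ⟨_, h2⟩
      exact hj h2.symm
    · intro i _ hi
      apply Finset.sum_eq_zero
      intro j _
      rw [indicator_of_notMem]
      rintro ⟨h1, _⟩
      exact hi h1.symm
  · rw [hs x h]
    symm
    apply Finset.sum_eq_zero
    intro i _
    apply Finset.sum_eq_zero
    intro j _
    by_cases hx : x ∈ cell i j
    · rw [indicator_of_mem hx, hs x h]
    · rw [indicator_of_notMem hx]

end CUT_

open CUT_ in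
/-- CUT. -/
theorem p_CUT (h_TRN : T_TRN) : T_CUT := by
  intro q hq M f hf hfi hs b hb
  have hq0 : 0 < q := lt_of_lt_of_le one_pos hq
  have h1 : ∀ i j : ℤ, eLpNorm (E (shr (fun x => b (x + ((i : ℝ) + 1 / 2)))
      (pc ((i : ℝ) + 1 / 2) ((j : ℝ) + 1 / 2) f))) (ENNReal.ofReal q) volume =
      eLpNorm (E (shr b ((cell i j).indicator f))) (ENNReal.ofReal q) volume := by
    intro i j
    rw [key]
    exact h_TRN q hq0 _ (meas_shr hb (hf.indicator (meas_cell i j))) _ _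
  simp only [h1]
  have h2 : shr b f = fun x => ∑ z ∈ Finset.Ico (-(M : ℤ)) M ×ˢ Finset.Ico (-(M : ℤ)) M,
      shr b ((cell z.1 z.2).indicator f) x := by
    funext x
    unfold shr
    rw [split M f hs, Finset.sum_product]
  have h3 : E (shr b f) = ∑ z ∈ Finset.Ico (-(M : ℤ)) M ×ˢ Finset.Ico (-(M : ℤ)) M,
      E (shr b ((cell z.1 z.2).indicator f)) := by
    funext ξ
    rw [h2, E_fsum, Finset.sum_apply]
    intro z _
    exact int_shr hb (hfi.indicator (meas_cell z.1 z.2))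
  rw [h3]
  refine (eLpNorm_sum_le (fun z _ => (Pool.Agent.Restr.measurable_E
    (meas_shr hb (hf.indicator (meas_cell z.1 z.2)))).aestronglyMeasurable) ?_).trans ?_
  · rw [← ENNReal.ofReal_one]
    exact ENNReal.ofReal_le_ofReal hq
  · rw [Finset.sum_product]

end Pool.Agent.Shr
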