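import Pool.Agent.Shr.Pieces

/-!
# The average estimate for Brownian shears with drift
-/

namespace Pool.Agent.Shr

open MeasureTheory Set Filter ProbabilityTheory
open Pool.Agent.Restr (u E QQ)
open scoped ENNReal NNReal Topology

namespace AVG_

theorem E_zero (ξ : ℝ × ℝ × ℝ) : E (fun _ : ℝ × ℝ => (0 : ℂ)) ξ = 0 := by
  unfold E
  simp

theorem pc_neg {f : ℝ × ℝ → ℂ} (hf : ∀ x : ℝ × ℝ, f x ≠ 0 → 0 ≤ x.1) {i : ℤ} (hi : i < 0)
    (c : ℝ) : pc ((i : ℝ) + 1 / 2) c f = fun _ => 0 := by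
  funext x
  unfold pc
  by_cases hx : x ∈ Ico (-(1 / 2) : ℝ) (1 / 2) ×ˢ Ico (-(1 / 2) : ℝ) (1 / 2)
  · rw [indicator_of_mem hx]
    by_contra hn
    have h1 := hf _ hn
    have h2 : x.1 < 1 / 2 := hx.1.2
    have h3 : (i : ℝ) ≤ -1 := by exact_mod_cast Int.le_sub_one_of_lt hi
    simp only at h1
    linarith
  · rw [indicator_of_notMem hx]

end AVG_

open AVG_

theorem p_AVG (h_MAIN : T_MAIN) (h_CUT : T_CUT) (h_BM : T_BM) (h_NORM : T_NORM) : T_AVG := by
  intro q p R hq hq4 hp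
  obtain ⟨C, hC⟩ := h_MAIN q p hq hq4 hp
  have hq0 : 0 < q := by linarith
  have hp1 : 1 ≤ p := by
    refine le_trans ?_ hp.le
    rw [le_div_iff₀ (by linarith)]
    linarith
  set M : ℕ := ⌈|R|⌉₊ with hM
  have hRM : R ≤ M := (le_abs_self R).trans (Nat.le_ceil _)
  set S : Finset (ℤ × ℤ) := Finset.Ico (-(M : ℤ)) M ×ˢ Finset.Ico (-(M : ℤ)) M with hS
  set K : ℝ≥0∞ := (S.card : ℝ≥0∞) ^ (q - 1) * (S.card * C) with hK
  have hKt : K ≠ ⊤ := by
    refine ENNReal.mul_ne_top ?_ (ENNReal.mul_ne_top (by simp) (by simp))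
    exact ENNReal.rpow_ne_top_of_nonneg (by linarith) (by simp)
  refine ⟨K.toNNReal, fun Ω _ P B hB g hg f hf hs hN => ?_⟩
  rw [ENNReal.coe_toNNReal hKt]
  have : IsProbabilityMeasure P := hB.toIsPreBrownianReal.isGaussianProcess.isProbabilityMeasure
  have hsM : ∀ x : ℝ × ℝ, x ∉ Ico (-(M : ℝ)) M ×ˢ Ico (-(M : ℝ)) M → f x = 0 := by
    intro x hx
    by_contra hn
    obtain ⟨h1, h2, h3⟩ := hs x hn
    apply hx
    have h4 := abs_lt.1 h3
    have hM0 : (0 : ℝ) ≤ M := Nat.cast_nonneg _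
    exact ⟨⟨by linarith, by linarith⟩, ⟨by linarith, by linarith⟩⟩
  have hint : Integrable f := integrable_of_supp hp1 hf hsM (volume_box M) hN
  -- the processes on the unit intervals
  have hex : ∀ i : ℤ, ∃ B' : Ω → ℝ → ℝ, 0 ≤ i → (Measurable (Function.uncurry B') ∧
      (∀ᵐ ω ∂P, ∀ x ∈ SS, B' ω x = pth B ω (x + ((i : ℝ) + 1 / 2))) ∧ Rough P B') := by
    intro i
    by_cases hi : 0 ≤ i
    · obtain ⟨B', h⟩ := h_BM Ω P B hB ((i : ℝ) + 1 / 2) (by
        have : (0 : ℝ) ≤ i := by exact_mod_cast hi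
        linarith)
      exact ⟨B', fun _ => h⟩
    · exact ⟨fun _ _ => 0, fun h => absurd h hi⟩
  choose B' hB' using hex
  set D : ℤ → Ω → ℝ → ℝ := fun i ω x => g (x + ((i : ℝ) + 1 / 2)) + B' i ω x with hD
  have hgi : ∀ i : ℤ, Measurable fun x : ℝ => g (x + ((i : ℝ) + 1 / 2)) := fun i =>
    hg.comp (by fun_prop)
  have hDm : ∀ i : ℤ, 0 ≤ i → Measurable (Function.uncurry (D i)) := fun i hi =>
    ((hgi i).comp measurable_snd).add (hB' i hi).1
  have hDr : ∀ i : ℤ, 0 ≤ i → Rough P (D i) := fun i hi => (hB' i hi).2.2.drift (hgi i)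
  set pp : ℤ × ℤ → ℝ × ℝ → ℂ := fun s => pc ((s.1 : ℝ) + 1 / 2) ((s.2 : ℝ) + 1 / 2) f with hpp
  set a : ℤ × ℤ → Ω → ℝ≥0∞ := fun s ω => if 0 ≤ s.1 then
    eLpNorm (E (shr (D s.1 ω) (pp s))) (ENNReal.ofReal q) volume else 0 with ha
  have ham : ∀ s, Measurable (a s) := by
    intro s
    by_cases h0 : 0 ≤ s.1
    · have h1 := (h_NORM q hq0 (pp s) (measurable_pc hf _ _) Ω (D s.1) (hDm s.1 h0)).2.2
      have h2 : a s = fun ω => eLpNorm (E (shr (D s.1 ω) (pp s))) (ENNReal.ofReal q) volume := by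
        funext ω
        simp only [ha, if_pos h0]
      rw [h2]
      exact h1
    · have h2 : a s = fun _ => 0 := by
        funext ω
        simp only [ha, if_neg h0]
      rw [h2]
      exact measurable_const
  have hae : ∀ᵐ ω ∂P, ∀ i : ℤ, 0 ≤ i → ∀ x ∈ SS, B' i ω x = pth B ω (x + ((i : ℝ) + 1 / 2)) := by
    rw [ae_all_iff]
    intro i
    by_cases hi : 0 ≤ i
    · filter_upwards [(hB' i hi).2.1] with ω hω
      exact fun _ => hω
    · exact Eventually.of_forall fun ω h => absurd h hi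
  have key : ∀ᵐ ω ∂P, eLpNorm (E (shr (fun x => g x + pth B ω x) f)) (ENNReal.ofReal q) volume ^ q ≤
      (S.card : ℝ≥0∞) ^ (q - 1) * ∑ s ∈ S, a s ω ^ q := by
    filter_upwards [hB.cont, hae] with ω hc hω
    have hpm : Measurable (pth B ω) := by
      unfold pth
      exact (hc.comp continuous_real_toNNReal).measurable
    have h1 := h_CUT q (by linarith) M f hf hint hsM (fun x => g x + pth B ω x) (hg.add hpm)
    have h2 : eLpNorm (E (shr (fun x => g x + pth B ω x) f)) (ENNReal.ofReal q) volume ≤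
        ∑ s ∈ S, a s ω := by
      refine h1.trans ?_
      rw [hS, Finset.sum_product]
      refine Finset.sum_le_sum fun i _ => Finset.sum_le_sum fun j _ => ?_
      by_cases hi : 0 ≤ i
      · simp only [ha, if_pos hi, hpp]
        rw [shr_pc_congr (b := fun x => g (x + ((i : ℝ) + 1 / 2)) + pth B ω (x + ((i : ℝ) + 1 / 2)))
          (b' := D i ω)]
        intro x hx
        simp only [hD]
        rw [hω i hi x hx]
      · rw [pc_neg (fun x hx => (hs x hx).1) (not_le.1 hi)]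
        have h3 : E (shr (fun x => g (x + ((i : ℝ) + 1 / 2)) + pth B ω (x + ((i : ℝ) + 1 / 2)))
            (fun _ => 0)) = fun _ => 0 := by
          funext ξ
          exact E_zero ξ
        rw [h3]
        simp
    calc eLpNorm (E (shr (fun x => g x + pth B ω x) f)) (ENNReal.ofReal q) volume ^ q
        ≤ (∑ s ∈ S, a s ω) ^ q := by gcongr
      _ ≤ _ := ENNReal.rpow_sum_le_const_mul_sum_rpow _ _ (by linarith)
  calc ∫⁻ ω, eLpNorm (E (shr (fun x => g x + pth B ω x) f)) (ENNReal.ofReal q) volume ^ q ∂P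
      ≤ ∫⁻ ω, (S.card : ℝ≥0∞) ^ (q - 1) * ∑ s ∈ S, a s ω ^ q ∂P := lintegral_mono_ae key
    _ = (S.card : ℝ≥0∞) ^ (q - 1) * ∑ s ∈ S, ∫⁻ ω, a s ω ^ q ∂P := by
        rw [lintegral_const_mul, lintegral_finsetSum]
        · exact fun s _ => (ham s).pow_const q
        · exact Finset.measurable_sum _ fun s _ => (ham s).pow_const q
    _ ≤ (S.card : ℝ≥0∞) ^ (q - 1) * ∑ _s ∈ S, C * eLpNorm f (ENNReal.ofReal p) volume ^ q := by
        gcongr with s _
        by_cases h0 : 0 ≤ s.1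
        · simp only [ha, if_pos h0]
          refine (hC Ω P (D s.1) (hDm s.1 h0) (hDr s.1 h0) (pp s) (measurable_pc hf _ _)
            (pc_supp _ _ _) (ne_top_of_le_ne_top hN (eLpNorm_pc_le hf _ _ _))).trans ?_
          gcongr
          exact eLpNorm_pc_le hf _ _ _
        · simp only [ha, if_neg h0, ENNReal.zero_rpow_of_pos hq0, lintegral_zero]
          exact bot_le
    _ = K * eLpNorm f (ENNReal.ofReal p) volume ^ q := by
        rw [Finset.sum_const, nsmul_eq_mul, hK]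
        ring

end Pool.Agent.Shr
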