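import Pool.Agent.Shr.Targets

/-!
# The block estimate for a rough process, both signs of time
-/

namespace Pool.Agent.Shr

open MeasureTheory Set Filter ProbabilityTheory
open Pool.Agent.Restr (u E Et E1 Lam Ik vv PP QQ gsl cj)
open Pool.Agent.Dil (sl Jk)
open scoped ENNReal NNReal Topology

namespace BLK4_

variable {Ω : Type} [MeasurableSpace Ω]

theorem measurable_shr {f : ℝ × ℝ → ℂ} (hf : Measurable f) {b : ℝ → ℝ} (hb : Measurable b) :
    Measurable (shr b f) := by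
  unfold shr
  exact hf.comp (measurable_fst.prodMk (measurable_snd.add (hb.comp measurable_fst)))

/-- The shear preserves the measure. -/
theorem mp_shear {b : ℝ → ℝ} (hb : Measurable b) :
    MeasurePreserving (fun x : ℝ × ℝ => (x.1, x.2 + b x.1)) volume volume := by
  rw [Measure.volume_eq_prod]
  refine MeasurePreserving.skew_product (f := id) (g := fun a c => c + b a)
    (MeasurePreserving.id volume) ?_ (Eventually.of_forall fun a => ?_)
  · exact measurable_snd.add (hb.comp measurable_fst)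
  · exact (measurePreserving_add_right volume (b a)).map_eq

theorem integrable_shr {f : ℝ × ℝ → ℂ} (hi : Integrable f) {b : ℝ → ℝ}
    (hb : Measurable b) : Integrable (shr b f) := by
  have h := (mp_shear hb).integrable_comp_of_integrable hi
  exact h

/-- Joint measurability of the extension of the sheared functions. -/
theorem measurable_joint {f : ℝ × ℝ → ℂ} (hf : Measurable f) {B : Ω → ℝ → ℝ}
    (hB : Measurable (Function.uncurry B)) :
    Measurable (fun p : Ω × (ℝ × ℝ × ℝ) => Et (shr (B p.1) f) p.2) := by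
  have h1 : Measurable (fun p : (Ω × (ℝ × ℝ × ℝ)) × (ℝ × ℝ) =>
      u (p.1.2.2.2 * p.2.1 + (p.1.2.2.1 * p.2.2 + p.1.2.1 * (p.2.1 ^ 2 + p.2.2 ^ 2))) *
        shr (B p.1.1) f p.2) := by
    apply Measurable.mul
    · exact Pool.Agent.Restr.measurable_u.comp (by fun_prop)
    · unfold shr
      refine hf.comp ((measurable_fst.comp measurable_snd).prodMk
        ((measurable_snd.comp measurable_snd).add ?_))
      exact hB.comp (((measurable_fst.comp measurable_fst)).prodMk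
        (measurable_fst.comp measurable_snd))
  exact (h1.stronglyMeasurable.integral_prod_right).measurable

/-- The integral over a positive block of times. -/
noncomputable def Fp (B : Ω → ℝ → ℝ) (k : ℕ) (f : ℝ × ℝ → ℂ) (ω : Ω) : ℝ≥0∞ :=
  ∫⁻ p, ‖Et (shr (B ω) f) p‖ₑ ^ 4 ∂(Lam (Ik k))

theorem measurable_Fp {f : ℝ × ℝ → ℂ} (hf : Measurable f) {B : Ω → ℝ → ℝ}
    (hB : Measurable (Function.uncurry B)) (k : ℕ) : Measurable (Fp B k f) := by
  unfold Fp
  exact Measurable.lintegral_prod_right'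
    (f := fun p : Ω × (ℝ × ℝ × ℝ) => ‖Et (shr (B p.1) f) p.2‖ₑ ^ 4)
    ((measurable_joint hf hB).enorm.pow_const 4)

theorem sl_eq {g : ℝ × ℝ → ℂ} (hg : Measurable g) (q t : ℝ) : sl q g t = gsl q g t := by
  unfold sl gsl
  have hm : Measurable (fun w : ℝ × ℝ => ‖E g (w.1, w.2, t)‖ₑ ^ q) :=
    ((Pool.Agent.Restr.measurable_E hg).enorm.pow_const q).comp
      (by fun_prop : Measurable fun w : ℝ × ℝ => (w.1, w.2, t))
  rw [Measure.volume_eq_prod, lintegral_prod_symm _ hm.aemeasurable]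

theorem sl_int {g : ℝ × ℝ → ℂ} (hg : Measurable g) (k : ℕ) :
    ∫⁻ t in Ik k, gsl 4 g t = ∫⁻ p, ‖Et g p‖ₑ ^ 4 ∂(Lam (Ik k)) := by
  rw [← Pool.Agent.Restr.lam_eq hg]
  refine lintegral_congr fun p => ?_
  rw [show (4 : ℝ) = ((4 : ℕ) : ℝ) by norm_num, ENNReal.rpow_natCast]

theorem measurable_gsl {g : ℝ × ℝ → ℂ} (hg : Measurable g) (q : ℝ) : Measurable (gsl q g) := by
  have h : gsl q g = sl q g := by
    funext t
    exact (sl_eq hg q t).symm
  rw [h]
  unfold sl
  exact Measurable.lintegral_prod_right'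
    (f := fun p : ℝ × (ℝ × ℝ) => ‖E g (p.2.1, p.2.2, p.1)‖ₑ ^ q)
    (((Pool.Agent.Restr.measurable_E hg).enorm.pow_const q).comp
      (by fun_prop : Measurable fun p : ℝ × (ℝ × ℝ) => (p.2.1, p.2.2, p.1)))

theorem cj_shr (b : ℝ → ℝ) (f : ℝ × ℝ → ℂ) : cj (shr b f) = shr b (cj f) := rfl

theorem BQ.cj' {f : ℝ × ℝ → ℂ} (h : BQ f) : BQ (cj f) where
  meas := Complex.continuous_conj.measurable.comp h.meas
  bdd := by
    obtain ⟨M, hM⟩ := h.bdd
    refine ⟨M, fun x => ?_⟩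
    unfold cj
    rw [RCLike.norm_conj]
    exact hM x
  supp := fun x hx => by
    unfold cj
    rw [h.supp x hx, map_zero]

theorem BQ.ind' {f : ℝ × ℝ → ℂ} (h : BQ f) {s : Set (ℝ × ℝ)} (hs : MeasurableSet s) :
    BQ (s.indicator f) where
  meas := h.meas.indicator hs
  bdd := by
    obtain ⟨M, hM⟩ := h.bdd
    exact ⟨M, fun x => (norm_indicator_le_norm_self _ _).trans (hM x)⟩
  supp := fun x hx => by
    by_cases hm : x ∈ s
    · rw [indicator_of_mem hm]
      exact h.supp x hx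
    · rw [indicator_of_notMem hm]

theorem measurableSet_QQ : MeasurableSet QQ := by
  unfold Pool.Agent.Restr.QQ
  exact measurableSet_Icc.prod measurableSet_Icc

theorem BQ.integrable' {f : ℝ × ℝ → ℂ} (h : BQ f) : Integrable f := by
  obtain ⟨M, hM⟩ := h.bdd
  have h1 : IntegrableOn f QQ := by
    refine Measure.integrableOn_of_bounded (M := M) ?_ h.meas.aestronglyMeasurable
      (Eventually.of_forall fun x => hM x)
    rw [Pool.Agent.Restr.vol_QQ]
    exact ENNReal.one_ne_top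
  rw [← integrableOn_univ]
  refine h1.of_forall_sdiff_eq_zero MeasurableSet.univ fun x hx => h.supp x hx.2

theorem four (a b c : ℝ≥0∞) : (a + b + c) ^ 4 ≤ 81 * (a ^ 4 + b ^ 4 + c ^ 4) := by
  have h : a + b + c ≤ 3 * max a (max b c) := by
    have h1 : a ≤ max a (max b c) := le_max_left _ _
    have h2 : b ≤ max a (max b c) := (le_max_left _ _).trans (le_max_right _ _)
    have h3 : c ≤ max a (max b c) := (le_max_right _ _).trans (le_max_right _ _)
    calc a + b + c ≤ max a (max b c) + max a (max b c) + max a (max b c) :=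
          add_le_add (add_le_add h1 h2) h3
      _ = 3 * max a (max b c) := by ring
  have h4 : (max a (max b c)) ^ 4 ≤ a ^ 4 + b ^ 4 + c ^ 4 := by
    rcases max_choice a (max b c) with e | e
    · rw [e, add_assoc]
      exact le_self_add
    · rw [e]
      rcases max_choice b c with e' | e'
      · rw [e']
        exact le_self_add.trans' le_add_self
      · rw [e']
        exact le_add_self
  calc (a + b + c) ^ 4 ≤ (3 * max a (max b c)) ^ 4 := by gcongr
    _ = 81 * (max a (max b c)) ^ 4 := by rw [mul_pow]; norm_num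
    _ ≤ _ := by gcongr

/-- The integral over a block of a sum of three functions. -/
theorem Fp_add {f g h : ℝ × ℝ → ℂ} (hf : BQ f) (hg : BQ g) (hh : BQ h) {B : Ω → ℝ → ℝ}
    (hB : Measurable (Function.uncurry B)) (k : ℕ) (ω : Ω) :
    Fp B k (fun x => f x + g x + h x) ω ≤ 81 * (Fp B k f ω + Fp B k g ω + Fp B k h ω) := by
  have hb : Measurable (B ω) := hB.comp measurable_prodMk_left
  have e : ∀ p, Et (shr (B ω) (fun x => f x + g x + h x)) p =
      Et (shr (B ω) f) p + Et (shr (B ω) g) p + Et (shr (B ω) h) p := by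
    intro p
    have hf' := integrable_shr (BQ.integrable' hf) hb
    have hg' := integrable_shr (BQ.integrable' hg) hb
    have hh' := integrable_shr (BQ.integrable' hh) hb
    have hfg' : Integrable (fun x => shr (B ω) f x + shr (B ω) g x) := hf'.add hg'
    rw [← Pool.Agent.Restr.Et_add hf' hg', ← Pool.Agent.Restr.Et_add hfg' hh']
    rfl
  have hmf : Measurable (fun p => ‖Et (shr (B ω) f) p‖ₑ ^ 4) :=
    (Pool.Agent.Restr.measurable_Et (measurable_shr hf.meas hb)).enorm.pow_const 4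
  have hmg : Measurable (fun p => ‖Et (shr (B ω) g) p‖ₑ ^ 4) :=
    (Pool.Agent.Restr.measurable_Et (measurable_shr hg.meas hb)).enorm.pow_const 4
  have hmh : Measurable (fun p => ‖Et (shr (B ω) h) p‖ₑ ^ 4) :=
    (Pool.Agent.Restr.measurable_Et (measurable_shr hh.meas hb)).enorm.pow_const 4
  have hmfg : Measurable (fun p => ‖Et (shr (B ω) f) p‖ₑ ^ 4 + ‖Et (shr (B ω) g) p‖ₑ ^ 4) :=
    hmf.add hmg
  have hmfgh : Measurable (fun p => ‖Et (shr (B ω) f) p‖ₑ ^ 4 + ‖Et (shr (B ω) g) p‖ₑ ^ 4 +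
    ‖Et (shr (B ω) h) p‖ₑ ^ 4) := hmfg.add hmh
  unfold Fp
  rw [← lintegral_add_left hmf, ← lintegral_add_left hmfg,
    ← lintegral_const_mul _ hmfgh]
  refine lintegral_mono fun p => ?_
  rw [e p]
  refine le_trans ?_ (four _ _ _)
  gcongr
  exact (enorm_add_le _ _).trans (add_le_add (enorm_add_le _ _) le_rfl)

/-- The block estimate for positive times. -/
theorem pos {CL CO : ℝ≥0} {η : ℝ}
    (hL : ∀ (Ω : Type) [MeasurableSpace Ω] (P : Measure Ω)
      [IsProbabilityMeasure P] (B : Ω → ℝ → ℝ) (k : ℕ) (V : Set ℝ), MeasurableSet V →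
      RoughOn P B k V → ∀ f : ℝ × ℝ → ℂ, BQ f → (∀ x : ℝ × ℝ, x.1 ∉ V → f x = 0) →
      ∫⁻ ω, ∫⁻ p, ‖Et (shr (B ω) f) p‖ₑ ^ 4 ∂(Lam (Ik k)) ∂P ≤
        CL * ENNReal.ofReal (((2 : ℝ) ^ k) ^ η / 2 ^ k) * ∫⁻ x, ‖f x‖ₑ ^ 4)
    (hO : ∀ (k : ℕ) (f : ℝ × ℝ → ℂ), BQ f →
      (∃ c : ℝ, ∀ x : ℝ × ℝ, x.1 ∉ Icc c (c + 1 / 2 ^ k) → f x = 0) → ∀ ψ : ℝ → ℝ, Measurable ψ →
      ∫⁻ p, ‖Et (shr ψ f) p‖ₑ ^ 4 ∂(Lam (Ik k)) ≤
        CO * ENNReal.ofReal (((2 : ℝ) ^ k) ^ η / 2 ^ k) * ∫⁻ x, ‖f x‖ₑ ^ 4)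
    (P : Measure Ω) [IsProbabilityMeasure P] (B : Ω → ℝ → ℝ)
    (hB : Measurable (Function.uncurry B)) (hR : Rough P B) {f : ℝ × ℝ → ℂ} (hf : BQ f) (k : ℕ) :
    ∫⁻ ω, Fp B k f ω ∂P ≤
      ((81 * (CL + CL + CO) : ℝ≥0) : ℝ≥0∞) * ENNReal.ofReal (((2 : ℝ) ^ k) ^ η / 2 ^ k) *
        ∫⁻ x, ‖f x‖ₑ ^ 4 := by
  obtain ⟨V₀, V₁, U, h0, h1, hU, hcov, hr0, hr1, c, hUc⟩ := hR k
  set s0 : Set (ℝ × ℝ) := Prod.fst ⁻¹' V₀ with hs0
  set s1 : Set (ℝ × ℝ) := Prod.fst ⁻¹' (V₁ \ V₀) with hs1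
  set s2 : Set (ℝ × ℝ) := Prod.fst ⁻¹' (V₀ ∪ V₁)ᶜ with hs2
  have m0 : MeasurableSet s0 := measurable_fst h0
  have m1 : MeasurableSet s1 := measurable_fst (h1.diff h0)
  have m2 : MeasurableSet s2 := measurable_fst (h0.union h1).compl
  have b0 := BQ.ind' hf m0
  have b1 := BQ.ind' hf m1
  have b2 := BQ.ind' hf m2
  have e : f = fun x => s0.indicator f x + s1.indicator f x + s2.indicator f x := by
    funext x
    by_cases hx0 : x.1 ∈ V₀
    · rw [indicator_of_mem (show x ∈ s0 from hx0), indicator_of_notMem (fun h : x ∈ s1 => h.2 hx0),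
        indicator_of_notMem (fun h : x ∈ s2 => h (Or.inl hx0))]
      ring
    · by_cases hx1 : x.1 ∈ V₁
      · rw [indicator_of_notMem (show x ∉ s0 from hx0),
          indicator_of_mem (show x ∈ s1 from ⟨hx1, hx0⟩),
          indicator_of_notMem (fun h : x ∈ s2 => h (Or.inr hx1))]
        ring
      · rw [indicator_of_notMem (show x ∉ s0 from hx0),
          indicator_of_notMem (fun h : x ∈ s1 => hx1 h.1),
          indicator_of_mem (show x ∈ s2 from fun h => h.elim hx0 hx1)]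
        ring
  have i4 : ∀ s : Set (ℝ × ℝ), ∫⁻ x, ‖s.indicator f x‖ₑ ^ 4 ≤ ∫⁻ x, ‖f x‖ₑ ^ 4 := by
    intro s
    refine lintegral_mono fun x => ?_
    gcongr
    exact enorm_indicator_le_enorm_self _ _
  set X : ℝ≥0∞ := ENNReal.ofReal (((2 : ℝ) ^ k) ^ η / 2 ^ k) with hX
  set I4 : ℝ≥0∞ := ∫⁻ x, ‖f x‖ₑ ^ 4 with hI4
  have q0 : ∫⁻ ω, Fp B k (s0.indicator f) ω ∂P ≤ CL * X * I4 := by
    refine (hL Ω P B k V₀ h0 hr0 _ b0 fun x hx => indicator_of_notMem (fun h : x ∈ s0 => hx h) _).trans ?_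
    gcongr
    exact i4 _
  have q1 : ∫⁻ ω, Fp B k (s1.indicator f) ω ∂P ≤ CL * X * I4 := by
    refine (hL Ω P B k V₁ h1 hr1 _ b1 fun x hx => indicator_of_notMem (fun h : x ∈ s1 => hx h.1) _).trans ?_
    gcongr
    exact i4 _
  have q2 : ∀ ω, Fp B k (s2.indicator f) ω ≤ CO * X * I4 := by
    intro ω
    refine (hO k _ b2 ⟨c, fun x hx => ?_⟩ (B ω) (hB.comp measurable_prodMk_left)).trans ?_
    · by_cases hm : x ∈ s2
      · rw [indicator_of_mem hm]
        apply hf.supp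
        intro hq
        have hS : x.1 ∈ SS := hq.1
        rcases hcov hS with h | h
        · exact hm h
        · exact hx (hUc h)
      · rw [indicator_of_notMem hm]
    · gcongr
      exact i4 _
  have q2' : ∫⁻ ω, Fp B k (s2.indicator f) ω ∂P ≤ CO * X * I4 := by
    refine (lintegral_mono q2).trans ?_
    rw [lintegral_const, measure_univ, mul_one]
  calc ∫⁻ ω, Fp B k f ω ∂P
      ≤ ∫⁻ ω, 81 * (Fp B k (s0.indicator f) ω + Fp B k (s1.indicator f) ω +
        Fp B k (s2.indicator f) ω) ∂P := by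
        refine lintegral_mono fun ω => ?_
        conv_lhs => rw [e]
        exact Fp_add b0 b1 b2 hB k ω
    _ = 81 * (∫⁻ ω, Fp B k (s0.indicator f) ω ∂P + ∫⁻ ω, Fp B k (s1.indicator f) ω ∂P +
        ∫⁻ ω, Fp B k (s2.indicator f) ω ∂P) := by
        have n0 := measurable_Fp b0.meas hB k
        have n1 := measurable_Fp b1.meas hB k
        have n2 := measurable_Fp b2.meas hB k
        have n01 : Measurable (fun ω => Fp B k (s0.indicator f) ω + Fp B k (s1.indicator f) ω) :=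
          n0.add n1
        have n012 : Measurable (fun ω => Fp B k (s0.indicator f) ω + Fp B k (s1.indicator f) ω +
          Fp B k (s2.indicator f) ω) := n01.add n2
        rw [lintegral_const_mul _ n012, lintegral_add_left n01, lintegral_add_left n0]
    _ ≤ 81 * (CL * X * I4 + CL * X * I4 + CO * X * I4) := by gcongr
    _ = _ := by push_cast; ring

theorem Jk_sub (k : ℕ) : Jk k ⊆ Ik k ∪ Neg.neg ⁻¹' (Ik k) := by
  intro t ht
  rcases le_total 0 t with h | h
  · left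
    have h1 : |t| = t := abs_of_nonneg h
    have h2 := ht.1
    have h3 := ht.2
    rw [h1] at h2 h3
    exact ⟨h2, h3⟩
  · right
    have h1 : |t| = -t := abs_of_nonpos h
    have h2 := ht.1
    have h3 := ht.2
    rw [h1] at h2 h3
    exact ⟨h2, h3⟩

/-- Both signs of time. -/
theorem both {g : ℝ × ℝ → ℂ} (hg : Measurable g) (k : ℕ) :
    ∫⁻ t in Jk k, sl 4 g t ≤ (∫⁻ p, ‖Et g p‖ₑ ^ 4 ∂(Lam (Ik k))) +
      ∫⁻ p, ‖Et (cj g) p‖ₑ ^ 4 ∂(Lam (Ik k)) := by
  have hc : Measurable (cj g) := Complex.continuous_conj.measurable.comp hg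
  have h1 : ∫⁻ t in Jk k, sl 4 g t ≤ (∫⁻ t in Ik k, sl 4 g t) +
      ∫⁻ t in Neg.neg ⁻¹' (Ik k), sl 4 g t :=
    (lintegral_mono_set (Jk_sub k)).trans (lintegral_union_le _ _ _)
  have h2 : ∫⁻ t in Ik k, sl 4 g t = ∫⁻ p, ‖Et g p‖ₑ ^ 4 ∂(Lam (Ik k)) := by
    rw [← sl_int hg]
    exact lintegral_congr fun t => sl_eq hg 4 t
  have hI : MeasurableSet (Ik k) := by
    unfold Pool.Agent.Restr.Ik
    exact measurableSet_Ico
  have h3 : ∫⁻ t in Neg.neg ⁻¹' (Ik k), sl 4 g t = ∫⁻ p, ‖Et (cj g) p‖ₑ ^ 4 ∂(Lam (Ik k)) := by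
    rw [← sl_int hc, ← lintegral_indicator (measurable_neg hI), ← lintegral_indicator hI,
      ← lintegral_neg_eq_self]
    refine lintegral_congr fun t => ?_
    by_cases ht : t ∈ Ik k
    · have ht' : -t ∈ Neg.neg ⁻¹' (Ik k) := by
        change - -t ∈ Ik k
        rwa [neg_neg]
      rw [indicator_of_mem ht, indicator_of_mem ht', sl_eq hg, Pool.Agent.Restr.gsl_neg]
    · have ht' : -t ∉ Neg.neg ⁻¹' (Ik k) := by
        intro h
        apply ht
        have : - -t ∈ Ik k := h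
        rwa [neg_neg] at this
      rw [indicator_of_notMem ht, indicator_of_notMem ht']
  rw [← h2, ← h3]
  exact h1

end BLK4_

open BLK4_ in
/-- BLK4. -/
theorem p_BLK4 (h_LAW : T_LAW) (h_ONE : T_ONE) : T_BLK4 := by
  intro η hη
  obtain ⟨CL, hL⟩ := h_LAW η hη
  obtain ⟨CO, hO⟩ := h_ONE η hη
  refine ⟨81 * (CL + CL + CO) + 81 * (CL + CL + CO), fun Ω _ P _ B hB hR f hf k => ?_⟩
  have hpos := pos hL hO P B hB hR hf k
  have hneg := pos hL hO P B hB hR (BQ.cj' hf) k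
  have hI : ∫⁻ x, ‖cj f x‖ₑ ^ 4 = ∫⁻ x, ‖f x‖ₑ ^ 4 := by
    simp only [Pool.Agent.Restr.enorm_cj]
  rw [hI] at hneg
  calc blk 4 P B (Jk k) f ≤ ∫⁻ ω, (Fp B k f ω + Fp B k (cj f) ω) ∂P := by
        unfold blk
        refine lintegral_mono fun ω => ?_
        exact both (measurable_shr hf.meas (hB.comp measurable_prodMk_left)) k
    _ = (∫⁻ ω, Fp B k f ω ∂P) + ∫⁻ ω, Fp B k (cj f) ω ∂P :=
        lintegral_add_left (measurable_Fp hf.meas hB k) _
    _ ≤ _ := add_le_add hpos hneg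
    _ = _ := by push_cast; ring

end Pool.Agent.Shr
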