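import Pool.Agent.Shr.Targets

/-!
# Brownian motion on the unit intervals to the right of the origin is rough
-/

namespace Pool.Agent.Shr

open MeasureTheory Set Filter ProbabilityTheory
open Pool.Agent.Restr (u E Et E1 Lam Ik vv PP QQ)
open scoped ENNReal NNReal Topology

namespace BM_

variable {Ω : Type}

lemma pth_cont {B : ℝ≥0 → Ω → ℝ} {ω : Ω} (h : Continuous (fun t => B t ω)) :
    Continuous (pth B ω) := by
  unfold pth
  exact h.comp continuous_real_toNNReal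

lemma tent_cont (k : ℕ) (c : ℝ) : Continuous (tent k c) := by
  unfold tent
  fun_prop

lemma bg_cont {k a N : ℕ} {p : ℝ → ℝ} (hp : Continuous p) : Continuous (bg k a N p) := by
  unfold bg
  refine hp.sub (continuous_finsetSum _ fun j _ => (tent_cont _ _).mul continuous_const)

lemma floor_tendsto {y : ℝ} (hy : 0 ≤ y) :
    Tendsto (fun n : ℕ => (⌊(2 : ℝ) ^ n * y⌋₊ : ℝ) / 2 ^ n) atTop (𝓝 y) := by
  have h1 : Tendsto (fun n : ℕ => (2 : ℝ) ^ n) atTop atTop :=
    tendsto_pow_atTop_atTop_of_one_lt (by norm_num)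
  have h2 := (tendsto_nat_floor_mul_div_atTop hy).comp h1
  refine h2.congr fun n => ?_
  simp only [Function.comp_apply]
  rw [mul_comm]

/-- the reconstruction of a continuous path -/
lemma rec_cont {Ψ : (ℕ × ℕ → ℝ) → ℝ → ℝ}
    (hrec : ∀ (X : ℕ × ℕ → ℝ) (x : ℝ) (v : ℝ), 0 ≤ x →
      Tendsto (fun n : ℕ => X (n, ⌊(2 : ℝ) ^ n * x⌋₊)) atTop (𝓝 v) → Ψ X x = v)
    {p : ℝ → ℝ} (hp : Continuous p) {y : ℝ} (hy : 0 ≤ y) :
    Ψ (fun i : ℕ × ℕ => p ((i.2 : ℝ) / 2 ^ i.1)) y = p y := by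
  refine hrec _ y _ hy ?_
  exact (hp.tendsto y).comp (floor_tendsto hy)

lemma ctr_sub (k a i j : ℕ) : ctr k a i - ctr k a j = 2 * ((i : ℝ) - j) / 2 ^ k := by
  unfold ctr
  field_simp
  ring

lemma ctr_far (k a : ℕ) {i j : ℕ} (h : i ≠ j) : 2 / 2 ^ k ≤ |ctr k a i - ctr k a j| := by
  rw [ctr_sub, abs_div, abs_of_pos (by positivity : (0 : ℝ) < 2 ^ k), abs_mul,
    abs_of_pos (by norm_num : (0 : ℝ) < 2)]
  apply div_le_div_of_nonneg_right _ (by positivity)
  have h1 : (1 : ℝ) ≤ |(i : ℝ) - j| := by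
    have h2 : ((i : ℤ) - j) ≠ 0 := by
      intro h0
      apply h
      omega
    have h3 : (1 : ℤ) ≤ |(i : ℤ) - j| := Int.one_le_abs h2
    exact_mod_cast h3
  linarith

lemma tent_zero {k a : ℕ} {i j : ℕ} (h : i ≠ j) {y : ℝ}
    (hy : |y - ctr k a j| ≤ 1 / 2 / 2 ^ k) : tent k (ctr k a i) y = 0 := by
  unfold tent
  apply max_eq_left
  have h1 := ctr_far k a h
  have h2 : |ctr k a i - ctr k a j| ≤ |y - ctr k a i| + |y - ctr k a j| := by
    rw [abs_sub_comm y (ctr k a i)]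
    exact abs_sub_le _ _ _
  have h3 : (0 : ℝ) < 2 ^ k := by positivity
  have h4 : 1 / 2 ^ k ≤ |y - ctr k a i| := by
    have h5 : (2 : ℝ) / 2 ^ k - 1 / 2 / 2 ^ k = 3 / 2 / 2 ^ k := by ring
    have h6 : (1 : ℝ) / 2 ^ k ≤ 3 / 2 / 2 ^ k :=
      div_le_div_of_nonneg_right (by norm_num) h3.le
    linarith
  have h7 : 1 ≤ 2 ^ k * |y - ctr k a i| := by
    rw [div_le_iff₀ h3] at h4
    linarith
  linarith

lemma tent_self {k : ℕ} {c y : ℝ} (hy : |y - c| ≤ 1 / 2 / 2 ^ k) :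
    1 / 2 ≤ tent k c y ∧ tent k c y ≤ 1 := by
  have h3 : (0 : ℝ) < 2 ^ k := by positivity
  have h7 : 2 ^ k * |y - c| ≤ 1 / 2 := by
    rw [le_div_iff₀ h3] at hy
    linarith
  unfold tent
  constructor
  · refine le_trans ?_ (le_max_right _ _)
    linarith
  · refine max_le zero_le_one ?_
    have : 0 ≤ 2 ^ k * |y - c| := by positivity
    linarith

/-- the cells -/
def cell (o : ℝ) (k a j : ℕ) : Set ℝ := SS ∩ {x | |x + o - ctr k a j| ≤ 1 / 2 / 2 ^ k}

lemma cell_meas (o : ℝ) (k a j : ℕ) : MeasurableSet (cell o k a j) := by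
  unfold cell SS
  refine measurableSet_Icc.inter ?_
  have : Continuous fun x : ℝ => |x + o - ctr k a j| := by fun_prop
  exact (isClosed_le this continuous_const).measurableSet

/-- the weight -/
noncomputable def wgt (o : ℝ) (k a N : ℕ) (x : ℝ) : ℝ :=
  max (1 / 2) (min 1 (∑ j : Fin N, tent k (ctr k a j) (x + o)))

lemma sum_tent {o : ℝ} {k a N : ℕ} {j : Fin N} {x : ℝ} (hx : x ∈ cell o k a j) (r : Fin N → ℝ) :
    ∑ i : Fin N, tent k (ctr k a i) (x + o) * r i = tent k (ctr k a j) (x + o) * r j := by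
  rw [Finset.sum_eq_single j]
  · intro i _ hij
    have : (i : ℕ) ≠ j := fun h => hij (Fin.ext h)
    rw [tent_zero this hx.2, zero_mul]
  · intro h
    exact absurd (Finset.mem_univ _) h

lemma wgt_eq {o : ℝ} {k a N : ℕ} {j : Fin N} {x : ℝ} (hx : x ∈ cell o k a j) :
    wgt o k a N x = tent k (ctr k a j) (x + o) := by
  unfold wgt
  have h1 := sum_tent hx (fun _ => 1)
  simp only [mul_one] at h1
  rw [h1]
  obtain ⟨h2, h3⟩ := tent_self hx.2
  rw [min_eq_right h3, max_eq_right h2]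

lemma cells (o : ℝ) (k a N : ℕ) : Cells k (fun j : Fin N => cell o k a j) (wgt o k a N) where
  meas := fun j => cell_meas o k a j
  disj := by
    intro i j hij
    rw [Set.disjoint_left]
    intro x hi hj
    have h0 : (i : ℕ) ≠ j := fun h => hij (Fin.ext h)
    have h1 := ctr_far k a h0
    have h2 : |ctr k a i - ctr k a j| ≤ |x + o - ctr k a i| + |x + o - ctr k a j| := by
      rw [abs_sub_comm (x + o) (ctr k a i)]
      exact abs_sub_le _ _ _
    have h3 : |x + o - ctr k a i| ≤ 1 / 2 / 2 ^ k := hi.2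
    have h4 : |x + o - ctr k a j| ≤ 1 / 2 / 2 ^ k := hj.2
    have h5 : (0 : ℝ) < 1 / 2 ^ k := by positivity
    have h6 : (2 : ℝ) / 2 ^ k = 2 * (1 / 2 ^ k) := by ring
    have h7 : (1 : ℝ) / 2 / 2 ^ k = 1 / 2 * (1 / 2 ^ k) := by ring
    rw [h6] at h1
    rw [h7] at h3 h4
    linarith
  small := by
    intro j
    refine ⟨ctr k a j - o - 1 / 2 / 2 ^ k, fun x hx => ?_⟩
    have h4 := abs_le.1 (show |x + o - ctr k a j| ≤ 1 / 2 / 2 ^ k from hx.2)
    have h7 : (1 : ℝ) / 2 ^ k = 1 / 2 / 2 ^ k + 1 / 2 / 2 ^ k := by ring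
    constructor
    · linarith [h4.1]
    · rw [h7]
      linarith [h4.2]
  mlam := by
    unfold wgt
    have : Continuous fun x : ℝ =>
        max (1 / 2) (min 1 (∑ j : Fin N, tent k (ctr k a j) (x + o))) := by
      refine continuous_const.max (continuous_const.min ?_)
      refine continuous_finsetSum _ fun j _ => ?_
      exact (tent_cont _ _).comp (continuous_id.add continuous_const)
    exact this.measurable
  lam1 := fun x => le_max_left _ _
  lam2 := fun x => max_le (by norm_num) (min_le_left _ _)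

lemma rnd_eq {o : ℝ} {k a N : ℕ} {j : Fin N} {x : ℝ} (hx : x ∈ cell o k a j) (g : Fin N → ℝ) :
    rnd (fun j : Fin N => cell o k a j) (wgt o k a N) g x =
      tent k (ctr k a j) (x + o) * g j := by
  unfold rnd
  rw [Finset.sum_eq_single j]
  · rw [indicator_of_mem hx, wgt_eq hx]
  · intro i _ hij
    have hd := (cells o k a N).disj i j hij
    rw [indicator_of_notMem]
    exact fun hi => Set.disjoint_left.1 hd hi hx
  · intro h
    exact absurd (Finset.mem_univ _) h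

lemma nonneg_of_SS {o x : ℝ} (ho : 1 / 2 ≤ o) (hx : x ∈ SS) : 0 ≤ x + o := by
  have := hx.1
  linarith

/-- the covering of `SS` -/
lemma cover (o : ℝ) (k : ℕ) :
    SS ⊆ (⋃ j : Fin (⌈(2 : ℝ) ^ k * (o + 1)⌉₊ + 1), cell o k 0 j) ∪
      (⋃ j : Fin (⌈(2 : ℝ) ^ k * (o + 1)⌉₊ + 1), cell o k 1 j) ∪
      (SS ∩ {x | x + o < 1 / 2 / 2 ^ k}) := by
  intro x hx
  have hk : (0 : ℝ) < 2 ^ k := by positivity
  have hk1 : (1 : ℝ) ≤ 2 ^ k := one_le_pow₀ (by norm_num)
  by_cases hy : x + o < 1 / 2 / 2 ^ k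
  · exact Or.inr ⟨hx, hy⟩
  · left
    push Not at hy
    have hy2 : 1 / 2 ≤ 2 ^ k * (x + o) := by
      rw [div_le_iff₀ hk] at hy
      linarith
    set z : ℤ := round (2 ^ k * (x + o)) with hz
    have hz1 : 1 ≤ z := by
      rw [hz, round_eq]
      apply Int.le_floor.2
      push_cast
      linarith
    have hz2 : |2 ^ k * (x + o) - z| ≤ 1 / 2 := abs_sub_round _
    obtain ⟨n, hn⟩ : ∃ n : ℕ, z = n + 1 := ⟨(z - 1).toNat, by omega⟩
    rw [hn] at hz2
    push_cast at hz2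
    have hclose : |x + o - ((n : ℝ) + 1) / 2 ^ k| ≤ 1 / 2 / 2 ^ k := by
      rw [le_div_iff₀ hk]
      have e1 : |x + o - ((n : ℝ) + 1) / 2 ^ k| * 2 ^ k = |2 ^ k * (x + o) - (n + 1)| := by
        rw [← abs_of_pos hk, ← abs_mul, abs_of_pos hk]
        congr 1
        field_simp
      rw [e1]
      exact hz2
    have hnN : n ≤ ⌈(2 : ℝ) ^ k * (o + 1)⌉₊ := by
      have h1 : (n : ℝ) ≤ ⌈(2 : ℝ) ^ k * (o + 1)⌉₊ := by
        refine le_trans ?_ (Nat.le_ceil _)
        have h2 := (abs_le.1 hz2).1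
        have h3 : x ≤ 1 / 2 := hx.2
        nlinarith
      exact_mod_cast h1
    rcases Nat.even_or_odd' n with ⟨m, hm | hm⟩
    · left
      refine mem_iUnion.2 ⟨⟨m, by omega⟩, hx, ?_⟩
      show |x + o - ctr k 0 m| ≤ 1 / 2 / 2 ^ k
      have e2 : ctr k 0 m = ((n : ℝ) + 1) / 2 ^ k := by
        unfold ctr
        rw [hm]
        push_cast
        ring
      rw [e2]
      exact hclose
    · right
      refine mem_iUnion.2 ⟨⟨m, by omega⟩, hx, ?_⟩
      show |x + o - ctr k 1 m| ≤ 1 / 2 / 2 ^ k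
      have e2 : ctr k 1 m = ((n : ℝ) + 1) / 2 ^ k := by
        unfold ctr
        rw [hm]
        push_cast
        ring
      rw [e2]
      exact hclose

end BM_

open BM_ in
theorem p_BM (h_BMI : T_BMI) (h_REC : T_REC) : T_BM := by
  intro Ω _ P B hB o ho
  obtain ⟨Ψ, hΨ, hrec⟩ := h_REC
  set X0 : Ω → (ℕ × ℕ → ℝ) := fun ω i => pth B ω ((i.2 : ℝ) / 2 ^ i.1) with hX0def
  have hX0 : AEMeasurable X0 P :=
    aemeasurable_pi_lambda _ fun i => hB.toIsPreBrownianReal.aemeasurable _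
  set B' : Ω → ℝ → ℝ := fun ω x => Ψ (hX0.mk X0 ω) (x + o) with hB'
  have hB'm : Measurable (Function.uncurry B') := by
    have h1 : Measurable fun z : Ω × ℝ => (hX0.mk X0 z.1, z.2 + o) :=
      (hX0.measurable_mk.comp measurable_fst).prodMk (measurable_snd.add_const o)
    exact hΨ.comp h1
  have hae : ∀ᵐ ω ∂P, ∀ x ∈ SS, B' ω x = pth B ω (x + o) := by
    filter_upwards [hB.cont, hX0.ae_eq_mk] with ω h1 h2
    intro x hx
    show Ψ (hX0.mk X0 ω) (x + o) = pth B ω (x + o)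
    rw [← h2]
    exact rec_cont hrec (pth_cont h1) (nonneg_of_SS ho hx)
  refine ⟨B', hB'm, hae, ?_⟩
  intro k
  set N : ℕ := ⌈(2 : ℝ) ^ k * (o + 1)⌉₊ + 1 with hN
  have hrough : ∀ a : ℕ, RoughOn P B' k (⋃ j : Fin N, cell o k a j) := by
    intro a
    obtain ⟨h1, h2, h3, h4⟩ := h_BMI Ω P B hB.toIsPreBrownianReal k a N (ℕ × ℕ)
      (fun i => (i.2 : ℝ) / 2 ^ i.1) (fun i => by positivity)
    refine ⟨N, fun j => cell o k a j, wgt o k a N, _, _, fun X x => Ψ X (x + o), cells o k a N,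
      Subset.rfl, h1, h2, ?_, h3, h4, ?_⟩
    · have h5 : Measurable fun z : (ℕ × ℕ → ℝ) × ℝ => (z.1, z.2 + o) :=
        measurable_fst.prodMk (measurable_snd.add_const o)
      exact hΨ.comp h5
    · filter_upwards [hB.cont, hae] with ω h5 h6
      intro x hx
      obtain ⟨j, hj⟩ := mem_iUnion.1 hx
      have hxS : x ∈ SS := hj.1
      have hy := nonneg_of_SS ho hxS
      rw [h6 x hxS, rnd_eq hj]
      have h7 : Ψ (fun i : ℕ × ℕ => bg k a N (pth B ω) ((i.2 : ℝ) / 2 ^ i.1)) (x + o) =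
          bg k a N (pth B ω) (x + o) := rec_cont hrec (bg_cont (pth_cont h5)) hy
      have h8 : bg k a N (pth B ω) (x + o) = pth B ω (x + o) -
          tent k (ctr k a j) (x + o) * dd k a (pth B ω) j := by
        unfold bg
        rw [sum_tent hj (fun j : Fin N => dd k a (pth B ω) j)]
      show pth B ω (x + o) =
        Ψ (fun i : ℕ × ℕ => bg k a N (pth B ω) ((i.2 : ℝ) / 2 ^ i.1)) (x + o) + _
      rw [h7, h8]
      ring
  refine ⟨⋃ j : Fin N, cell o k 0 j, ⋃ j : Fin N, cell o k 1 j, SS ∩ {x | x + o < 1 / 2 / 2 ^ k},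
    MeasurableSet.iUnion fun j => cell_meas _ _ _ _,
    MeasurableSet.iUnion fun j => cell_meas _ _ _ _, ?_, cover o k, hrough 0, hrough 1,
    -o, ?_⟩
  · unfold SS
    refine measurableSet_Icc.inter ?_
    have : Continuous fun x : ℝ => x + o := by fun_prop
    exact (isOpen_lt this continuous_const).measurableSet
  · rintro x ⟨hx1, hx2⟩
    have h1 := nonneg_of_SS ho hx1
    have h2 : x + o < 1 / 2 / 2 ^ k := hx2
    have h3 : (1 : ℝ) / 2 / 2 ^ k ≤ 1 / 2 ^ k :=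
      div_le_div_of_nonneg_right (by norm_num) (by positivity)
    constructor <;> linarith

end Pool.Agent.Shr
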