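import Pool.Agent.Shr.Targets

set_option autoImplicit false

/-!
# STR: one cell, the supremum bound and Plancherel
-/

namespace Pool.Agent.Shr

open MeasureTheory Set Filter ProbabilityTheory
open Pool.Agent.Restr (u E Et E1 Lam Ik vv PP QQ measurable_u u_add enorm_u plancherel1)
open scoped ENNReal NNReal Topology

namespace STR_

theorem cs {α : Type*} [MeasurableSpace α] {m : Measure α} {F : α → ℝ≥0∞}
    (hF : AEMeasurable F m) : (∫⁻ x, F x ∂m) ^ 2 ≤ m univ * ∫⁻ x, F x ^ 2 ∂m := by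
  have h := ENNReal.lintegral_mul_norm_pow_le (μ := m) (f := fun x => F x ^ 2)
    (g := fun _ => 1) (hF.pow_const 2) aemeasurable_const (p := 1 / 2) (q := 1 / 2)
    (by norm_num) (by norm_num) (by norm_num)
  have e : ∀ y : ℝ≥0∞, (y ^ 2) ^ (1 / 2 : ℝ) = y := by
    intro y
    rw [← ENNReal.rpow_natCast y 2, ← ENNReal.rpow_mul]
    norm_num
  have e' : ∀ y : ℝ≥0∞, (y ^ (1 / 2 : ℝ)) ^ 2 = y := by
    intro y
    rw [← ENNReal.rpow_natCast _ 2, ← ENNReal.rpow_mul]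
    norm_num
  simp only [e, ENNReal.one_rpow, mul_one, lintegral_const, one_mul] at h
  calc (∫⁻ x, F x ∂m) ^ 2 ≤
      ((∫⁻ x, F x ^ 2 ∂m) ^ (1 / 2 : ℝ) * (m univ) ^ (1 / 2 : ℝ)) ^ 2 := by gcongr
    _ = m univ * ∫⁻ x, F x ^ 2 ∂m := by rw [mul_pow, e', e', mul_comm]

end STR_

open STR_ in
theorem p_STR : T_STR := by
  intro k A hA hAc R hR hRb t
  obtain ⟨c, hc⟩ := hAc
  have hvol : volume A ≤ ENNReal.ofReal (1 / 2 ^ k) := by
    refine (measure_mono hc).trans ?_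
    rw [Real.volume_Icc]
    apply ENNReal.ofReal_le_ofReal
    linarith
  have h1 : ∀ ξ : ℝ, ‖∫ x in A, u (ξ * x + t * x ^ 2) * R x‖ₑ ^ 2 ≤
      ENNReal.ofReal (1 / 2 ^ k) * ∫⁻ x in A, ‖R x‖ₑ ^ 2 := by
    intro ξ
    have e1 : ‖∫ x in A, u (ξ * x + t * x ^ 2) * R x‖ₑ ≤ ∫⁻ x in A, ‖R x‖ₑ := by
      refine (enorm_integral_le_lintegral_enorm _).trans (le_of_eq ?_)
      refine lintegral_congr fun x => ?_
      rw [enorm_mul, enorm_u, one_mul]
    calc ‖∫ x in A, u (ξ * x + t * x ^ 2) * R x‖ₑ ^ 2 ≤ (∫⁻ x in A, ‖R x‖ₑ) ^ 2 := by gcongr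
      _ ≤ (volume.restrict A) univ * ∫⁻ x in A, ‖R x‖ₑ ^ 2 := cs hR.enorm.aemeasurable
      _ ≤ ENNReal.ofReal (1 / 2 ^ k) * ∫⁻ x in A, ‖R x‖ₑ ^ 2 := by
          rw [Measure.restrict_apply_univ]
          gcongr
  have h2 : ∫⁻ ξ : ℝ, ‖∫ x in A, u (ξ * x + t * x ^ 2) * R x‖ₑ ^ 2 ≤
      ENNReal.ofReal (2 * Real.pi) * ∫⁻ x in A, ‖R x‖ₑ ^ 2 := by
    have h := plancherel1 (μ := volume.restrict A) (s := fun x : ℝ => x) measurable_id (C := 1)
      (fun φ _ => by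
        rw [one_mul]
        exact setLIntegral_le_lintegral _ _)
      (G := fun x : ℝ => u (t * x ^ 2) * R x) ((measurable_u.comp (by fun_prop)).mul hR)
    rw [one_mul] at h
    refine le_trans (le_of_eq ?_) (h.trans (le_of_eq ?_))
    · refine lintegral_congr fun w => ?_
      congr 2
      refine integral_congr_ae (Eventually.of_forall fun x => ?_)
      change u (w * x + t * x ^ 2) * R x = u (w * x) * (u (t * x ^ 2) * R x)
      rw [u_add, mul_assoc]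
    · congr 1
      refine lintegral_congr fun x => ?_
      rw [enorm_mul, enorm_u, one_mul]
  refine ⟨h1, h2, ?_⟩
  have hYm : Measurable (fun ξ : ℝ => ∫ x in A, u (ξ * x + t * x ^ 2) * R x) := by
    have : StronglyMeasurable (fun ξ : ℝ => ∫ x in A, u (ξ * x + t * x ^ 2) * R x) := by
      apply StronglyMeasurable.integral_prod_right
        (f := fun (ξ : ℝ) (x : ℝ) => u (ξ * x + t * x ^ 2) * R x)
      apply Measurable.stronglyMeasurable
      exact (measurable_u.comp (by fun_prop)).mul (hR.comp measurable_snd)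
    exact this.measurable
  set S : ℝ≥0∞ := ∫⁻ x in A, ‖R x‖ₑ ^ 2 with hS
  have hSS : S ^ 2 ≤ ENNReal.ofReal (1 / 2 ^ k) * ∫⁻ x in A, ‖R x‖ₑ ^ 4 := by
    refine (cs (hR.enorm.pow_const 2).aemeasurable).trans ?_
    rw [Measure.restrict_apply_univ]
    refine mul_le_mul' hvol (le_of_eq ?_)
    refine lintegral_congr fun x => ?_
    rw [← pow_mul]
  calc ∫⁻ ξ : ℝ, ‖∫ x in A, u (ξ * x + t * x ^ 2) * R x‖ₑ ^ 4
      ≤ ∫⁻ ξ : ℝ, (ENNReal.ofReal (1 / 2 ^ k) * S) *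
          ‖∫ x in A, u (ξ * x + t * x ^ 2) * R x‖ₑ ^ 2 := by
        refine lintegral_mono fun ξ => ?_
        have e4 : ‖∫ x in A, u (ξ * x + t * x ^ 2) * R x‖ₑ ^ 4 =
            ‖∫ x in A, u (ξ * x + t * x ^ 2) * R x‖ₑ ^ 2 *
            ‖∫ x in A, u (ξ * x + t * x ^ 2) * R x‖ₑ ^ 2 := by ring
        change ‖∫ x in A, u (ξ * x + t * x ^ 2) * R x‖ₑ ^ 4 ≤ _
        rw [e4]
        exact mul_le_mul_left (h1 ξ) _
    _ = (ENNReal.ofReal (1 / 2 ^ k) * S) *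
          ∫⁻ ξ : ℝ, ‖∫ x in A, u (ξ * x + t * x ^ 2) * R x‖ₑ ^ 2 :=
        lintegral_const_mul _ (hYm.enorm.pow_const 2)
    _ ≤ (ENNReal.ofReal (1 / 2 ^ k) * S) * (ENNReal.ofReal (2 * Real.pi) * S) := by
        gcongr
    _ = ENNReal.ofReal (2 * Real.pi) * ENNReal.ofReal (1 / 2 ^ k) * S ^ 2 := by ring
    _ ≤ ENNReal.ofReal (2 * Real.pi) * ENNReal.ofReal (1 / 2 ^ k) *
          (ENNReal.ofReal (1 / 2 ^ k) * ∫⁻ x in A, ‖R x‖ₑ ^ 4) := by gcongr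
    _ = ENNReal.ofReal (2 * Real.pi * (1 / 2 ^ k) ^ 2) * ∫⁻ x in A, ‖R x‖ₑ ^ 4 := by
        rw [ENNReal.ofReal_mul (p := 2 * Real.pi) (by positivity),
          ENNReal.ofReal_pow (by positivity)]
        ring

end Pool.Agent.Shr
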