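import Pool.Agent.Shr.Targets
import Pool.Agent.Shr.STR

set_option autoImplicit false

/-!
# CELL: the sum over the cells of independent centred pieces
-/

namespace Pool.Agent.Shr

open MeasureTheory Set Filter ProbabilityTheory
open Pool.Agent.Restr (u E Et E1 Lam Ik vv PP QQ measurable_u norm_u)
open scoped ENNReal NNReal Topology

namespace CELL_

theorem lint_iUnion {N : ℕ} {A : Fin N → Set ℝ} (hA : ∀ j, MeasurableSet (A j))
    (hd : ∀ i j, i ≠ j → Disjoint (A i) (A j)) (F : ℝ → ℝ≥0∞) :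
    ∑ j, ∫⁻ x in A j, F x = ∫⁻ x in ⋃ j, A j, F x := by
  rw [lintegral_iUnion hA (fun i j hij => hd i j hij) F, tsum_fintype]

theorem meas_pow {R : ℝ → ℝ → ℂ} (hR : Measurable (Function.uncurry R)) (p : ℕ) :
    Measurable (Function.uncurry fun s x => ‖R s x‖ₑ ^ p) :=
  hR.enorm.pow_const p

theorem swapW {N : ℕ} {A : Fin N → Set ℝ} (hA : ∀ j, MeasurableSet (A j))
    (hd : ∀ i j, i ≠ j → Disjoint (A i) (A j)) (m : Measure ℝ) [IsProbabilityMeasure m]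
    {R : ℝ → ℝ → ℂ} (hR : Measurable (Function.uncurry R)) (p : ℕ) :
    ∑ j, ∫⁻ s, (∫⁻ x in A j, ‖R s x‖ₑ ^ p) ∂m =
      ∫⁻ x in ⋃ j, A j, ∫⁻ s, ‖R s x‖ₑ ^ p ∂m := by
  rw [← lint_iUnion hA hd]
  refine Finset.sum_congr rfl fun j _ => ?_
  exact lintegral_lintegral_swap (meas_pow hR p).aemeasurable

theorem measY (A : Set ℝ) {R : ℝ → ℝ → ℂ} (hR : Measurable (Function.uncurry R)) (t : ℝ) :
    Measurable (fun p : ℝ × ℝ => ∫ x in A, u (p.1 * x + t * x ^ 2) * R p.2 x) := by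
  have : StronglyMeasurable
      (fun p : ℝ × ℝ => ∫ x in A, u (p.1 * x + t * x ^ 2) * R p.2 x) := by
    apply StronglyMeasurable.integral_prod_right
      (f := fun (p : ℝ × ℝ) (x : ℝ) => u (p.1 * x + t * x ^ 2) * R p.2 x)
    apply Measurable.stronglyMeasurable
    have h1 : Measurable (fun q : (ℝ × ℝ) × ℝ => R q.1.2 q.2) :=
      hR.comp (measurable_fst.snd.prodMk measurable_snd)
    exact (measurable_u.comp (by fun_prop)).mul h1
  exact this.measurable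

end CELL_

open CELL_ STR_ in
theorem p_CELL (h_ROS : T_ROS) (h_STR : T_STR) : T_CELL := by
  intro k N A hA hd hsm hAS m _ R hR hRb hR0 t
  obtain ⟨M, hM⟩ := hRb
  have hvolSS : volume SS = 1 := by
    unfold SS
    rw [Real.volume_Icc]
    norm_num
  have hvol : ∀ j, volume (A j) < ⊤ := fun j =>
    (measure_mono (hAS j)).trans_lt (by rw [hvolSS]; exact ENNReal.one_lt_top)
  have hRs : ∀ s, Measurable (R s) := fun s => hR.comp measurable_prodMk_left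
  set Y : ℝ → Fin N → ℝ → ℂ := fun ξ j s => ∫ x in A j, u (ξ * x + t * x ^ 2) * R s x with hY
  have hYm : ∀ j, Measurable (fun p : ℝ × ℝ => Y p.1 j p.2) := fun j => measY (A j) hR t
  have hYs : ∀ ξ j, Measurable (Y ξ j) := fun ξ j => (hYm j).comp measurable_prodMk_left
  set W : ℝ≥0∞ := ∫⁻ x in ⋃ j, A j, ∫⁻ s, ‖R s x‖ₑ ^ 2 ∂m with hW
  set V4 : ℝ≥0∞ := ∫⁻ x in ⋃ j, A j, ∫⁻ s, ‖R s x‖ₑ ^ 4 ∂m with hV4
  set e : ℝ≥0∞ := ENNReal.ofReal (1 / 2 ^ k) with he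
  -- Rosenthal at every frequency
  have hros : ∀ ξ : ℝ, ∫⁻ g : Fin N → ℝ, ‖∑ j, Y ξ j (g j)‖ₑ ^ 4 ∂(Measure.pi fun _ => m) ≤
      12 * (∑ j, ∫⁻ s, ‖Y ξ j s‖ₑ ^ 2 ∂m) ^ 2 + 12 * ∑ j, ∫⁻ s, ‖Y ξ j s‖ₑ ^ 4 ∂m := by
    intro ξ
    refine h_ROS N m (Y ξ) (hYs ξ) (fun j => ⟨M * (volume (A j)).toReal, fun s => ?_⟩) fun j => ?_
    · have h1 := norm_setIntegral_le_of_norm_le_const (μ := volume) (hvol j)
        (f := fun x => u (ξ * x + t * x ^ 2) * R s x) (C := M) fun x _ => by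
          rw [norm_mul, norm_u, one_mul]
          exact hM s x
      simpa only [hY, Measure.real] using h1
    · have hint : Integrable (Function.uncurry fun s x => u (ξ * x + t * x ^ 2) * R s x)
          (m.prod (volume.restrict (A j))) := by
        have : IsFiniteMeasure (volume.restrict (A j)) := ⟨by
          rw [Measure.restrict_apply_univ]
          exact hvol j⟩
        have hme : Measurable (Function.uncurry fun s x => u (ξ * x + t * x ^ 2) * R s x) :=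
          (measurable_u.comp (by fun_prop)).mul hR
        refine Integrable.of_bound hme.aestronglyMeasurable M (Eventually.of_forall fun p => ?_)
        simp only [Function.uncurry]
        rw [norm_mul, norm_u, one_mul]
        exact hM _ _
      have h2 : ∫ s, Y ξ j s ∂m = ∫ x in A j, ∫ s, u (ξ * x + t * x ^ 2) * R s x ∂m :=
        integral_integral_swap hint
      rw [h2]
      have h3 : ∀ x, ∫ s, u (ξ * x + t * x ^ 2) * R s x ∂m = 0 := fun x => by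
        rw [integral_const_mul, hR0, mul_zero]
      simp only [h3, integral_zero]
  -- supremum bound
  have hT2a : ∀ ξ : ℝ, ∑ j, ∫⁻ s, ‖Y ξ j s‖ₑ ^ 2 ∂m ≤ e * W := by
    intro ξ
    calc ∑ j, ∫⁻ s, ‖Y ξ j s‖ₑ ^ 2 ∂m
        ≤ ∑ j, ∫⁻ s, e * (∫⁻ x in A j, ‖R s x‖ₑ ^ 2) ∂m := by
          refine Finset.sum_le_sum fun j _ => lintegral_mono fun s => ?_
          exact (h_STR k (A j) (hA j) (hsm j) (R s) (hRs s) ⟨M, hM s⟩ t).1 ξ
      _ = ∑ j, e * ∫⁻ s, (∫⁻ x in A j, ‖R s x‖ₑ ^ 2) ∂m := by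
          refine Finset.sum_congr rfl fun j _ => ?_
          exact lintegral_const_mul' _ _ ENNReal.ofReal_ne_top
      _ = e * W := by rw [← Finset.mul_sum, swapW hA hd m hR 2]
  -- Plancherel
  have hsq : ∀ (p : ℕ) (j : Fin N), Measurable fun q : ℝ × ℝ => ‖Y q.1 j q.2‖ₑ ^ p :=
    fun p j => (hYm j).enorm.pow_const p
  have hgen : ∀ (p : ℕ) (c : ℝ≥0∞), c ≠ ⊤ → (∀ j s, ∫⁻ ξ : ℝ, ‖Y ξ j s‖ₑ ^ p ≤
      c * ∫⁻ x in A j, ‖R s x‖ₑ ^ p) → ∫⁻ ξ : ℝ, ∑ j, ∫⁻ s, ‖Y ξ j s‖ₑ ^ p ∂m ≤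
      c * ∫⁻ x in ⋃ j, A j, ∫⁻ s, ‖R s x‖ₑ ^ p ∂m := by
    intro p c hc hj
    calc ∫⁻ ξ : ℝ, ∑ j, ∫⁻ s, ‖Y ξ j s‖ₑ ^ p ∂m
        = ∑ j, ∫⁻ ξ : ℝ, ∫⁻ s, ‖Y ξ j s‖ₑ ^ p ∂m :=
          lintegral_finsetSum _ fun j _ => (hsq p j).lintegral_prod_right'
      _ = ∑ j, ∫⁻ s, (∫⁻ ξ : ℝ, ‖Y ξ j s‖ₑ ^ p) ∂m := by
          refine Finset.sum_congr rfl fun j _ => ?_
          exact lintegral_lintegral_swap (f := fun ξ s => ‖Y ξ j s‖ₑ ^ p) (hsq p j).aemeasurable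
      _ ≤ ∑ j, ∫⁻ s, c * (∫⁻ x in A j, ‖R s x‖ₑ ^ p) ∂m :=
          Finset.sum_le_sum fun j _ => lintegral_mono fun s => hj j s
      _ = ∑ j, c * ∫⁻ s, (∫⁻ x in A j, ‖R s x‖ₑ ^ p) ∂m := by
          refine Finset.sum_congr rfl fun j _ => ?_
          exact lintegral_const_mul' _ _ hc
      _ = _ := by rw [← Finset.mul_sum, swapW hA hd m hR p]
  have hT2b := hgen 2 (ENNReal.ofReal (2 * Real.pi)) ENNReal.ofReal_ne_top fun j s =>
    (h_STR k (A j) (hA j) (hsm j) (R s) (hRs s) ⟨M, hM s⟩ t).2.1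
  have hT4 := hgen 4 (ENNReal.ofReal (2 * Real.pi * (1 / 2 ^ k) ^ 2)) ENNReal.ofReal_ne_top
    fun j s => (h_STR k (A j) (hA j) (hsm j) (R s) (hRs s) ⟨M, hM s⟩ t).2.2
  rw [← hW] at hT2b
  rw [← hV4] at hT4
  have mG : ∀ p : ℕ, Measurable fun x => ∫⁻ s, ‖R s x‖ₑ ^ p ∂m := fun p =>
    (meas_pow hR p).lintegral_prod_left'
  -- Cauchy-Schwarz
  have hWV : W ^ 2 ≤ V4 := by
    rw [hW]
    refine (cs (mG 2).aemeasurable).trans ?_
    have hU : (volume.restrict (⋃ j, A j)) univ ≤ 1 := by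
      rw [Measure.restrict_apply_univ, ← hvolSS]
      exact measure_mono (iUnion_subset hAS)
    refine (mul_le_mul_left hU _).trans ?_
    rw [one_mul, hV4]
    refine lintegral_mono fun x => ?_
    have h5 := cs (m := m) (F := fun s => ‖R s x‖ₑ ^ 2)
      ((hR.comp (measurable_id.prodMk measurable_const)).enorm.pow_const 2).aemeasurable
    rw [measure_univ, one_mul] at h5
    refine h5.trans (le_of_eq ?_)
    refine lintegral_congr fun s => ?_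
    rw [← pow_mul]
  have mT2 : Measurable fun ξ : ℝ => ∑ j, ∫⁻ s, ‖Y ξ j s‖ₑ ^ 2 ∂m :=
    Finset.measurable_sum _ fun j _ => (hsq 2 j).lintegral_prod_right'
  have mT4 : Measurable fun ξ : ℝ => ∑ j, ∫⁻ s, ‖Y ξ j s‖ₑ ^ 4 ∂m :=
    Finset.measurable_sum _ fun j _ => (hsq 4 j).lintegral_prod_right'
  have hek : ENNReal.ofReal (2 * Real.pi * (1 / 2 ^ k) ^ 2) ≤
      e * ENNReal.ofReal (2 * Real.pi) := by
    rw [he, ← ENNReal.ofReal_mul (by positivity)]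
    apply ENNReal.ofReal_le_ofReal
    have h6 : (1 : ℝ) / 2 ^ k ≤ 1 := by
      rw [div_le_one (by positivity)]
      exact one_le_pow₀ (by norm_num)
    have h7 : (0 : ℝ) ≤ 1 / 2 ^ k := by positivity
    have h8 : ((1 : ℝ) / 2 ^ k) ^ 2 ≤ 1 / 2 ^ k := by nlinarith
    nlinarith [Real.pi_pos]
  calc ∫⁻ ξ : ℝ, ∫⁻ g : Fin N → ℝ, ‖∑ j, Y ξ j (g j)‖ₑ ^ 4 ∂(Measure.pi fun _ => m)
      ≤ ∫⁻ ξ : ℝ, (12 * ((e * W) * ∑ j, ∫⁻ s, ‖Y ξ j s‖ₑ ^ 2 ∂m) +
          12 * ∑ j, ∫⁻ s, ‖Y ξ j s‖ₑ ^ 4 ∂m) := by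
        refine lintegral_mono fun ξ => (hros ξ).trans ?_
        refine add_le_add (mul_le_mul' le_rfl ?_) le_rfl
        rw [sq]
        exact mul_le_mul' (hT2a ξ) le_rfl
    _ = 12 * ((e * W) * ∫⁻ ξ : ℝ, ∑ j, ∫⁻ s, ‖Y ξ j s‖ₑ ^ 2 ∂m) +
          12 * ∫⁻ ξ : ℝ, ∑ j, ∫⁻ s, ‖Y ξ j s‖ₑ ^ 4 ∂m := by
        rw [lintegral_add_left ((mT2.const_mul _).const_mul _),
          lintegral_const_mul _ (mT2.const_mul _), lintegral_const_mul _ mT2,
          lintegral_const_mul _ mT4]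
    _ ≤ 12 * ((e * W) * (ENNReal.ofReal (2 * Real.pi) * W)) +
          12 * ((e * ENNReal.ofReal (2 * Real.pi)) * V4) := by
        gcongr
        exact hT4.trans (mul_le_mul' hek le_rfl)
    _ = 12 * ((e * ENNReal.ofReal (2 * Real.pi)) * W ^ 2) +
          12 * ((e * ENNReal.ofReal (2 * Real.pi)) * V4) := by ring
    _ ≤ 12 * ((e * ENNReal.ofReal (2 * Real.pi)) * V4) +
          12 * ((e * ENNReal.ofReal (2 * Real.pi)) * V4) := by gcongr
    _ = 24 * (e * ENNReal.ofReal (2 * Real.pi)) * V4 := by ring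
    _ = ENNReal.ofReal (48 * Real.pi / 2 ^ k) * V4 := by
        congr 1
        have h9 : (24 : ℝ≥0∞) = ENNReal.ofReal 24 := by norm_num
        rw [he, h9, ← ENNReal.ofReal_mul (by positivity), ← ENNReal.ofReal_mul (by norm_num)]
        congr 1
        ring

end Pool.Agent.Shr
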