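import Pool.Agent.Shr.Targets

/-!
# CNV
-/

namespace Pool.Agent.Shr

open MeasureTheory Set Filter ProbabilityTheory
open Pool.Agent.Restr (u E Et E1 Lam Ik vv PP QQ)
open scoped ENNReal NNReal Topology

namespace CNV_

theorem tent_nonneg (k : ℕ) (c x : ℝ) : 0 ≤ tent k c x := le_max_left _ _

theorem tent_le_one (k : ℕ) (c x : ℝ) : tent k c x ≤ 1 := by
  unfold tent
  apply max_le zero_le_one
  have : 0 ≤ (2 : ℝ) ^ k * |x - c| := by positivity
  linarith

/-- At most two tents are non-zero at a point. -/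
theorem tent_sum (k : ℕ) (y : ℝ) (hy : 0 ≤ y) :
    ∑ j ∈ Finset.range (2 ^ k + 1), tent k (j / 2 ^ k) y ≤ 2 := by
  set z : ℝ := 2 ^ k * y with hz
  have hz0 : 0 ≤ z := by positivity
  have h1 : ∀ j : ℕ, j ≠ ⌊z⌋₊ → j ≠ ⌊z⌋₊ + 1 → tent k (j / 2 ^ k) y = 0 := by
    intro j h2 h3
    unfold tent
    apply max_eq_left
    have h4 : (2 : ℝ) ^ k * |y - j / 2 ^ k| = |z - j| := by
      rw [show z - j = 2 ^ k * (y - j / 2 ^ k) by
        rw [hz]; field_simp, abs_mul, abs_of_pos (by positivity : (0 : ℝ) < 2 ^ k)]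
    rw [h4]
    have h5 : (⌊z⌋₊ : ℝ) ≤ z := Nat.floor_le hz0
    have h6 : z < ⌊z⌋₊ + 1 := Nat.lt_floor_add_one z
    rcases lt_or_gt_of_ne h2 with h | h
    · have h7 : (j : ℝ) + 1 ≤ ⌊z⌋₊ := by exact_mod_cast h
      have : 1 ≤ |z - j| := le_trans (by linarith) (le_abs_self _)
      linarith
    · have h8 : ⌊z⌋₊ + 2 ≤ j := by omega
      have h7 : (⌊z⌋₊ : ℝ) + 2 ≤ j := by exact_mod_cast h8
      have : 1 ≤ |z - j| := le_trans (by linarith) (neg_le_abs _)
      linarith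
  calc ∑ j ∈ Finset.range (2 ^ k + 1), tent k (j / 2 ^ k) y
      ≤ ∑ j ∈ Finset.range (2 ^ k + 1) ∪ {⌊z⌋₊, ⌊z⌋₊ + 1}, tent k (j / 2 ^ k) y := by
        apply Finset.sum_le_sum_of_subset_of_nonneg Finset.subset_union_left
        intro j _ _
        exact tent_nonneg _ _ _
    _ = ∑ j ∈ ({⌊z⌋₊, ⌊z⌋₊ + 1} : Finset ℕ), tent k (j / 2 ^ k) y := by
        symm
        apply Finset.sum_subset Finset.subset_union_right
        intro j _ hj
        simp only [Finset.mem_insert, Finset.mem_singleton, not_or] at hj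
        exact h1 j hj.1 hj.2
    _ ≤ ∑ j ∈ ({⌊z⌋₊, ⌊z⌋₊ + 1} : Finset ℕ), (1 : ℝ) :=
        Finset.sum_le_sum fun j _ => tent_le_one _ _ _
    _ ≤ 2 := by
        rw [Finset.sum_const, nsmul_eq_mul, mul_one]
        exact_mod_cast Finset.card_le_two

theorem tri_nonneg (x : ℝ) : 0 ≤ tri x := abs_nonneg _

/-- The weights. -/
noncomputable def lam (k : ℕ) : ℝ := (7 / 8) ^ k

theorem lam_pos (k : ℕ) : 0 < lam k := by unfold lam; positivity

theorem abs_le (l w : ℝ) (hl : 0 < l) : |w| ≤ l + w ^ 4 / l ^ 3 := by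
  rcases le_or_gt |w| l with h | h
  · have : 0 ≤ w ^ 4 / l ^ 3 := by positivity
    linarith
  · have h1 : |w| ≤ w ^ 4 / l ^ 3 := by
      rw [le_div_iff₀ (by positivity)]
      have h2 : w ^ 4 = |w| * |w| ^ 3 := by
        rw [← pow_succ']
        norm_num
        exact (Even.pow_abs (by decide) w).symm
      rw [h2]
      gcongr
    linarith

/-- The sum of the fourth powers at scale `k`. -/
noncomputable def S4 (ω : ℕ × ℕ → ℝ) (k : ℕ) : ℝ := ∑ j ∈ Finset.range (2 ^ k + 1), ω (k, j) ^ 4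

theorem S4_nonneg (ω : ℕ × ℕ → ℝ) (k : ℕ) : 0 ≤ S4 ω k :=
  Finset.sum_nonneg fun j _ => by positivity

theorem term_le (ω : ℕ × ℕ → ℝ) (k : ℕ) (x : ℝ) :
    |term ω k x| ≤ 2 * (lam k + S4 ω k / lam k ^ 3) := by
  have hl := lam_pos k
  set C := lam k + S4 ω k / lam k ^ 3 with hC
  have hC0 : 0 ≤ C := by
    have := S4_nonneg ω k
    positivity
  have h1 : ∀ j ∈ Finset.range (2 ^ k + 1), |ω (k, j)| ≤ C := by
    intro j hj
    refine (abs_le (lam k) _ hl).trans ?_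
    rw [hC]
    gcongr
    exact Finset.single_le_sum (f := fun j => ω (k, j) ^ 4) (fun j _ => by positivity) hj
  unfold term
  calc |∑ j ∈ Finset.range (2 ^ k + 1), ω (k, j) * tent k (j / 2 ^ k) (tri x)|
      ≤ ∑ j ∈ Finset.range (2 ^ k + 1), |ω (k, j) * tent k (j / 2 ^ k) (tri x)| :=
        Finset.abs_sum_le_sum_abs _ _
    _ ≤ ∑ j ∈ Finset.range (2 ^ k + 1), C * tent k (j / 2 ^ k) (tri x) := by
        apply Finset.sum_le_sum
        intro j hj
        rw [abs_mul, abs_of_nonneg (tent_nonneg _ _ _)]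
        exact mul_le_mul_of_nonneg_right (h1 j hj) (tent_nonneg _ _ _)
    _ = C * ∑ j ∈ Finset.range (2 ^ k + 1), tent k (j / 2 ^ k) (tri x) := by
        rw [Finset.mul_sum]
    _ ≤ C * 2 := mul_le_mul_of_nonneg_left (tent_sum k _ (tri_nonneg x)) hC0
    _ = 2 * C := by ring

/-- The fourth moment of the standard Gaussian. -/
noncomputable def K4 : ℝ≥0∞ := ∫⁻ x, ENNReal.ofReal (x ^ 4) ∂(gaussianReal 0 1)

theorem K4_lt : K4 < ⊤ := by
  have h := memLp_id_gaussianReal (μ := 0) (v := 1) 4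
  have h1 := h.eLpNorm_lt_top
  have h2 := eLpNorm_nnreal_pow_eq_lintegral (f := (id : ℝ → ℝ)) (μ := gaussianReal 0 1)
    (p := (4 : ℝ≥0)) (by norm_num)
  have h3 : ((4 : ℝ≥0) : ℝ) = 4 := by norm_num
  rw [h3] at h2
  have h4 : K4 = ∫⁻ x, ‖(id x : ℝ)‖ₑ ^ (4 : ℝ) ∂(gaussianReal 0 1) := by
    unfold K4
    apply lintegral_congr
    intro x
    rw [id, ← ofReal_norm, ENNReal.ofReal_rpow_of_nonneg (norm_nonneg _) (by norm_num)]
    congr 1
    rw [Real.norm_eq_abs]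
    norm_num
    exact (Even.pow_abs (by decide) x).symm
  rw [h4, ← h2]
  exact ENNReal.rpow_lt_top_of_nonneg (by norm_num) h1.ne

theorem moment (k : ℕ) : ∫⁻ x, ENNReal.ofReal (x ^ 4) ∂(gk k) =
    ENNReal.ofReal ((1 / 4) ^ (k + 1)) * K4 := by
  set c : ℝ := √((1 / 2) ^ (k + 1)) with hc
  have hc2 : c ^ 2 = (1 / 2) ^ (k + 1) := Real.sq_sqrt (by positivity)
  have h1 : gk k = (gaussianReal 0 1).map (c * ·) := by
    rw [gaussianReal_map_const_mul, mul_zero, mul_one]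
    unfold gk vv
    congr 1
    apply NNReal.eq
    simp only [NNReal.coe_pow, NNReal.coe_div, NNReal.coe_one, NNReal.coe_ofNat, add_zero]
    exact hc2.symm
  rw [h1, lintegral_map (by fun_prop) (by fun_prop), K4,
    ← lintegral_const_mul _ (by fun_prop)]
  apply lintegral_congr
  intro x
  rw [← ENNReal.ofReal_mul (by positivity)]
  congr 1
  rw [mul_pow, show c ^ 4 = (c ^ 2) ^ 2 by ring, hc2, ← pow_mul, mul_comm (k + 1) 2, pow_mul]
  norm_num

theorem moment_S (k : ℕ) : ∫⁻ ω, ENNReal.ofReal (S4 ω k / lam k ^ 3) ∂GP ≤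
    ENNReal.ofReal ((256 / 343) ^ k) * K4 := by
  have hl := lam_pos k
  have h1 : ∀ ω : ℕ × ℕ → ℝ, ENNReal.ofReal (S4 ω k / lam k ^ 3) =
      ENNReal.ofReal (1 / lam k ^ 3) *
        ∑ j ∈ Finset.range (2 ^ k + 1), ENNReal.ofReal (ω (k, j) ^ 4) := by
    intro ω
    rw [← ENNReal.ofReal_sum_of_nonneg (fun j _ => by positivity),
      ← ENNReal.ofReal_mul (by positivity)]
    congr 1
    unfold S4
    ring
  have hm : ∀ j : ℕ, Measurable fun ω : ℕ × ℕ → ℝ => ENNReal.ofReal (ω (k, j) ^ 4) := by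
    intro j
    exact ((measurable_pi_apply (k, j)).pow_const 4).ennreal_ofReal
  have h2 : ∀ j : ℕ, ∫⁻ ω, ENNReal.ofReal (ω (k, j) ^ 4) ∂GP =
      ENNReal.ofReal ((1 / 4) ^ (k + 1)) * K4 := by
    intro j
    have hp : MeasurePreserving (Function.eval (k, j)) GP (gk k) :=
      measurePreserving_eval_infinitePi (fun i : ℕ × ℕ => gk i.1) (k, j)
    rw [← moment k, ← hp.lintegral_comp (by fun_prop)]
  simp only [h1]
  rw [lintegral_const_mul _ (Finset.measurable_fun_sum _ fun j _ => hm j),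
    lintegral_finset_sum _ fun j _ => hm j]
  simp only [h2, Finset.sum_const, Finset.card_range, nsmul_eq_mul]
  rw [← mul_assoc, ← mul_assoc]
  gcongr
  have h3 : (((2 ^ k + 1 : ℕ) : ℕ) : ℝ≥0∞) = ENNReal.ofReal ((2 : ℝ) ^ k + 1) := by
    rw [← ENNReal.ofReal_natCast]
    push_cast
    rfl
  rw [h3, ← ENNReal.ofReal_mul (by positivity), ← ENNReal.ofReal_mul (by positivity)]
  apply ENNReal.ofReal_le_ofReal
  have h4 : lam k ^ 3 = (343 / 512) ^ k := by
    unfold lam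
    rw [← pow_mul, mul_comm k 3, pow_mul]
    norm_num
  rw [h4]
  have h5 : (1 : ℝ) / (343 / 512) ^ k = (512 / 343) ^ k := by
    rw [one_div, ← inv_pow]
    norm_num
  rw [h5]
  have h6 : (1 : ℝ) ≤ 2 ^ k := one_le_pow₀ (by norm_num)
  calc (512 / 343 : ℝ) ^ k * (2 ^ k + 1) * (1 / 4) ^ (k + 1)
      ≤ (512 / 343 : ℝ) ^ k * (2 ^ k + 2 ^ k) * (1 / 4) ^ (k + 1) := by gcongr
    _ = (1 / 2) * ((512 / 343) ^ k * 2 ^ k * (1 / 4) ^ k) := by rw [pow_succ]; ring
    _ = (1 / 2) * (256 / 343) ^ k := by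
        rw [← mul_pow, ← mul_pow]
        norm_num
    _ ≤ (256 / 343) ^ k := by
        have : (0 : ℝ) ≤ (256 / 343) ^ k := by positivity
        linarith

end CNV_

open CNV_ in
/-- CNV. -/
theorem p_CNV : T_CNV := by
  unfold T_CNV
  have hm : ∀ k : ℕ, Measurable fun ω : ℕ × ℕ → ℝ => ENNReal.ofReal (S4 ω k / lam k ^ 3) := by
    intro k
    unfold S4
    exact ((Finset.measurable_fun_sum _ fun j _ =>
      (measurable_pi_apply (k, j)).pow_const 4).div_const _).ennreal_ofReal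
  have h1 : ∫⁻ ω, ∑' k, ENNReal.ofReal (S4 ω k / lam k ^ 3) ∂GP < ⊤ := by
    rw [lintegral_tsum fun k => (hm k).aemeasurable]
    calc ∑' k, ∫⁻ ω, ENNReal.ofReal (S4 ω k / lam k ^ 3) ∂GP
        ≤ ∑' k : ℕ, ENNReal.ofReal ((256 / 343) ^ k) * K4 :=
          ENNReal.tsum_le_tsum fun k => moment_S k
      _ = (∑' k : ℕ, ENNReal.ofReal ((256 / 343) ^ k)) * K4 := ENNReal.tsum_mul_right
      _ < ⊤ := by
          apply ENNReal.mul_lt_top _ K4_lt
          rw [← ENNReal.ofReal_tsum_of_nonneg (fun k => by positivity)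
            (summable_geometric_of_lt_one (by norm_num) (by norm_num))]
          exact ENNReal.ofReal_lt_top
  have h2 := ae_lt_top (Measurable.ennreal_tsum hm) h1.ne
  filter_upwards [h2] with ω hω
  have h3 : Summable fun k => S4 ω k / lam k ^ 3 := by
    have h4 := ENNReal.summable_toReal hω.ne
    refine h4.congr fun k => ?_
    rw [ENNReal.toReal_ofReal]
    have := S4_nonneg ω k
    have := lam_pos k
    positivity
  refine ⟨fun k => 2 * (lam k + S4 ω k / lam k ^ 3), ?_, fun k x => term_le ω k x⟩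
  exact (((summable_geometric_of_lt_one (by norm_num) (by norm_num)).add h3).mul_left 2 :
    Summable fun k => 2 * ((7 / 8 : ℝ) ^ k + S4 ω k / lam k ^ 3))

end Pool.Agent.Shr
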