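import Pool.Agent.Shr.Targets

set_option autoImplicit false

/-! CORE: the block estimate for the shear `ψ + rnd A lam g`. -/

namespace Pool.Agent.Shr.CORE_

open MeasureTheory Set Filter ProbabilityTheory
open Pool.Agent.Restr (u E Et E1 Lam Ik vv PP QQ norm_u u_add measurable_u)
open Pool.Agent.Shr
open scoped ENNReal NNReal Topology

/-- the shear preserves integrals -/
lemma shear_inv {F : ℝ × ℝ → ℝ≥0∞} (hF : Measurable F) {b : ℝ → ℝ} (hb : Measurable b) :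
    ∫⁻ x : ℝ × ℝ, F (x.1, x.2 + b x.1) = ∫⁻ x, F x := by
  have hm : Measurable (fun x : ℝ × ℝ => F (x.1, x.2 + b x.1)) :=
    hF.comp (measurable_fst.prodMk (measurable_snd.add (hb.comp measurable_fst)))
  rw [Measure.volume_eq_prod, lintegral_prod _ hm.aemeasurable, lintegral_prod _ hF.aemeasurable]
  refine lintegral_congr fun a => ?_
  exact lintegral_add_right_eq_self (fun y => F (a, y)) (b a)

lemma Et_fub {F : ℝ × ℝ → ℂ} (hF : Integrable F) {U : Set ℝ} (hU : MeasurableSet U)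
    (h0 : ∀ x : ℝ × ℝ, x.1 ∉ U → F x = 0) (t b a : ℝ) :
    Et F (t, b, a) = ∫ x in U, u (a * x + t * x ^ 2) * E1 (fun y => F (x, y)) (b, t) := by
  unfold Et E
  simp only
  have hm : Measurable (fun x : ℝ × ℝ => u (a * x.1 + (b * x.2 + t * (x.1 ^ 2 + x.2 ^ 2)))) :=
    measurable_u.comp (by fun_prop)
  have hi : Integrable (fun x : ℝ × ℝ =>
      u (a * x.1 + (b * x.2 + t * (x.1 ^ 2 + x.2 ^ 2))) * F x) :=
    hF.bdd_mul (c := 1) hm.aestronglyMeasurable (ae_of_all _ fun x => (norm_u _).le)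
  rw [Measure.volume_eq_prod] at hi ⊢
  rw [integral_prod _ hi, ← integral_indicator hU]
  congr 1
  funext x
  by_cases hx : x ∈ U
  · rw [indicator_of_mem hx]
    unfold E1
    rw [← integral_const_mul]
    congr 1
    funext y
    simp only
    rw [show a * x + (b * y + t * (x ^ 2 + y ^ 2)) = (a * x + t * x ^ 2) + (b * y + t * y ^ 2) by
      ring, u_add, mul_assoc]
  · rw [indicator_of_notMem hx]
    have : ∀ y : ℝ, F (x, y) = 0 := fun y => h0 (x, y) hx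
    simp [this]

/-- the planar extension of the shifted slices -/
noncomputable def Rb (f : ℝ × ℝ → ℂ) (ψ lam : ℝ → ℝ) (b t s x : ℝ) : ℂ :=
  E1 (fun y => f (x, y + (ψ x + lam x * s))) (b, t)

noncomputable def mR (k : ℕ) (f : ℝ × ℝ → ℂ) (ψ lam : ℝ → ℝ) (b t x : ℝ) : ℂ :=
  ∫ s, Rb f ψ lam b t s x ∂(gk k)

lemma meas_Rb {f : ℝ × ℝ → ℂ} (hf : Measurable f) {ψ lam : ℝ → ℝ} (hψ : Measurable ψ)
    (hl : Measurable lam) :
    Measurable (fun q : (ℝ × ℝ × ℝ) × ℝ => Rb f ψ lam q.1.1 q.1.2.1 q.2 q.1.2.2) := by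
  have : StronglyMeasurable (fun q : (ℝ × ℝ × ℝ) × ℝ =>
      ∫ y : ℝ, u (q.1.1 * y + q.1.2.1 * y ^ 2) *
        f (q.1.2.2, y + (ψ q.1.2.2 + lam q.1.2.2 * q.2))) := by
    apply StronglyMeasurable.integral_prod_right
      (f := fun (q : (ℝ × ℝ × ℝ) × ℝ) (y : ℝ) => u (q.1.1 * y + q.1.2.1 * y ^ 2) *
        f (q.1.2.2, y + (ψ q.1.2.2 + lam q.1.2.2 * q.2)))
    apply Measurable.stronglyMeasurable
    refine (measurable_u.comp (by fun_prop)).mul (hf.comp ?_)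
    exact Measurable.prodMk (by fun_prop) (by fun_prop)
  exact this.measurable

lemma meas_mR (k : ℕ) {f : ℝ × ℝ → ℂ} (hf : Measurable f) {ψ lam : ℝ → ℝ} (hψ : Measurable ψ)
    (hl : Measurable lam) :
    Measurable (fun q : ℝ × ℝ × ℝ => mR k f ψ lam q.1 q.2.1 q.2.2) := by
  have : StronglyMeasurable (fun q : ℝ × ℝ × ℝ => ∫ s, Rb f ψ lam q.1 q.2.1 s q.2.2 ∂(gk k)) := by
    apply StronglyMeasurable.integral_prod_right
      (f := fun (q : ℝ × ℝ × ℝ) (s : ℝ) => Rb f ψ lam q.1 q.2.1 s q.2.2)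
    exact (meas_Rb hf hψ hl).stronglyMeasurable
  exact this.measurable

lemma int_slice {f : ℝ × ℝ → ℂ} (hf : BQ f) (x c : ℝ) : Integrable (fun y => f (x, y + c)) := by
  obtain ⟨M, hM⟩ := hf.bdd
  have h1 : IntegrableOn (fun y => f (x, y)) (Icc (-(1 / 2) : ℝ) (1 / 2)) := by
    refine Measure.integrableOn_of_bounded (M := M) (by simp) ?_ (ae_of_all _ fun y => hM _)
    exact (hf.meas.comp measurable_prodMk_left).aestronglyMeasurable
  have h2 : Integrable (fun y => f (x, y)) := by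
    rw [← integrableOn_iff_integrable_of_support_subset (s := Icc (-(1 / 2) : ℝ) (1 / 2))]
    · exact h1
    · intro y hy
      by_contra hy'
      exact hy (hf.supp _ (fun hq => hy' hq.2))
  exact h2.comp_add_right c

lemma lint_slice {f : ℝ × ℝ → ℂ} (hf : BQ f) {M : ℝ} (hM : ∀ x, ‖f x‖ ≤ M) (x c : ℝ) :
    ∫⁻ y, ‖f (x, y + c)‖ₑ ≤ ENNReal.ofReal M := by
  rw [lintegral_add_right_eq_self (fun y => ‖f (x, y)‖ₑ) c]
  have h1 : ∀ y, ‖f (x, y)‖ₑ ≤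
      (Icc (-(1 / 2) : ℝ) (1 / 2)).indicator (fun _ => ENNReal.ofReal M) y := by
    intro y
    by_cases hy : y ∈ Icc (-(1 / 2) : ℝ) (1 / 2)
    · rw [indicator_of_mem hy, ← ofReal_norm]
      exact ENNReal.ofReal_le_ofReal (hM _)
    · rw [hf.supp _ (fun hq => hy hq.2)]
      simp
  calc ∫⁻ y, ‖f (x, y)‖ₑ
      ≤ ∫⁻ y, (Icc (-(1 / 2) : ℝ) (1 / 2)).indicator (fun _ => ENNReal.ofReal M) y :=
        lintegral_mono h1
    _ = ENNReal.ofReal M := by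
        rw [lintegral_indicator measurableSet_Icc, setLIntegral_const, Real.volume_Icc]
        norm_num

lemma bdd_Rb {f : ℝ × ℝ → ℂ} (hf : BQ f) {M : ℝ} (hM : ∀ x, ‖f x‖ ≤ M) (ψ lam : ℝ → ℝ)
    (b t s x : ℝ) : ‖Rb f ψ lam b t s x‖ ≤ M := by
  have hM0 : 0 ≤ M := le_trans (norm_nonneg _) (hM 0)
  have h1 : ‖Rb f ψ lam b t s x‖ₑ ≤ ENNReal.ofReal M := by
    unfold Rb E1
    calc ‖∫ y : ℝ, u ((b, t).1 * y + (b, t).2 * y ^ 2) * f (x, y + (ψ x + lam x * s))‖ₑ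
        ≤ ∫⁻ y : ℝ, ‖u ((b, t).1 * y + (b, t).2 * y ^ 2) * f (x, y + (ψ x + lam x * s))‖ₑ :=
          enorm_integral_le_lintegral_enorm _
      _ = ∫⁻ y : ℝ, ‖f (x, y + (ψ x + lam x * s))‖ₑ := by
          refine lintegral_congr fun y => ?_
          rw [enorm_mul, Restr.enorm_u, one_mul]
      _ ≤ ENNReal.ofReal M := lint_slice hf hM x _
  rw [← ofReal_norm] at h1
  exact (ENNReal.ofReal_le_ofReal_iff hM0).1 h1

lemma int_Rb (k : ℕ) {f : ℝ × ℝ → ℂ} (hf : BQ f) {ψ lam : ℝ → ℝ} (hψ : Measurable ψ)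
    (hl : Measurable lam) (b t x : ℝ) :
    Integrable (fun s => Rb f ψ lam b t s x) (gk k) := by
  obtain ⟨M, hM⟩ := hf.bdd
  refine Integrable.of_bound (C := M) ?_ (ae_of_all _ fun s => bdd_Rb hf hM ψ lam b t s x)
  have := (meas_Rb hf.meas hψ hl).comp
    (measurable_prodMk_left : Measurable fun s : ℝ => (((b, t, x) : ℝ × ℝ × ℝ), s))
  exact this.aestronglyMeasurable

lemma bdd_mR (k : ℕ) {f : ℝ × ℝ → ℂ} (hf : BQ f) {M : ℝ} (hM : ∀ x, ‖f x‖ ≤ M) (ψ lam : ℝ → ℝ)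
    (b t x : ℝ) : ‖mR k f ψ lam b t x‖ ≤ M := by
  unfold mR
  have := norm_integral_le_of_norm_le_const (μ := gk k) (C := M)
    (f := fun s => Rb f ψ lam b t s x) (ae_of_all _ fun s => bdd_Rb hf hM ψ lam b t s x)
  simpa using this

/-- the mean of the sheared function -/
noncomputable def hb (k : ℕ) (f : ℝ × ℝ → ℂ) (ψ lam : ℝ → ℝ) (x : ℝ × ℝ) : ℂ :=
  ∫ s, shr ψ f (x.1, x.2 + lam x.1 * s) ∂(gk k)

lemma hb_eq (k : ℕ) (f : ℝ × ℝ → ℂ) (ψ lam : ℝ → ℝ) (x : ℝ × ℝ) :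
    hb k f ψ lam x = ∫ s, f (x.1, x.2 + (ψ x.1 + lam x.1 * s)) ∂(gk k) := by
  unfold hb shr
  congr 1
  funext s
  simp only
  congr 2
  ring

lemma E1_hb (k : ℕ) {f : ℝ × ℝ → ℂ} (hf : BQ f) {ψ lam : ℝ → ℝ} (b t x : ℝ) :
    E1 (fun y => hb k f ψ lam (x, y)) (b, t) = mR k f ψ lam b t x := by
  obtain ⟨M, hM⟩ := hf.bdd
  unfold mR Rb E1
  simp only [hb_eq]
  have hm : Measurable (fun p : ℝ × ℝ => u (b * p.1 + t * p.1 ^ 2) *
      f (x, p.1 + (ψ x + lam x * p.2))) :=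
    (measurable_u.comp (by fun_prop)).mul (hf.meas.comp (by fun_prop))
  have hi : Integrable (Function.uncurry fun y s : ℝ => u (b * y + t * y ^ 2) *
      f (x, y + (ψ x + lam x * s))) (volume.prod (gk k)) := by
    refine ⟨hm.aestronglyMeasurable, ?_⟩
    unfold HasFiniteIntegral
    calc ∫⁻ p : ℝ × ℝ, ‖u (b * p.1 + t * p.1 ^ 2) *
          f (x, p.1 + (ψ x + lam x * p.2))‖ₑ ∂(volume.prod (gk k))
        = ∫⁻ s, (∫⁻ y : ℝ, ‖u (b * y + t * y ^ 2) * f (x, y + (ψ x + lam x * s))‖ₑ) ∂(gk k) :=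
          lintegral_prod_symm _ hm.enorm.aemeasurable
      _ ≤ ∫⁻ _, ENNReal.ofReal M ∂(gk k) := by
          refine lintegral_mono fun s => ?_
          simp only [enorm_mul, Restr.enorm_u, one_mul]
          exact lint_slice hf hM x _
      _ < ⊤ := by
          rw [lintegral_const, measure_univ, mul_one]
          exact ENNReal.ofReal_lt_top
  rw [← integral_integral_swap hi]
  congr 1
  funext y
  rw [← integral_const_mul]

lemma hb_supp (k : ℕ) {f : ℝ × ℝ → ℂ} {ψ lam : ℝ → ℝ} {U : Set ℝ}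
    (h0 : ∀ x : ℝ × ℝ, x.1 ∉ U → f x = 0) (x : ℝ × ℝ) (hx : x.1 ∉ U) :
    hb k f ψ lam x = 0 := by
  rw [hb_eq]
  have : ∀ s : ℝ, f (x.1, x.2 + (ψ x.1 + lam x.1 * s)) = 0 := fun s => h0 _ hx
  simp [this]

lemma hb_int (k : ℕ) {f : ℝ × ℝ → ℂ} (hf : BQ f) {ψ lam : ℝ → ℝ} (hψ : Measurable ψ)
    (hl : Measurable lam) : Integrable (hb k f ψ lam) := by
  have hfi : ∫⁻ x, ‖f x‖ₑ < ⊤ := by
    obtain ⟨M, hM⟩ := hf.bdd
    have h1 : ∀ x, ‖f x‖ₑ ≤ QQ.indicator (fun _ => ENNReal.ofReal M) x := by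
      intro x
      by_cases hx : x ∈ QQ
      · rw [indicator_of_mem hx, ← ofReal_norm]
        exact ENNReal.ofReal_le_ofReal (hM _)
      · rw [hf.supp _ hx]
        simp
    have hQ : MeasurableSet QQ := measurableSet_Icc.prod measurableSet_Icc
    calc ∫⁻ x, ‖f x‖ₑ ≤ ∫⁻ x, QQ.indicator (fun _ => ENNReal.ofReal M) x := lintegral_mono h1
      _ = ENNReal.ofReal M * volume QQ := by
          rw [lintegral_indicator hQ, setLIntegral_const]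
      _ < ⊤ := by
          rw [Restr.vol_QQ, mul_one]
          exact ENNReal.ofReal_lt_top
  have hm : Measurable (fun p : (ℝ × ℝ) × ℝ => f (p.1.1, p.1.2 + (ψ p.1.1 + lam p.1.1 * p.2))) :=
    hf.meas.comp (by fun_prop)
  have e : hb k f ψ lam = fun x => ∫ s, f (x.1, x.2 + (ψ x.1 + lam x.1 * s)) ∂(gk k) :=
    funext (hb_eq k f ψ lam)
  rw [e]
  refine ⟨?_, ?_⟩
  · exact (StronglyMeasurable.integral_prod_right
      (f := fun (x : ℝ × ℝ) (s : ℝ) => f (x.1, x.2 + (ψ x.1 + lam x.1 * s)))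
      hm.stronglyMeasurable).aestronglyMeasurable
  · unfold HasFiniteIntegral
    calc ∫⁻ x : ℝ × ℝ, ‖∫ s, f (x.1, x.2 + (ψ x.1 + lam x.1 * s)) ∂(gk k)‖ₑ
        ≤ ∫⁻ x : ℝ × ℝ, ∫⁻ s, ‖f (x.1, x.2 + (ψ x.1 + lam x.1 * s))‖ₑ ∂(gk k) :=
          lintegral_mono fun x => enorm_integral_le_lintegral_enorm _
      _ = ∫⁻ s, (∫⁻ x : ℝ × ℝ, ‖f (x.1, x.2 + (ψ x.1 + lam x.1 * s))‖ₑ) ∂(gk k) :=
          lintegral_lintegral_swap hm.enorm.aemeasurable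
      _ = ∫⁻ _, (∫⁻ x, ‖f x‖ₑ) ∂(gk k) := by
          refine lintegral_congr fun s => ?_
          exact shear_inv hf.meas.enorm (b := fun a => ψ a + lam a * s) (by fun_prop)
      _ < ⊤ := by
          rw [lintegral_const, measure_univ, mul_one]
          exact hfi

lemma f_int {f : ℝ × ℝ → ℂ} (hf : BQ f) : Integrable f := by
  refine ⟨hf.meas.aestronglyMeasurable, ?_⟩
  obtain ⟨M, hM⟩ := hf.bdd
  have h1 : ∀ x, ‖f x‖ₑ ≤ QQ.indicator (fun _ => ENNReal.ofReal M) x := by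
    intro x
    by_cases hx : x ∈ QQ
    · rw [indicator_of_mem hx, ← ofReal_norm]
      exact ENNReal.ofReal_le_ofReal (hM _)
    · rw [hf.supp _ hx]
      simp
  have hQ : MeasurableSet QQ := measurableSet_Icc.prod measurableSet_Icc
  unfold HasFiniteIntegral
  calc ∫⁻ x, ‖f x‖ₑ ≤ ∫⁻ x, QQ.indicator (fun _ => ENNReal.ofReal M) x := lintegral_mono h1
    _ = ENNReal.ofReal M * volume QQ := by
        rw [lintegral_indicator hQ, setLIntegral_const]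
    _ < ⊤ := by
        rw [Restr.vol_QQ, mul_one]
        exact ENNReal.ofReal_lt_top

lemma shr_int {f : ℝ × ℝ → ℂ} (hf : BQ f) {b : ℝ → ℝ} (hb : Measurable b) :
    Integrable (shr b f) := by
  have hm : Measurable (shr b f) :=
    hf.meas.comp (measurable_fst.prodMk (measurable_snd.add (hb.comp measurable_fst)))
  refine ⟨hm.aestronglyMeasurable, ?_⟩
  unfold HasFiniteIntegral shr
  rw [shear_inv hf.meas.enorm hb]
  exact (f_int hf).2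

lemma rnd_meas {N : ℕ} {A : Fin N → Set ℝ} {lam : ℝ → ℝ} (hA : ∀ j, MeasurableSet (A j))
    (hl : Measurable lam) :
    Measurable (fun q : (Fin N → ℝ) × ℝ => rnd A lam q.1 q.2) := by
  unfold rnd
  refine Finset.measurable_fun_sum _ fun j _ => ?_
  have : (fun q : (Fin N → ℝ) × ℝ => (A j).indicator (fun x => lam x * q.1 j) q.2) =
      (Prod.snd ⁻¹' (A j)).indicator (fun q : (Fin N → ℝ) × ℝ => lam q.2 * q.1 j) := by
    funext q
    by_cases hq : q.2 ∈ A j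
    · rw [indicator_of_mem hq, indicator_of_mem (show q ∈ Prod.snd ⁻¹' (A j) from hq)]
    · rw [indicator_of_notMem hq, indicator_of_notMem (show q ∉ Prod.snd ⁻¹' (A j) from hq)]
  rw [this]
  refine Measurable.indicator ?_ (measurable_snd (hA j))
  exact (hl.comp measurable_snd).mul ((measurable_pi_apply j).comp measurable_fst)

lemma rnd_on {N : ℕ} {A : Fin N → Set ℝ} {lam : ℝ → ℝ} (hd : ∀ i j, i ≠ j → Disjoint (A i) (A j))
    (g : Fin N → ℝ) {j : Fin N} {x : ℝ} (hx : x ∈ A j) : rnd A lam g x = lam x * g j := by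
  unfold rnd
  rw [Finset.sum_eq_single j]
  · rw [indicator_of_mem hx]
  · intro i _ hij
    exact indicator_of_notMem (fun hi => (Set.disjoint_left.1 (hd i j hij)) hi hx) _
  · intro h
    exact absurd (Finset.mem_univ j) h

/-- the difference between the sheared function and the mean -/
lemma diff_eq (k : ℕ) {N : ℕ} {A : Fin N → Set ℝ} {lam : ℝ → ℝ} (hC : Cells k A lam)
    (hAS : ∀ j, A j ⊆ SS) {f : ℝ × ℝ → ℂ} (hf : BQ f)
    (h0 : ∀ x : ℝ × ℝ, x.1 ∉ (⋃ j, A j) → f x = 0) {ψ : ℝ → ℝ} (hψ : Measurable ψ)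
    (g : Fin N → ℝ) (t b a : ℝ) :
    Et (shr (fun x => ψ x + rnd A lam g x) f) (t, b, a) - Et (hb k f ψ lam) (t, b, a) =
      ∑ j, ∫ x in A j, u (a * x + t * x ^ 2) * (Rb f ψ lam b t (g j) x - mR k f ψ lam b t x) := by
  obtain ⟨M, hM⟩ := hf.bdd
  have hU : MeasurableSet (⋃ j, A j) := MeasurableSet.iUnion hC.meas
  have hrm : Measurable (fun x => rnd A lam g x) :=
    (rnd_meas hC.meas hC.mlam).comp measurable_prodMk_left
  have hsm : Measurable (fun x => ψ x + rnd A lam g x) := hψ.add hrm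
  have hF0 : ∀ x : ℝ × ℝ, x.1 ∉ (⋃ j, A j) → shr (fun x => ψ x + rnd A lam g x) f x = 0 :=
    fun x hx => h0 _ hx
  rw [Et_fub (shr_int hf hsm) hU hF0, Et_fub (hb_int k hf hψ hC.mlam) hU
    (fun x hx => hb_supp k h0 x hx)]
  simp only [E1_hb k hf]
  have hfin : ∀ j, volume (A j) ≠ ⊤ := fun j =>
    ne_top_of_le_ne_top (by unfold SS; simp) (measure_mono (hAS j))
  have hum : Measurable (fun x : ℝ => u (a * x + t * x ^ 2)) := measurable_u.comp (by fun_prop)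
  have hpr : Measurable (fun x : ℝ => ((b, t, x) : ℝ × ℝ × ℝ)) := by fun_prop
  have hmRm0 := (meas_mR k hf.meas hψ hC.mlam).comp hpr
  have hmRm : Measurable (fun x => mR k f ψ lam b t x) := hmRm0
  have hRbm : ∀ s, Measurable (fun x => Rb f ψ lam b t s x) := by
    intro s
    have hpr2 : Measurable (fun x : ℝ => (((b, t, x) : ℝ × ℝ × ℝ), s)) := by fun_prop
    have h2 := (meas_Rb hf.meas hψ hC.mlam).comp hpr2
    exact h2
  have hi2 : ∀ j, IntegrableOn (fun x => u (a * x + t * x ^ 2) * mR k f ψ lam b t x) (A j) := by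
    intro j
    have hm1 : Measurable (fun x => u (a * x + t * x ^ 2) * mR k f ψ lam b t x) := hum.mul hmRm
    have hb1 : ∀ x, ‖u (a * x + t * x ^ 2) * mR k f ψ lam b t x‖ ≤ M := by
      intro x
      rw [norm_mul, norm_u, one_mul]
      exact bdd_mR k hf hM ψ lam b t x
    exact Measure.integrableOn_of_bounded (M := M) (hfin j) hm1.aestronglyMeasurable
      (Eventually.of_forall hb1)
  have hi3 : ∀ j, IntegrableOn (fun x => u (a * x + t * x ^ 2) * Rb f ψ lam b t (g j) x)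
      (A j) := by
    intro j
    have hm1 : Measurable (fun x => u (a * x + t * x ^ 2) * Rb f ψ lam b t (g j) x) :=
      hum.mul (hRbm _)
    have hb1 : ∀ x, ‖u (a * x + t * x ^ 2) * Rb f ψ lam b t (g j) x‖ ≤ M := by
      intro x
      rw [norm_mul, norm_u, one_mul]
      exact bdd_Rb hf hM ψ lam b t _ x
    exact Measure.integrableOn_of_bounded (M := M) (hfin j) hm1.aestronglyMeasurable
      (Eventually.of_forall hb1)
  have hcong : ∀ j, ∀ x ∈ A j, u (a * x + t * x ^ 2) *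
      E1 (fun y => shr (fun x => ψ x + rnd A lam g x) f (x, y)) (b, t) =
      u (a * x + t * x ^ 2) * Rb f ψ lam b t (g j) x := by
    intro j x hx
    unfold Rb shr
    simp only [rnd_on hC.disj g hx]
  have hi1 : ∀ j, IntegrableOn (fun x => u (a * x + t * x ^ 2) *
      E1 (fun y => shr (fun x => ψ x + rnd A lam g x) f (x, y)) (b, t)) (A j) := fun j =>
    (integrableOn_congr_fun (hcong j) (hC.meas j)).2 (hi3 j)
  have hpd : Pairwise (Function.onFun Disjoint A) := fun i j hij => hC.disj i j hij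
  rw [integral_iUnion_fintype hC.meas hpd hi1, integral_iUnion_fintype hC.meas hpd hi2,
    ← Finset.sum_sub_distrib]
  refine Finset.sum_congr rfl fun j _ => ?_
  rw [setIntegral_congr_fun (hC.meas j) (hcong j), ← integral_sub (hi3 j) (hi2 j)]
  congr 1
  funext x
  ring

lemma pow4_le (x y : ℂ) : ‖x‖ₑ ^ 4 ≤ 8 * ‖y‖ₑ ^ 4 + 8 * ‖x - y‖ₑ ^ 4 := by
  have h1 : ‖x‖ₑ ≤ ‖y‖ₑ + ‖x - y‖ₑ := by
    calc ‖x‖ₑ = ‖y + (x - y)‖ₑ := by ring_nf
      _ ≤ ‖y‖ₑ + ‖x - y‖ₑ := enorm_add_le _ _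
  have h2 : ∀ s t : ℝ≥0∞, (s + t) ^ 2 ≤ 2 * (s ^ 2 + t ^ 2) := by
    intro s t
    calc (s + t) ^ 2 = s ^ 2 + t ^ 2 + 2 * (s * t) := by ring
      _ ≤ s ^ 2 + t ^ 2 + (s ^ 2 + t ^ 2) := by
          gcongr
          exact Restr.two_mul_mul_le s t
      _ = 2 * (s ^ 2 + t ^ 2) := by ring
  calc ‖x‖ₑ ^ 4 ≤ (‖y‖ₑ + ‖x - y‖ₑ) ^ 4 := by gcongr
    _ = ((‖y‖ₑ + ‖x - y‖ₑ) ^ 2) ^ 2 := by ring
    _ ≤ (2 * (‖y‖ₑ ^ 2 + ‖x - y‖ₑ ^ 2)) ^ 2 := by
        gcongr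
        exact h2 _ _
    _ = 4 * (‖y‖ₑ ^ 2 + ‖x - y‖ₑ ^ 2) ^ 2 := by ring
    _ ≤ 4 * (2 * ((‖y‖ₑ ^ 2) ^ 2 + (‖x - y‖ₑ ^ 2) ^ 2)) := by
        gcongr
        exact h2 _ _
    _ = 8 * ‖y‖ₑ ^ 4 + 8 * ‖x - y‖ₑ ^ 4 := by ring

lemma cent_le {m : Measure ℝ} [IsProbabilityMeasure m] {F : ℝ → ℂ} (hF : Measurable F) :
    ∫⁻ s, ‖F s - ∫ s', F s' ∂m‖ₑ ^ 4 ∂m ≤ 16 * ∫⁻ s, ‖F s‖ₑ ^ 4 ∂m := by
  have h1 : ‖∫ s', F s' ∂m‖ₑ ^ 4 ≤ ∫⁻ s, ‖F s‖ₑ ^ 4 ∂m := by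
    calc ‖∫ s', F s' ∂m‖ₑ ^ 4 ≤ (∫⁻ s, ‖F s‖ₑ ∂m) ^ 4 := by
          gcongr
          exact enorm_integral_le_lintegral_enorm _
      _ = ((∫⁻ s, ‖F s‖ₑ ∂m) ^ 2) ^ 2 := by ring
      _ ≤ (∫⁻ s, ‖F s‖ₑ ^ 2 ∂m) ^ 2 := by
          gcongr
          exact Restr.sq_lintegral_le hF.enorm.aemeasurable
      _ ≤ ∫⁻ s, (‖F s‖ₑ ^ 2) ^ 2 ∂m := Restr.sq_lintegral_le (hF.enorm.pow_const 2).aemeasurable
      _ = ∫⁻ s, ‖F s‖ₑ ^ 4 ∂m := by
          refine lintegral_congr fun s => ?_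
          ring
  calc ∫⁻ s, ‖F s - ∫ s', F s' ∂m‖ₑ ^ 4 ∂m
      ≤ ∫⁻ s, (8 * ‖F s‖ₑ ^ 4 + 8 * ‖∫ s', F s' ∂m‖ₑ ^ 4) ∂m := by
        refine lintegral_mono fun s => ?_
        refine le_trans (pow4_le _ (F s)) ?_
        gcongr
        rw [show F s - ∫ s', F s' ∂m - F s = -∫ s', F s' ∂m by ring, enorm_neg]
    _ = 8 * (∫⁻ s, ‖F s‖ₑ ^ 4 ∂m) + 8 * ‖∫ s', F s' ∂m‖ₑ ^ 4 := by
        rw [lintegral_add_right _ measurable_const, lintegral_const_mul' _ _ (by simp),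
          lintegral_const, measure_univ, mul_one]
    _ ≤ 8 * (∫⁻ s, ‖F s‖ₑ ^ 4 ∂m) + 8 * ∫⁻ s, ‖F s‖ₑ ^ 4 ∂m := by gcongr
    _ = 16 * ∫⁻ s, ‖F s‖ₑ ^ 4 ∂m := by ring

/-- exchange of the order of integration -/
lemma swap4 {I U : Set ℝ} {m : Measure ℝ} [SFinite m] {Φ : (ℝ × ℝ × ℝ) × ℝ → ℝ≥0∞}
    (hΦ : Measurable Φ) :
    ∫⁻ t in I, ∫⁻ b, ∫⁻ x in U, ∫⁻ s, Φ ((b, t, x), s) ∂m =
      ∫⁻ x in U, ∫⁻ s, (∫⁻ t in I, ∫⁻ b, Φ ((b, t, x), s)) ∂m := by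
  have hm : Measurable (fun q : (ℝ × ℝ) × (ℝ × ℝ) => Φ ((q.1.2, q.1.1, q.2.1), q.2.2)) :=
    hΦ.comp (by fun_prop)
  have e1 : ∫⁻ t in I, ∫⁻ b, ∫⁻ x in U, ∫⁻ s, Φ ((b, t, x), s) ∂m =
      ∫⁻ w : ℝ × ℝ, (∫⁻ v : ℝ × ℝ, Φ ((w.2, w.1, v.1), v.2) ∂((volume.restrict U).prod m))
        ∂((volume.restrict I).prod volume) := by
    rw [lintegral_prod (μ := volume.restrict I) (ν := volume)
      (fun w : ℝ × ℝ => ∫⁻ v : ℝ × ℝ, Φ ((w.2, w.1, v.1), v.2) ∂((volume.restrict U).prod m))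
      (Measurable.lintegral_prod_right' hm).aemeasurable]
    refine lintegral_congr fun t => lintegral_congr fun b => ?_
    rw [lintegral_prod (μ := volume.restrict U) (ν := m)
      (fun v : ℝ × ℝ => Φ (((t, b).2, (t, b).1, v.1), v.2))
      (hΦ.comp (by fun_prop)).aemeasurable]
  have e2 : ∫⁻ x in U, ∫⁻ s, (∫⁻ t in I, ∫⁻ b, Φ ((b, t, x), s)) ∂m =
      ∫⁻ v : ℝ × ℝ, (∫⁻ w : ℝ × ℝ, Φ ((w.2, w.1, v.1), v.2) ∂((volume.restrict I).prod volume))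
        ∂((volume.restrict U).prod m) := by
    have hm' : Measurable (fun q : (ℝ × ℝ) × (ℝ × ℝ) => Φ ((q.2.2, q.2.1, q.1.1), q.1.2)) :=
      hΦ.comp (by fun_prop)
    rw [lintegral_prod (μ := volume.restrict U) (ν := m)
      (fun v : ℝ × ℝ => ∫⁻ w : ℝ × ℝ, Φ ((w.2, w.1, v.1), v.2) ∂((volume.restrict I).prod volume))
      (Measurable.lintegral_prod_right' hm').aemeasurable]
    refine lintegral_congr fun x => lintegral_congr fun s => ?_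
    rw [lintegral_prod (μ := volume.restrict I) (ν := volume)
      (fun w : ℝ × ℝ => Φ ((w.2, w.1, (x, s).1), (x, s).2))
      (hΦ.comp (by fun_prop)).aemeasurable]
  rw [e1, e2]
  exact lintegral_lintegral_swap hm.aemeasurable

lemma h_PP {f : ℝ × ℝ → ℂ} (hf : BQ f) {ψ : ℝ → ℝ} (hψ : Measurable ψ) : PP (shr ψ f) where
  meas := hf.meas.comp (measurable_fst.prodMk (measurable_snd.add (hψ.comp measurable_fst)))
  int := shr_int hf hψ
  bdd := by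
    obtain ⟨M, hM⟩ := hf.bdd
    exact ⟨M, fun x => hM _⟩
  supp := fun x z hx => hf.supp _ (fun hq => hx hq.1)

end Pool.Agent.Shr.CORE_

namespace Pool.Agent.Shr

open MeasureTheory Set Filter ProbabilityTheory
open Pool.Agent.Restr (u E Et E1 Lam Ik vv PP QQ)
open scoped ENNReal NNReal Topology
open CORE_

theorem p_CORE (h_CELL : T_CELL) (h_PLAN : T_PLAN) (h_MEAN : T_MEAN) : T_CORE := by
  intro η hη
  obtain ⟨C1, hC1⟩ := h_PLAN η hη
  obtain ⟨C2, hC2⟩ := h_MEAN η hη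
  refine ⟨8 * C2 + 8 * (16 * (Real.toNNReal (48 * Real.pi) * C1)), ?_⟩
  intro k N A lam hC hAS f hf h0 ψ hψ
  set U := ⋃ j, A j with hUdef
  set W : ℝ≥0∞ := ENNReal.ofReal (((2 : ℝ) ^ k) ^ η) with hW
  have hU : MeasurableSet U := MeasurableSet.iUnion hC.meas
  set D : (Fin N → ℝ) → ℝ × ℝ × ℝ → ℂ := fun g p =>
    Et (shr (fun x => ψ x + rnd A lam g x) f) p - Et (hb k f ψ lam) p with hD
  -- measurability
  have hEtm : Measurable (fun q : (Fin N → ℝ) × (ℝ × ℝ × ℝ) =>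
      Et (shr (fun x => ψ x + rnd A lam q.1 x) f) q.2) := by
    have : StronglyMeasurable (fun q : (Fin N → ℝ) × (ℝ × ℝ × ℝ) => ∫ x : ℝ × ℝ,
        u (q.2.2.2 * x.1 + (q.2.2.1 * x.2 + q.2.1 * (x.1 ^ 2 + x.2 ^ 2))) *
          f (x.1, x.2 + (ψ x.1 + rnd A lam q.1 x.1))) := by
      apply StronglyMeasurable.integral_prod_right
        (f := fun (q : (Fin N → ℝ) × (ℝ × ℝ × ℝ)) (x : ℝ × ℝ) =>
          u (q.2.2.2 * x.1 + (q.2.2.1 * x.2 + q.2.1 * (x.1 ^ 2 + x.2 ^ 2))) *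
          f (x.1, x.2 + (ψ x.1 + rnd A lam q.1 x.1)))
      apply Measurable.stronglyMeasurable
      refine (Restr.measurable_u.comp (by fun_prop)).mul (hf.meas.comp ?_)
      have hr : Measurable (fun z : ((Fin N → ℝ) × (ℝ × ℝ × ℝ)) × (ℝ × ℝ) =>
          rnd A lam z.1.1 z.2.1) :=
        (rnd_meas hC.meas hC.mlam).comp
          (by fun_prop : Measurable fun z : ((Fin N → ℝ) × (ℝ × ℝ × ℝ)) × (ℝ × ℝ) =>
            (z.1.1, z.2.1))
      exact Measurable.prodMk (by fun_prop) (by fun_prop)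
    exact this.measurable
  have hhbm : Measurable (Et (hb k f ψ lam)) := by
    apply Restr.measurable_Et
    have hm : Measurable (fun p : (ℝ × ℝ) × ℝ =>
        f (p.1.1, p.1.2 + (ψ p.1.1 + lam p.1.1 * p.2))) := by
      have := hC.mlam
      exact hf.meas.comp (by fun_prop)
    have e : hb k f ψ lam = fun x => ∫ s, f (x.1, x.2 + (ψ x.1 + lam x.1 * s)) ∂(gk k) :=
      funext (hb_eq k f ψ lam)
    rw [e]
    exact (StronglyMeasurable.integral_prod_right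
      (f := fun (x : ℝ × ℝ) (s : ℝ) => f (x.1, x.2 + (ψ x.1 + lam x.1 * s)))
      hm.stronglyMeasurable).measurable
  have hDm : Measurable (fun q : (Fin N → ℝ) × (ℝ × ℝ × ℝ) => ‖D q.1 q.2‖ₑ ^ 4) :=
    ((hEtm.sub (hhbm.comp measurable_snd)).enorm).pow_const 4
  have hRm := (((meas_Rb hf.meas hψ hC.mlam).enorm).pow_const 4)
  -- the mean
  have hmean : ∫⁻ p, ‖Et (hb k f ψ lam) p‖ₑ ^ 4 ∂(Lam (Ik k)) ≤
      C2 * ENNReal.ofReal (((2 : ℝ) ^ k) ^ η / 2 ^ k) * ∫⁻ x, ‖f x‖ₑ ^ 4 := by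
    have h1 := hC2 k lam hC.mlam hC.lam1 hC.lam2 (shr ψ f) (h_PP hf hψ)
    have h2 : ∫⁻ x, ‖shr ψ f x‖ₑ ^ 4 = ∫⁻ x, ‖f x‖ₑ ^ 4 :=
      shear_inv (hf.meas.enorm.pow_const 4) hψ
    rw [h2] at h1
    exact h1
  -- the fluctuation
  have hcell : ∀ t b : ℝ, ∫⁻ a : ℝ, ∫⁻ g, ‖D g (t, b, a)‖ₑ ^ 4 ∂(gN k N) ≤
      ENNReal.ofReal (48 * Real.pi / 2 ^ k) * ∫⁻ x in U, 16 *
        ∫⁻ s, ‖Rb f ψ lam b t s x‖ₑ ^ 4 ∂(gk k) := by
    intro t b
    obtain ⟨M, hM⟩ := hf.bdd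
    have hpr1 : Measurable (fun z : ℝ × ℝ => (((b, t, z.2) : ℝ × ℝ × ℝ), z.1)) := by fun_prop
    have hRbm0 := (meas_Rb hf.meas hψ hC.mlam).comp hpr1
    have hRbm : Measurable (Function.uncurry fun s x => Rb f ψ lam b t s x) := hRbm0
    have hpr2 : Measurable (fun z : ℝ × ℝ => ((b, t, z.2) : ℝ × ℝ × ℝ)) := by fun_prop
    have hmRm0 := (meas_mR k hf.meas hψ hC.mlam).comp hpr2
    have hmRm : Measurable (fun z : ℝ × ℝ => mR k f ψ lam b t z.2) := hmRm0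
    have h1 := h_CELL k N A hC.meas hC.disj hC.small hAS (gk k)
      (fun s x => Rb f ψ lam b t s x - mR k f ψ lam b t x)
      (hRbm.sub hmRm) ⟨M + M, fun s x => le_trans (norm_sub_le _ _)
        (add_le_add (bdd_Rb hf hM ψ lam b t s x) (bdd_mR k hf hM ψ lam b t x))⟩
      (by
        intro x
        rw [integral_sub (int_Rb k hf hψ hC.mlam b t x) (integrable_const _)]
        simp [mR]) t
    calc ∫⁻ a : ℝ, ∫⁻ g, ‖D g (t, b, a)‖ₑ ^ 4 ∂(gN k N)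
        = ∫⁻ a : ℝ, ∫⁻ g : Fin N → ℝ, ‖∑ j, ∫ x in A j, u (a * x + t * x ^ 2) *
            (Rb f ψ lam b t (g j) x - mR k f ψ lam b t x)‖ₑ ^ 4 ∂(Measure.pi fun _ => gk k) := by
          refine lintegral_congr fun a => lintegral_congr fun g => ?_
          simp only [hD]
          rw [diff_eq k hC hAS hf h0 hψ g t b a]
      _ ≤ _ := h1
      _ ≤ _ := by
          gcongr with x
          exact cent_le (hRbm.comp (by fun_prop : Measurable fun s : ℝ => (s, x)))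
  have hfl : ∫⁻ g, ∫⁻ p, ‖D g p‖ₑ ^ 4 ∂(Lam (Ik k)) ∂(gN k N) ≤
      16 * (ENNReal.ofReal (48 * Real.pi / 2 ^ k) * (C1 * W * ∫⁻ x, ‖f x‖ₑ ^ 4)) := by
    rw [lintegral_lintegral_swap hDm.aemeasurable]
    have hJ : Measurable (fun p : ℝ × ℝ × ℝ => ∫⁻ g, ‖D g p‖ₑ ^ 4 ∂(gN k N)) :=
      Measurable.lintegral_prod_left' hDm
    have hJ2 : ∀ t, Measurable (fun w : ℝ × ℝ => ∫⁻ g, ‖D g (t, w)‖ₑ ^ 4 ∂(gN k N)) := fun t =>
      hJ.comp measurable_prodMk_left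
    calc ∫⁻ p, ∫⁻ g, ‖D g p‖ₑ ^ 4 ∂(gN k N) ∂(Lam (Ik k))
        = ∫⁻ t in Ik k, ∫⁻ b, ∫⁻ a, ∫⁻ g, ‖D g (t, b, a)‖ₑ ^ 4 ∂(gN k N) := by
          unfold Lam
          rw [lintegral_prod _ hJ.aemeasurable]
          refine lintegral_congr fun t => ?_
          rw [lintegral_prod _ (hJ2 t).aemeasurable]
      _ ≤ ∫⁻ t in Ik k, ∫⁻ b, ENNReal.ofReal (48 * Real.pi / 2 ^ k) * ∫⁻ x in U, 16 *
            ∫⁻ s, ‖Rb f ψ lam b t s x‖ₑ ^ 4 ∂(gk k) :=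
          lintegral_mono fun t => lintegral_mono fun b => hcell t b
      _ = 16 * (ENNReal.ofReal (48 * Real.pi / 2 ^ k) * ∫⁻ t in Ik k, ∫⁻ b, ∫⁻ x in U,
            ∫⁻ s, ‖Rb f ψ lam b t s x‖ₑ ^ 4 ∂(gk k)) := by
          simp_rw [lintegral_const_mul' (16 : ℝ≥0∞) _ (by simp),
            lintegral_const_mul' _ _ ENNReal.ofReal_ne_top,
            lintegral_const_mul' (16 : ℝ≥0∞) _ (by simp)]
          ring
      _ = 16 * (ENNReal.ofReal (48 * Real.pi / 2 ^ k) * ∫⁻ x in U, ∫⁻ s, (∫⁻ t in Ik k, ∫⁻ b,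
            ‖Rb f ψ lam b t s x‖ₑ ^ 4) ∂(gk k)) := by
          congr 2
          exact swap4 hRm
      _ ≤ 16 * (ENNReal.ofReal (48 * Real.pi / 2 ^ k) * ∫⁻ x in U, ∫⁻ _,
            (C1 * W * ∫⁻ y, ‖f (x, y)‖ₑ ^ 4) ∂(gk k)) := by
          gcongr with x s
          exact hC1 (fun y => f (x, y)) (hf.meas.comp measurable_prodMk_left)
            (fun y hy => hf.supp _ (fun hq => hy hq.2)) (ψ x + lam x * s) k
      _ = 16 * (ENNReal.ofReal (48 * Real.pi / 2 ^ k) * (C1 * W * ∫⁻ x in U,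
            ∫⁻ y, ‖f (x, y)‖ₑ ^ 4)) := by
          simp_rw [lintegral_const, measure_univ, mul_one]
          rw [lintegral_const_mul' _ _ (ENNReal.mul_ne_top ENNReal.coe_ne_top
            ENNReal.ofReal_ne_top)]
      _ ≤ _ := by
          gcongr
          refine le_trans (setLIntegral_le_lintegral _ _) (le_of_eq ?_)
          rw [Measure.volume_eq_prod, lintegral_prod _ (hf.meas.enorm.pow_const 4).aemeasurable]
  have hnum : ENNReal.ofReal (48 * Real.pi / 2 ^ k) * W =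
      ((Real.toNNReal (48 * Real.pi) : ℝ≥0) : ℝ≥0∞) *
        ENNReal.ofReal (((2 : ℝ) ^ k) ^ η / 2 ^ k) := by
    have h1 : ((Real.toNNReal (48 * Real.pi) : ℝ≥0) : ℝ≥0∞) = ENNReal.ofReal (48 * Real.pi) := rfl
    rw [h1, hW, ← ENNReal.ofReal_mul (by positivity), ← ENNReal.ofReal_mul (by positivity)]
    congr 1
    ring
  calc ∫⁻ g, ∫⁻ p, ‖Et (shr (fun x => ψ x + rnd A lam g x) f) p‖ₑ ^ 4 ∂(Lam (Ik k)) ∂(gN k N)
      ≤ ∫⁻ g, ∫⁻ p, (8 * ‖Et (hb k f ψ lam) p‖ₑ ^ 4 + 8 * ‖D g p‖ₑ ^ 4) ∂(Lam (Ik k))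
          ∂(gN k N) :=
        lintegral_mono fun g => lintegral_mono fun p => pow4_le _ _
    _ = ∫⁻ g, (8 * (∫⁻ p, ‖Et (hb k f ψ lam) p‖ₑ ^ 4 ∂(Lam (Ik k))) +
          8 * ∫⁻ p, ‖D g p‖ₑ ^ 4 ∂(Lam (Ik k))) ∂(gN k N) := by
        refine lintegral_congr fun g => ?_
        rw [lintegral_add_left ((hhbm.enorm.pow_const 4).const_mul 8),
          lintegral_const_mul' _ _ (by simp), lintegral_const_mul' _ _ (by simp)]
    _ = 8 * (∫⁻ p, ‖Et (hb k f ψ lam) p‖ₑ ^ 4 ∂(Lam (Ik k))) +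
          8 * ∫⁻ g, ∫⁻ p, ‖D g p‖ₑ ^ 4 ∂(Lam (Ik k)) ∂(gN k N) := by
        rw [lintegral_add_left measurable_const, lintegral_const, measure_univ, mul_one,
          lintegral_const_mul' _ _ (by simp)]
    _ ≤ 8 * (C2 * ENNReal.ofReal (((2 : ℝ) ^ k) ^ η / 2 ^ k) * ∫⁻ x, ‖f x‖ₑ ^ 4) +
          8 * (16 * (ENNReal.ofReal (48 * Real.pi / 2 ^ k) *
            (C1 * W * ∫⁻ x, ‖f x‖ₑ ^ 4))) := by gcongr
    _ = 8 * (C2 * ENNReal.ofReal (((2 : ℝ) ^ k) ^ η / 2 ^ k) * ∫⁻ x, ‖f x‖ₑ ^ 4) +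
          8 * (16 * ((ENNReal.ofReal (48 * Real.pi / 2 ^ k) * W) *
            (C1 * ∫⁻ x, ‖f x‖ₑ ^ 4))) := by ring
    _ = _ := by
        rw [hnum]
        push_cast
        ring

end Pool.Agent.Shr
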