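import Mathlib
import Pool.Agent.Restr.Global
import Pool.Agent.H27.Fib.Final
import Pool.Agent.Dil.Targets

/-!
# Brownian shears and the extension operator: definitions and targets
-/

namespace Pool.Agent.Shr

open MeasureTheory Set Filter ProbabilityTheory
open Pool.Agent.Restr (u E Et E1 Lam Ik vv PP QQ)
open Pool.Agent.H27.Fib (ind)
open Pool.Agent.Dil (sl Jk)
open scoped ENNReal NNReal Topology

/-- The shear `(x₁, x₂) ↦ f (x₁, x₂ + b x₁)`. -/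
def shr (b : ℝ → ℝ) (f : ℝ × ℝ → ℂ) (x : ℝ × ℝ) : ℂ := f (x.1, x.2 + b x.1)

/-- The unit interval centred at the origin. -/
def SS : Set ℝ := Icc (-(1 / 2) : ℝ) (1 / 2)

/-- The law of the Gaussian variables at scale `k`: variance `2 ^ (-(k + 1))`. -/
noncomputable def gk (k : ℕ) : Measure ℝ := gaussianReal 0 (vv k 0)

instance (k : ℕ) : IsProbabilityMeasure (gk k) := by unfold gk; infer_instance

/-- The product law. -/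
noncomputable def gN (k N : ℕ) : Measure (Fin N → ℝ) := Measure.pi fun _ : Fin N => gk k

instance (k N : ℕ) : IsProbabilityMeasure (gN k N) := by unfold gN; infer_instance

/-- The random part of the shear: `lam x * g j` on the cell `A j`. -/
noncomputable def rnd {N : ℕ} (A : Fin N → Set ℝ) (lam : ℝ → ℝ) (g : Fin N → ℝ) (x : ℝ) : ℝ :=
  ∑ j, (A j).indicator (fun x => lam x * g j) x

/-- Disjoint cells of length at most `2 ^ (-k)`, with a weight between `1/2` and `1`. -/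
structure Cells (k : ℕ) {N : ℕ} (A : Fin N → Set ℝ) (lam : ℝ → ℝ) : Prop where
  meas : ∀ j, MeasurableSet (A j)
  disj : ∀ i j, i ≠ j → Disjoint (A i) (A j)
  small : ∀ j, ∃ c : ℝ, A j ⊆ Icc c (c + 1 / 2 ^ k)
  mlam : Measurable lam
  lam1 : ∀ x, 1 / 2 ≤ lam x
  lam2 : ∀ x, lam x ≤ 1

/-- On the set `V` the path `B` is an independent background plus `rnd A lam G` with independent
Gaussian variables `G` of variance `2 ^ (-(k + 1))`. -/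
def RoughOn {Ω : Type} [MeasurableSpace Ω] (P : Measure Ω) (B : Ω → ℝ → ℝ) (k : ℕ)
    (V : Set ℝ) : Prop :=
  ∃ (N : ℕ) (A : Fin N → Set ℝ) (lam : ℝ → ℝ) (X : Ω → (ℕ × ℕ → ℝ)) (G : Ω → (Fin N → ℝ))
    (Ψ : (ℕ × ℕ → ℝ) → ℝ → ℝ),
    Cells k A lam ∧ V ⊆ ⋃ j, A j ∧ AEMeasurable X P ∧ AEMeasurable G P ∧
    Measurable (Function.uncurry Ψ) ∧ IndepFun X G P ∧ P.map G = gN k N ∧
    ∀ᵐ ω ∂P, ∀ x ∈ V, B ω x = Ψ (X ω) x + rnd A lam (G ω) x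

/-- `B` is rough at all scales on `SS`, up to one exceptional cell per scale. -/
def Rough {Ω : Type} [MeasurableSpace Ω] (P : Measure Ω) (B : Ω → ℝ → ℝ) : Prop :=
  ∀ k : ℕ, ∃ V₀ V₁ U : Set ℝ, MeasurableSet V₀ ∧ MeasurableSet V₁ ∧ MeasurableSet U ∧
    SS ⊆ V₀ ∪ V₁ ∪ U ∧ RoughOn P B k V₀ ∧ RoughOn P B k V₁ ∧ ∃ c : ℝ, U ⊆ Icc c (c + 1 / 2 ^ k)

/-- The `q`-th power of the norm over the probability space and the times in `I`. -/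
noncomputable def blk {Ω : Type} [MeasurableSpace Ω] (q : ℝ) (P : Measure Ω) (B : Ω → ℝ → ℝ)
    (I : Set ℝ) (f : ℝ × ℝ → ℂ) : ℝ≥0∞ :=
  ∫⁻ ω, (∫⁻ t in I, sl q (shr (B ω) f) t) ∂P

/-- Bounded measurable functions supported in the unit square. -/
structure BQ (f : ℝ × ℝ → ℂ) : Prop where
  meas : Measurable f
  bdd : ∃ M : ℝ, ∀ x, ‖f x‖ ≤ M
  supp : ∀ x, x ∉ QQ → f x = 0

/-! ### The fourth power estimate for one block -/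

/-- Fourth moment of a sum of independent centred complex random variables. -/
def T_ROS : Prop := ∀ (N : ℕ) (m : Measure ℝ) [IsProbabilityMeasure m] (y : Fin N → ℝ → ℂ),
  (∀ j, Measurable (y j)) → (∀ j, ∃ M : ℝ, ∀ s, ‖y j s‖ ≤ M) → (∀ j, ∫ s, y j s ∂m = 0) →
  ∫⁻ g : Fin N → ℝ, ‖∑ j, y j (g j)‖ₑ ^ 4 ∂(Measure.pi fun _ => m) ≤
    12 * (∑ j, ∫⁻ s, ‖y j s‖ₑ ^ 2 ∂m) ^ 2 + 12 * ∑ j, ∫⁻ s, ‖y j s‖ₑ ^ 4 ∂m

/-- One cell: the supremum bound and Plancherel. -/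
def T_STR : Prop := ∀ (k : ℕ) (A : Set ℝ), MeasurableSet A → (∃ c : ℝ, A ⊆ Icc c (c + 1 / 2 ^ k)) →
  ∀ (R : ℝ → ℂ), Measurable R → (∃ M : ℝ, ∀ x, ‖R x‖ ≤ M) → ∀ t : ℝ,
  (∀ ξ : ℝ, ‖∫ x in A, u (ξ * x + t * x ^ 2) * R x‖ₑ ^ 2 ≤
    ENNReal.ofReal (1 / 2 ^ k) * ∫⁻ x in A, ‖R x‖ₑ ^ 2) ∧
  (∫⁻ ξ : ℝ, ‖∫ x in A, u (ξ * x + t * x ^ 2) * R x‖ₑ ^ 2 ≤
    ENNReal.ofReal (2 * Real.pi) * ∫⁻ x in A, ‖R x‖ₑ ^ 2) ∧
  (∫⁻ ξ : ℝ, ‖∫ x in A, u (ξ * x + t * x ^ 2) * R x‖ₑ ^ 4 ≤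
    ENNReal.ofReal (2 * Real.pi * (1 / 2 ^ k) ^ 2) * ∫⁻ x in A, ‖R x‖ₑ ^ 4)

/-- The sum over the cells of independent centred pieces, fixed second frequency and time. -/
def T_CELL : Prop := ∀ (k N : ℕ) (A : Fin N → Set ℝ), (∀ j, MeasurableSet (A j)) →
  (∀ i j, i ≠ j → Disjoint (A i) (A j)) → (∀ j, ∃ c : ℝ, A j ⊆ Icc c (c + 1 / 2 ^ k)) →
  (∀ j, A j ⊆ SS) → ∀ (m : Measure ℝ) [IsProbabilityMeasure m] (R : ℝ → ℝ → ℂ),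
  Measurable (Function.uncurry R) → (∃ M : ℝ, ∀ s x, ‖R s x‖ ≤ M) →
  (∀ x, ∫ s, R s x ∂m = 0) → ∀ t : ℝ,
  ∫⁻ ξ : ℝ, ∫⁻ g : Fin N → ℝ, ‖∑ j, ∫ x in A j, u (ξ * x + t * x ^ 2) * R (g j) x‖ₑ ^ 4
      ∂(Measure.pi fun _ => m) ≤
    ENNReal.ofReal (48 * Real.pi / 2 ^ k) * ∫⁻ x in ⋃ j, A j, ∫⁻ s, ‖R s x‖ₑ ^ 4 ∂m

/-- Planar fourth power estimate for translates, uniformly in the translation. -/
def T_PLAN : Prop := ∀ η : ℝ, 0 < η → ∃ C : ℝ≥0, ∀ g : ℝ → ℂ, Measurable g →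
  (∀ x, x ∉ SS → g x = 0) → ∀ (b : ℝ) (k : ℕ),
  ∫⁻ t in Ik k, ∫⁻ w : ℝ, ‖E1 (fun x => g (x + b)) (w, t)‖ₑ ^ 4 ≤
    C * ENNReal.ofReal (((2 : ℝ) ^ k) ^ η) * ∫⁻ x, ‖g x‖ₑ ^ 4

/-- The mean over the Gaussian variables. -/
def T_MEAN : Prop := ∀ η : ℝ, 0 < η → ∃ C : ℝ≥0, ∀ (k : ℕ) (lam : ℝ → ℝ), Measurable lam →
  (∀ x, 1 / 2 ≤ lam x) → (∀ x, lam x ≤ 1) → ∀ h : ℝ × ℝ → ℂ, PP h →
  ∫⁻ p, ‖Et (fun x : ℝ × ℝ => ∫ s, h (x.1, x.2 + lam x.1 * s) ∂(gk k)) p‖ₑ ^ 4 ∂(Lam (Ik k)) ≤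
    C * ENNReal.ofReal (((2 : ℝ) ^ k) ^ η / 2 ^ k) * ∫⁻ x, ‖h x‖ₑ ^ 4

/-- The block estimate for the shear `ψ + rnd A lam g`. -/
def T_CORE : Prop := ∀ η : ℝ, 0 < η → ∃ C : ℝ≥0, ∀ (k N : ℕ) (A : Fin N → Set ℝ) (lam : ℝ → ℝ),
  Cells k A lam → (∀ j, A j ⊆ SS) → ∀ f : ℝ × ℝ → ℂ, BQ f →
  (∀ x : ℝ × ℝ, x.1 ∉ (⋃ j, A j) → f x = 0) → ∀ ψ : ℝ → ℝ, Measurable ψ →
  ∫⁻ g, ∫⁻ p, ‖Et (shr (fun x => ψ x + rnd A lam g x) f) p‖ₑ ^ 4 ∂(Lam (Ik k)) ∂(gN k N) ≤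
    C * ENNReal.ofReal (((2 : ℝ) ^ k) ^ η / 2 ^ k) * ∫⁻ x, ‖f x‖ₑ ^ 4

/-- One cell without randomness. -/
def T_ONE : Prop := ∀ η : ℝ, 0 < η → ∃ C : ℝ≥0, ∀ (k : ℕ) (f : ℝ × ℝ → ℂ), BQ f →
  (∃ c : ℝ, ∀ x : ℝ × ℝ, x.1 ∉ Icc c (c + 1 / 2 ^ k) → f x = 0) → ∀ ψ : ℝ → ℝ, Measurable ψ →
  ∫⁻ p, ‖Et (shr ψ f) p‖ₑ ^ 4 ∂(Lam (Ik k)) ≤
    C * ENNReal.ofReal (((2 : ℝ) ^ k) ^ η / 2 ^ k) * ∫⁻ x, ‖f x‖ₑ ^ 4

/-- The block estimate on a set on which the process is rough. -/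
def T_LAW : Prop := ∀ η : ℝ, 0 < η → ∃ C : ℝ≥0, ∀ (Ω : Type) [MeasurableSpace Ω] (P : Measure Ω)
  [IsProbabilityMeasure P] (B : Ω → ℝ → ℝ) (k : ℕ) (V : Set ℝ), MeasurableSet V →
  RoughOn P B k V → ∀ f : ℝ × ℝ → ℂ, BQ f → (∀ x : ℝ × ℝ, x.1 ∉ V → f x = 0) →
  ∫⁻ ω, ∫⁻ p, ‖Et (shr (B ω) f) p‖ₑ ^ 4 ∂(Lam (Ik k)) ∂P ≤
    C * ENNReal.ofReal (((2 : ℝ) ^ k) ^ η / 2 ^ k) * ∫⁻ x, ‖f x‖ₑ ^ 4

/-- The block estimate for a rough process, both signs of time. -/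
def T_BLK4 : Prop := ∀ η : ℝ, 0 < η → ∃ C : ℝ≥0, ∀ (Ω : Type) [MeasurableSpace Ω] (P : Measure Ω)
  [IsProbabilityMeasure P] (B : Ω → ℝ → ℝ), Measurable (Function.uncurry B) → Rough P B →
  ∀ f : ℝ × ℝ → ℂ, BQ f → ∀ k : ℕ,
  blk 4 P B (Jk k) f ≤ C * ENNReal.ofReal (((2 : ℝ) ^ k) ^ η / 2 ^ k) * ∫⁻ x, ‖f x‖ₑ ^ 4

/-! ### From one block to the full estimate -/

/-- The block estimate for indicator functions. -/
def T_RES : Prop := ∀ q a η : ℝ, 3 < q → q < 4 → 0 < a → a ≤ (q - 2) / 2 → 0 < η →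
  ∃ C : ℝ≥0, ∀ (Ω : Type) [MeasurableSpace Ω] (P : Measure Ω)
  [IsProbabilityMeasure P] (B : Ω → ℝ → ℝ), Measurable (Function.uncurry B) → Rough P B →
  ∀ A : Set (ℝ × ℝ), MeasurableSet A → A ⊆ QQ → ∀ k : ℕ,
  blk q P B (Jk k) (ind A) ≤
    C * ENNReal.ofReal (((2 : ℝ) ^ k) ^ ((4 - q) / 2 - a + η)) * volume A ^ (q / 2 - a)

/-- From indicator functions to functions (layer cake, Minkowski, Chebyshev). -/
def T_LAY : Prop := ∀ q p r : ℝ, 1 < q → 1 < p → 0 < r → q < p * r → ∃ C : ℝ≥0,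
  ∀ (Ω : Type) [MeasurableSpace Ω] (P : Measure Ω) [IsProbabilityMeasure P] (B : Ω → ℝ → ℝ),
  Measurable (Function.uncurry B) → ∀ I : Set ℝ, MeasurableSet I → ∀ D : ℝ≥0∞,
  (∀ A : Set (ℝ × ℝ), MeasurableSet A → A ⊆ QQ → blk q P B I (ind A) ≤ D * volume A ^ r) →
  ∀ f : ℝ × ℝ → ℂ, Measurable f → (∀ x, x ∉ QQ → f x = 0) →
  eLpNorm f (ENNReal.ofReal p) volume ≠ ⊤ →
  blk q P B I f ≤ C * D * eLpNorm f (ENNReal.ofReal p) volume ^ q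

/-- Small times. -/
def T_ZERO : Prop := ∀ q p : ℝ, 2 < q → q < 4 → 2 ≤ p → ∃ C : ℝ≥0, ∀ f : ℝ × ℝ → ℂ,
  Measurable f → (∀ x, x ∉ QQ → f x = 0) → ∀ b : ℝ → ℝ, Measurable b →
  ∫⁻ t in {t : ℝ | |t| < 1}, sl q (shr b f) t ≤ C * eLpNorm f (ENNReal.ofReal p) volume ^ q

/-- The norm of the extension and the slices; measurability. -/
def T_NORM : Prop := ∀ q : ℝ, 0 < q → ∀ f : ℝ × ℝ → ℂ, Measurable f →
  ∀ (Ω : Type) [MeasurableSpace Ω] (B : Ω → ℝ → ℝ), Measurable (Function.uncurry B) →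
  (∀ ω, eLpNorm (E (shr (B ω) f)) (ENNReal.ofReal q) volume ^ q = ∫⁻ t, sl q (shr (B ω) f) t) ∧
  Measurable (fun z : Ω × ℝ => sl q (shr (B z.1) f) z.2) ∧
  Measurable (fun ω => eLpNorm (E (shr (B ω) f)) (ENNReal.ofReal q) volume)

/-- The average estimate for rough processes, functions supported in the unit square. -/
def T_MAIN : Prop := ∀ q p : ℝ, 3 < q → q < 4 → q / (q - 2) < p → ∃ C : ℝ≥0,
  ∀ (Ω : Type) [MeasurableSpace Ω] (P : Measure Ω) [IsProbabilityMeasure P] (B : Ω → ℝ → ℝ),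
  Measurable (Function.uncurry B) → Rough P B →
  ∀ f : ℝ × ℝ → ℂ, Measurable f → (∀ x, x ∉ QQ → f x = 0) →
  eLpNorm f (ENNReal.ofReal p) volume ≠ ⊤ →
  ∫⁻ ω, eLpNorm (E (shr (B ω) f)) (ENNReal.ofReal q) volume ^ q ∂P ≤
    C * eLpNorm f (ENNReal.ofReal p) volume ^ q

/-! ### Translations and cutting into squares -/

/-- Translation invariance of the norm of the extension. -/
def T_TRN : Prop := ∀ q : ℝ, 0 < q → ∀ f : ℝ × ℝ → ℂ, Measurable f → ∀ a b : ℝ,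
  eLpNorm (E fun x : ℝ × ℝ => f (x.1 + a, x.2 + b)) (ENNReal.ofReal q) volume =
    eLpNorm (E f) (ENNReal.ofReal q) volume

/-- The piece of `f` in the unit square centred at `(a, b)`, moved to the origin. -/
noncomputable def pc (a b : ℝ) (f : ℝ × ℝ → ℂ) (x : ℝ × ℝ) : ℂ :=
  (Ico (-(1 / 2) : ℝ) (1 / 2) ×ˢ Ico (-(1 / 2) : ℝ) (1 / 2)).indicator
    (fun x : ℝ × ℝ => f (x.1 + a, x.2 + b)) x

/-- Cutting a function of compact support into unit squares, under a shear. -/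
def T_CUT : Prop := ∀ q : ℝ, 1 ≤ q → ∀ M : ℕ, ∀ f : ℝ × ℝ → ℂ, Measurable f → Integrable f →
  (∀ x : ℝ × ℝ, x ∉ Ico (-(M : ℝ)) M ×ˢ Ico (-(M : ℝ)) M → f x = 0) →
  ∀ b : ℝ → ℝ, Measurable b →
  eLpNorm (E (shr b f)) (ENNReal.ofReal q) volume ≤
    ∑ i ∈ Finset.Ico (-(M : ℤ)) M, ∑ j ∈ Finset.Ico (-(M : ℤ)) M,
      eLpNorm (E (shr (fun x => b (x + ((i : ℝ) + 1 / 2))) (pc ((i : ℝ) + 1 / 2)
        ((j : ℝ) + 1 / 2) f))) (ENNReal.ofReal q) volume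

/-! ### Brownian motion -/

/-- The tent of height 1 and half-width `2 ^ (-k)` centred at `c`. -/
noncomputable def tent (k : ℕ) (c x : ℝ) : ℝ := max 0 (1 - 2 ^ k * |x - c|)

/-- The centres of the tents at scale `k` with parity `a`. -/
noncomputable def ctr (k a j : ℕ) : ℝ := (2 * j + 1 + a) / 2 ^ k

/-- The second difference of a path at the centre `ctr k a j`. -/
noncomputable def dd (k a : ℕ) (B : ℝ → ℝ) (j : ℕ) : ℝ :=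
  B (ctr k a j) - (B (ctr k a j - 1 / 2 ^ k) + B (ctr k a j + 1 / 2 ^ k)) / 2

/-- The path without its tents of scale `k` and parity `a`, `j < N`. -/
noncomputable def bg (k a N : ℕ) (B : ℝ → ℝ) (x : ℝ) : ℝ :=
  B x - ∑ j : Fin N, tent k (ctr k a j) x * dd k a B j

/-- The path of a process indexed by the non-negative reals. -/
noncomputable def pth {Ω : Type} (B : ℝ≥0 → Ω → ℝ) (ω : Ω) (x : ℝ) : ℝ := B x.toNNReal ω

/-- Midpoint displacement: the second differences are independent Gaussian variables of variance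
`2 ^ (-(k + 1))`, independent of the background. -/
def T_BMI : Prop := ∀ (Ω : Type) [MeasurableSpace Ω] (P : Measure Ω) (B : ℝ≥0 → Ω → ℝ),
  IsPreBrownianReal B P → ∀ (k a N : ℕ) (D : Type) [Countable D] (d : D → ℝ), (∀ i, 0 ≤ d i) →
  AEMeasurable (fun ω (i : D) => bg k a N (pth B ω) (d i)) P ∧
  AEMeasurable (fun ω (j : Fin N) => dd k a (pth B ω) j) P ∧
  IndepFun (fun ω (i : D) => bg k a N (pth B ω) (d i))
    (fun ω (j : Fin N) => dd k a (pth B ω) j) P ∧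
  P.map (fun ω (j : Fin N) => dd k a (pth B ω) j) = gN k N

/-- A path on `SS` from countably many values: the value at `x` is the limit of the values at
dyadic points to the left of `x`. -/
def T_REC : Prop := ∃ Ψ : (ℕ × ℕ → ℝ) → ℝ → ℝ, Measurable (Function.uncurry Ψ) ∧
  ∀ (X : ℕ × ℕ → ℝ) (x : ℝ) (v : ℝ), 0 ≤ x →
    Tendsto (fun n : ℕ => X (n, ⌊(2 : ℝ) ^ n * x⌋₊)) atTop (𝓝 v) → Ψ X x = v

/-- Brownian motion on the unit intervals to the right of the origin is rough. -/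
def T_BM : Prop := ∀ (Ω : Type) [MeasurableSpace Ω] (P : Measure Ω) (B : ℝ≥0 → Ω → ℝ),
  IsBrownianReal B P → ∀ o : ℝ, 1 / 2 ≤ o →
  ∃ B' : Ω → ℝ → ℝ, Measurable (Function.uncurry B') ∧
    (∀ᵐ ω ∂P, ∀ x ∈ SS, B' ω x = pth B ω (x + o)) ∧ Rough P B'

/-- The average estimate for Brownian shears with drift. -/
def T_AVG : Prop := ∀ q p R : ℝ, 3 < q → q < 4 → q / (q - 2) < p → ∃ C : ℝ≥0,
  ∀ (Ω : Type) [MeasurableSpace Ω] (P : Measure Ω) (B : ℝ≥0 → Ω → ℝ), IsBrownianReal B P →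
  ∀ g : ℝ → ℝ, Measurable g → ∀ f : ℝ × ℝ → ℂ, Measurable f →
  (∀ x : ℝ × ℝ, f x ≠ 0 → 0 ≤ x.1 ∧ x.1 < R ∧ |x.2| < R) →
  eLpNorm f (ENNReal.ofReal p) volume ≠ ⊤ →
  ∫⁻ ω, eLpNorm (E (shr (fun x => g x + pth B ω x) f)) (ENNReal.ofReal q) volume ^ q ∂P ≤
    C * eLpNorm f (ENNReal.ofReal p) volume ^ q

/-! ### The transverse measure -/

/-- The distance to the even integers. -/
noncomputable def tri (x : ℝ) : ℝ := |x - 2 * round (x / 2)|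

/-- The probability space of the series. -/
noncomputable def GP : Measure (ℕ × ℕ → ℝ) := Measure.infinitePi fun i : ℕ × ℕ => gk i.1

instance : IsProbabilityMeasure GP := by unfold GP; infer_instance

/-- The term of scale `k` of the series. -/
noncomputable def term (ω : ℕ × ℕ → ℝ) (k : ℕ) (x : ℝ) : ℝ :=
  ∑ j ∈ Finset.range (2 ^ k + 1), ω (k, j) * tent k (j / 2 ^ k) (tri x)

/-- Almost surely the series converges uniformly. -/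
def T_CNV : Prop := ∀ᵐ ω ∂GP, ∃ b : ℕ → ℝ, Summable b ∧ ∀ k x, |term ω k x| ≤ b k

/-- The continuous random function. -/
def T_WIE : Prop := ∃ W : (ℕ × ℕ → ℝ) → C(ℝ, ℝ),
  @Measurable _ _ _ (borel C(ℝ, ℝ)) W ∧ ∀ᵐ ω ∂GP, ∀ x, HasSum (fun k => term ω k x) (W ω x)

/-- The independence of the coordinates of scale `k` and parity `a` and the others. -/
def T_IPI : Prop := ∀ (k a N : ℕ), 
  IndepFun (fun (ω : ℕ × ℕ → ℝ) (i : ℕ × ℕ) => if i.1 = k ∧ ∃ j : Fin N, i.2 = 2 * (j : ℕ) + a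
    then 0 else ω i) (fun (ω : ℕ × ℕ → ℝ) (j : Fin N) => ω (k, 2 * (j : ℕ) + a)) GP ∧
  GP.map (fun (ω : ℕ × ℕ → ℝ) (j : Fin N) => ω (k, 2 * (j : ℕ) + a)) = gN k N

/-- A series of functions from countably many values. -/
def T_SER : Prop := ∀ o : ℝ, ∃ Ψ : (ℕ × ℕ → ℝ) → ℝ → ℝ, Measurable (Function.uncurry Ψ) ∧
  ∀ (X : ℕ × ℕ → ℝ) (x v : ℝ), HasSum (fun k => term X k (x + o)) v → Ψ X x = v

/-- The series is rough on every unit interval. -/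
def T_RSE : Prop := ∀ W : (ℕ × ℕ → ℝ) → C(ℝ, ℝ),
  (∀ᵐ ω ∂GP, ∀ x, HasSum (fun k => term ω k x) (W ω x)) →
  ∀ m : ℤ, Rough GP (fun ω x => W ω (x + ((m : ℝ) + 1 / 2)))

/-- There is one transverse measure on `C(ℝ, ℝ)`. -/
def T_HAAR : Prop := ∃ μ : @Measure C(ℝ, ℝ) (borel C(ℝ, ℝ)), @IsProbabilityMeasure _ (borel _) μ ∧
  ∀ q p : ℝ, 3 < q → q < 4 → q / (q - 2) < p → ∀ f : ℝ × ℝ → ℂ, Measurable f →
  HasCompactSupport f → eLpNorm f (ENNReal.ofReal p) volume ≠ ⊤ → ∀ g : C(ℝ, ℝ),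
  μ {φ : C(ℝ, ℝ) | eLpNorm (E (shr (g + φ) f)) (ENNReal.ofReal q) volume = ⊤} = 0

end Pool.Agent.Shr
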