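import Mathlib
import Pool.Agent.Shr.Targets

set_option autoImplicit false

/-!
# IPI: independence of the coordinates of scale `k` and parity `a` and the others
-/

namespace Pool.Agent.Shr

open MeasureTheory Set Filter ProbabilityTheory
open scoped ENNReal NNReal Topology

namespace IPI_

/-- a function of the coordinates in `T` -/
theorem meas_of {α : Type} (T : Set α) (U : (α → ℝ) → (α → ℝ))
    (h1 : ∀ i, i ∉ T → ∀ ω, U ω i = 0) (h2 : ∀ i ∈ T, ∀ ω, U ω i = ω i) :
    MeasurableSpace.comap U MeasurableSpace.pi ≤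
      ⨆ n ∈ T, MeasurableSpace.comap (fun ω : α → ℝ => ω n) inferInstance := by
  unfold MeasurableSpace.pi
  rw [MeasurableSpace.comap_iSup]
  refine iSup_le fun i => ?_
  rw [MeasurableSpace.comap_comp]
  by_cases hi : i ∈ T
  · have e : ((fun b : α → ℝ => b i) ∘ U) = fun ω : α → ℝ => ω i := funext fun ω => h2 i hi ω
    rw [e]
    exact le_iSup₂ (f := fun n (_ : n ∈ T) =>
      MeasurableSpace.comap (fun ω : α → ℝ => ω n) inferInstance) i hi
  · have e : ((fun b : α → ℝ => b i) ∘ U) = fun _ : α → ℝ => (0 : ℝ) := funext fun ω => h1 i hi ω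
    rw [e, MeasurableSpace.comap_const]
    exact bot_le

theorem meas_sel {α β : Type} (T : Set α) (f : β → α) (hf : ∀ j, f j ∈ T) :
    MeasurableSpace.comap (fun (ω : α → ℝ) (j : β) => ω (f j)) MeasurableSpace.pi ≤
      ⨆ n ∈ T, MeasurableSpace.comap (fun ω : α → ℝ => ω n) inferInstance := by
  unfold MeasurableSpace.pi
  rw [MeasurableSpace.comap_iSup]
  refine iSup_le fun j => ?_
  rw [MeasurableSpace.comap_comp]
  exact le_iSup₂ (f := fun n (_ : n ∈ T) =>
    MeasurableSpace.comap (fun ω : α → ℝ => ω n) inferInstance) (f j) (hf j)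

end IPI_

open IPI_ in
theorem p_IPI : T_IPI := by
  intro k a N
  have hind : iIndepFun (fun (i : ℕ × ℕ) (ω : ℕ × ℕ → ℝ) => ω i) GP := by
    unfold GP
    exact iIndepFun_infinitePi (X := fun _ ω => ω) (fun _ => measurable_id)
  have hinj : Function.Injective (fun j : Fin N => ((k, 2 * (j : ℕ) + a) : ℕ × ℕ)) := by
    intro i j h
    have h1 : 2 * (i : ℕ) + a = 2 * (j : ℕ) + a := congrArg Prod.snd h
    exact Fin.ext (by omega)
  refine ⟨?_, ?_⟩
  · obtain ⟨T, hT⟩ : ∃ T : Set (ℕ × ℕ), T = {i | i.1 = k ∧ ∃ j : Fin N, i.2 = 2 * (j : ℕ) + a} :=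
      ⟨_, rfl⟩
    have h1 := indep_biSup_compl (s := fun i : ℕ × ℕ =>
      MeasurableSpace.comap (fun ω : ℕ × ℕ → ℝ => ω i) inferInstance)
      (fun i => (measurable_pi_apply i).comap_le) hind Tᶜ
    rw [compl_compl] at h1
    rw [IndepFun_iff_Indep]
    refine indep_of_indep_of_le_left (indep_of_indep_of_le_right h1 ?_) ?_
    · exact meas_sel T (fun j : Fin N => ((k, 2 * (j : ℕ) + a) : ℕ × ℕ))
        (fun j => by rw [hT]; exact ⟨rfl, j, rfl⟩)
    · refine meas_of Tᶜ _ (fun i hi ω => ?_) (fun i hi ω => ?_)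
      · rw [mem_compl_iff, not_not, hT] at hi
        exact if_pos hi
      · rw [mem_compl_iff, hT] at hi
        exact if_neg hi
  · have h1 := hind.precomp hinj
    have h2 := (iIndepFun_iff_map_fun_eq_pi_map (fun j => (measurable_pi_apply _).aemeasurable)).1 h1
    refine h2.trans ?_
    unfold gN GP
    congr 1
    ext1 j
    exact Measure.infinitePi_map_eval (fun i : ℕ × ℕ => gk i.1) (k, 2 * (j : ℕ) + a)

end Pool.Agent.Shr
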