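import Pool.Agent.Shr.Targets

/-!
# SHR-LAW: the block estimate on a set on which the process is rough
-/

namespace Pool.Agent.Shr

open MeasureTheory Set Filter ProbabilityTheory
open Pool.Agent.Restr (u E Et E1 Lam Ik vv PP QQ)
open scoped ENNReal NNReal Topology

namespace LAW_

lemma cells_inter {k N : ℕ} {A : Fin N → Set ℝ} {lam : ℝ → ℝ} (h : Cells k A lam) :
    Cells k (fun j => A j ∩ SS) lam where
  meas j := (h.meas j).inter measurableSet_Icc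
  disj i j hij := (h.disj i j hij).mono inter_subset_left inter_subset_left
  small j := by
    obtain ⟨c, hc⟩ := h.small j
    exact ⟨c, inter_subset_left.trans hc⟩
  mlam := h.mlam
  lam1 := h.lam1
  lam2 := h.lam2

lemma measurable_rnd {N : ℕ} {A : Fin N → Set ℝ} {lam : ℝ → ℝ} (hA : ∀ j, MeasurableSet (A j))
    (hl : Measurable lam) :
    Measurable fun q : (Fin N → ℝ) × ℝ => rnd A lam q.1 q.2 := by
  unfold rnd
  refine Finset.measurable_sum _ fun j _ => ?_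
  have h1 : Measurable (fun q : (Fin N → ℝ) × ℝ => lam q.2 * q.1 j) :=
    (hl.comp measurable_snd).mul ((measurable_pi_apply j).comp measurable_fst)
  have h2 : MeasurableSet {q : (Fin N → ℝ) × ℝ | q.2 ∈ A j} := measurable_snd (hA j)
  have h3 := h1.indicator h2
  have h4 : (fun q : (Fin N → ℝ) × ℝ => (A j).indicator (fun x => lam x * q.1 j) q.2) =
      {q : (Fin N → ℝ) × ℝ | q.2 ∈ A j}.indicator (fun q => lam q.2 * q.1 j) := by
    funext q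
    by_cases hq : q.2 ∈ A j
    · rw [indicator_of_mem hq, indicator_of_mem (show q ∈ {q : (Fin N → ℝ) × ℝ | q.2 ∈ A j} from hq)]
    · rw [indicator_of_notMem hq,
        indicator_of_notMem (show q ∉ {q : (Fin N → ℝ) × ℝ | q.2 ∈ A j} from hq)]
  rw [h4]
  exact h3

/-- The random part only sees the cell that contains the point. -/
lemma rnd_inter {N : ℕ} (A : Fin N → Set ℝ) (lam : ℝ → ℝ) (g : Fin N → ℝ) {x : ℝ} (hx : x ∈ SS) :
    rnd (fun j => A j ∩ SS) lam g x = rnd A lam g x := by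
  unfold rnd
  refine Finset.sum_congr rfl fun j _ => ?_
  by_cases hj : x ∈ A j
  · rw [indicator_of_mem hj, indicator_of_mem (show x ∈ A j ∩ SS from ⟨hj, hx⟩)]
  · rw [indicator_of_notMem hj,
      indicator_of_notMem (show x ∉ A j ∩ SS from fun h => hj h.1)]

lemma measurable_Phi {α β : Type} [MeasurableSpace α] [MeasurableSpace β] (I : Set ℝ)
    {f : ℝ × ℝ → ℂ} (hf : Measurable f) (D : α × β → ℝ → ℝ)
    (hD : Measurable (Function.uncurry D)) :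
    Measurable fun z : α × β => ∫⁻ p, ‖Et (shr (D z) f) p‖ₑ ^ 4 ∂(Lam I) := by
  have hst : StronglyMeasurable (fun q : (α × β) × (ℝ × ℝ × ℝ) => ∫ x : ℝ × ℝ,
      u (q.2.2.2 * x.1 + (q.2.2.1 * x.2 + q.2.1 * (x.1 ^ 2 + x.2 ^ 2))) *
        f (x.1, x.2 + D q.1 x.1)) := by
    apply StronglyMeasurable.integral_prod_right
      (f := fun (q : (α × β) × (ℝ × ℝ × ℝ)) (x : ℝ × ℝ) =>
        u (q.2.2.2 * x.1 + (q.2.2.1 * x.2 + q.2.1 * (x.1 ^ 2 + x.2 ^ 2))) *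
          f (x.1, x.2 + D q.1 x.1))
    apply Measurable.stronglyMeasurable
    have h1 : Measurable fun r : ((α × β) × (ℝ × ℝ × ℝ)) × (ℝ × ℝ) => D r.1.1 r.2.1 :=
      hD.comp (by fun_prop : Measurable fun r : ((α × β) × (ℝ × ℝ × ℝ)) × (ℝ × ℝ) =>
        (r.1.1, r.2.1))
    have h2 : Measurable fun r : ((α × β) × (ℝ × ℝ × ℝ)) × (ℝ × ℝ) =>
        f (r.2.1, r.2.2 + D r.1.1 r.2.1) :=
      hf.comp ((by fun_prop : Measurable fun r : ((α × β) × (ℝ × ℝ × ℝ)) × (ℝ × ℝ) =>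
        r.2.1).prodMk ((by fun_prop : Measurable fun r : ((α × β) × (ℝ × ℝ × ℝ)) × (ℝ × ℝ) =>
        r.2.2).add h1))
    exact (Restr.measurable_u.comp (by fun_prop)).mul h2
  have hm : Measurable (fun q : (α × β) × (ℝ × ℝ × ℝ) => ‖Et (shr (D q.1) f) q.2‖ₑ ^ 4) :=
    hst.measurable.enorm.pow_const 4
  unfold Lam
  exact hm.lintegral_prod_right'

end LAW_

open LAW_

theorem p_LAW (h_CORE : T_CORE) : T_LAW := by
  intro η hη
  obtain ⟨C, hC⟩ := h_CORE η hη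
  refine ⟨C, ?_⟩
  intro Ω _ P _ B k V hV hR f hf hfV
  obtain ⟨N, A, lam, X, G, Ψ, hcell, hVA, hX, hG, hΨ, hind, hlaw, hae⟩ := hR
  have hcell' := cells_inter hcell
  have hSS : ∀ x : ℝ × ℝ, x.1 ∉ SS → f x = 0 := fun x hx =>
    hf.supp x fun h => hx h.1
  have hfA : ∀ x : ℝ × ℝ, x.1 ∉ (⋃ j, A j ∩ SS) → f x = 0 := by
    intro x hx
    by_cases h1 : x.1 ∈ SS
    · refine hfV x fun h2 => hx ?_
      obtain ⟨j, hj⟩ := mem_iUnion.1 (hVA h2)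
      exact mem_iUnion.2 ⟨j, hj, h1⟩
    · exact hSS x h1
  let D : (ℕ × ℕ → ℝ) × (Fin N → ℝ) → ℝ → ℝ := fun z x =>
    Ψ z.1 x + rnd (fun j => A j ∩ SS) lam z.2 x
  have hD : Measurable (Function.uncurry D) := by
    have h1 : Measurable fun q : ((ℕ × ℕ → ℝ) × (Fin N → ℝ)) × ℝ => Ψ q.1.1 q.2 :=
      hΨ.comp (by fun_prop : Measurable fun q : ((ℕ × ℕ → ℝ) × (Fin N → ℝ)) × ℝ =>
        (q.1.1, q.2))
    have h2 : Measurable fun q : ((ℕ × ℕ → ℝ) × (Fin N → ℝ)) × ℝ =>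
        rnd (fun j => A j ∩ SS) lam q.1.2 q.2 :=
      (measurable_rnd hcell'.meas hcell'.mlam).comp
        (by fun_prop : Measurable fun q : ((ℕ × ℕ → ℝ) × (Fin N → ℝ)) × ℝ => (q.1.2, q.2))
    exact h1.add h2
  have hΦ := measurable_Phi (Ik k) hf.meas D hD
  have hXP : IsProbabilityMeasure (P.map X) := Measure.isProbabilityMeasure_map hX
  have hcongr : ∀ᵐ ω ∂P, ∫⁻ p, ‖Et (shr (B ω) f) p‖ₑ ^ 4 ∂(Lam (Ik k)) =
      ∫⁻ p, ‖Et (shr (D (X ω, G ω)) f) p‖ₑ ^ 4 ∂(Lam (Ik k)) := by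
    filter_upwards [hae] with ω hω
    have hs : shr (B ω) f = shr (D (X ω, G ω)) f := by
      funext x
      unfold shr
      by_cases h1 : x.1 ∈ SS
      · by_cases h2 : x.1 ∈ V
        · rw [hω x.1 h2]
          change _ = f (x.1, x.2 + (Ψ (X ω) x.1 + rnd (fun j => A j ∩ SS) lam (G ω) x.1))
          rw [rnd_inter A lam (G ω) h1]
        · rw [hfV (x.1, x.2 + B ω x.1) h2, hfV (x.1, x.2 + D (X ω, G ω) x.1) h2]
      · rw [hSS (x.1, x.2 + B ω x.1) h1, hSS (x.1, x.2 + D (X ω, G ω) x.1) h1]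
    rw [hs]
  calc ∫⁻ ω, ∫⁻ p, ‖Et (shr (B ω) f) p‖ₑ ^ 4 ∂(Lam (Ik k)) ∂P
      = ∫⁻ ω, ∫⁻ p, ‖Et (shr (D (X ω, G ω)) f) p‖ₑ ^ 4 ∂(Lam (Ik k)) ∂P :=
        lintegral_congr_ae hcongr
    _ = ∫⁻ z, ∫⁻ p, ‖Et (shr (D z) f) p‖ₑ ^ 4 ∂(Lam (Ik k)) ∂(P.map fun ω => (X ω, G ω)) :=
        (lintegral_map' hΦ.aemeasurable (hX.prodMk hG)).symm
    _ = ∫⁻ z, ∫⁻ p, ‖Et (shr (D z) f) p‖ₑ ^ 4 ∂(Lam (Ik k)) ∂((P.map X).prod (gN k N)) := by
        rw [(indepFun_iff_map_prod_eq_prod_map_map hX hG).1 hind, hlaw]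
    _ = ∫⁻ x, ∫⁻ g, ∫⁻ p, ‖Et (shr (D (x, g)) f) p‖ₑ ^ 4 ∂(Lam (Ik k)) ∂(gN k N) ∂(P.map X) :=
        lintegral_prod _ hΦ.aemeasurable
    _ ≤ ∫⁻ _x, (C * ENNReal.ofReal (((2 : ℝ) ^ k) ^ η / 2 ^ k) * ∫⁻ x, ‖f x‖ₑ ^ 4)
          ∂(P.map X) := by
        refine lintegral_mono fun x => ?_
        exact hC k N (fun j => A j ∩ SS) lam hcell' (fun j => inter_subset_right) f hf hfA
          (Ψ x) (hΨ.comp measurable_prodMk_left)
    _ = C * ENNReal.ofReal (((2 : ℝ) ^ k) ^ η / 2 ^ k) * ∫⁻ x, ‖f x‖ₑ ^ 4 := by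
        rw [lintegral_const, measure_univ, mul_one]

end Pool.Agent.Shr
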