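import Mathlib
import Pool.Agent.Shr.Targets
import Pool.Agent.Dil.FRO
import Pool.Agent.Dil.FUN

/-!
# The average estimate for rough processes
-/

namespace Pool.Agent.Shr

open MeasureTheory Set Filter
open Pool.Agent.Restr (u E QQ)
open Pool.Agent.H27.Fib (ind)
open Pool.Agent.Dil (sl Jk)
open scoped ENNReal NNReal Topology

theorem p_MAIN (h_RES : T_RES) (h_LAY : T_LAY) (h_ZERO : T_ZERO) (h_NORM : T_NORM) : T_MAIN := by
  intro q p hq hq4 hp
  have hq0 : 0 < q := by linarith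
  have hq2 : 0 < q - 2 := by linarith
  have hp2 : 2 < p := by
    refine lt_of_le_of_lt ?_ hp
    rw [le_div_iff₀ hq2]
    linarith
  have hp0 : 0 < p := by linarith
  have hqp : q / p < q - 2 := by
    rw [div_lt_iff₀ hp0]
    rw [div_lt_iff₀ hq2] at hp
    linarith
  obtain ⟨a, ha1, ha2, ha3⟩ : ∃ a : ℝ, (4 - q) / 2 < a ∧ a ≤ (q - 2) / 2 ∧ a < q / 2 - q / p := by
    refine ⟨min ((q - 2) / 2) (((4 - q) / 2 + (q / 2 - q / p)) / 2), lt_min ?_ ?_,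
      min_le_left _ _, lt_of_le_of_lt (min_le_right _ _) ?_⟩
    · linarith
    · linarith
    · linarith
  have ha0 : 0 < a := by linarith
  obtain ⟨η, hη⟩ : ∃ η : ℝ, η = (a - (4 - q) / 2) / 2 := ⟨_, rfl⟩
  have hη0 : 0 < η := by rw [hη]; linarith
  have hr0 : 0 < q / 2 - a := by linarith
  have hqpr : q < p * (q / 2 - a) := by
    have h3 : q / p < q / 2 - a := by linarith
    rw [div_lt_iff₀ hp0] at h3
    linarith
  obtain ⟨C1, hC1⟩ := h_RES q a η hq hq4 ha0 ha2 hη0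
  obtain ⟨C2, hC2⟩ := h_LAY q p (q / 2 - a) (by linarith) (by linarith) hr0 hqpr
  obtain ⟨C3, hC3⟩ := h_ZERO q p (by linarith) hq4 hp2.le
  obtain ⟨r, hr⟩ : ∃ r : ℝ≥0∞, r = ENNReal.ofReal (2 ^ (-η)) := ⟨_, rfl⟩
  have hr1 : r < 1 := by
    rw [hr, ← ENNReal.ofReal_one]
    exact (ENNReal.ofReal_lt_ofReal_iff one_pos).2
      (Real.rpow_lt_one_of_one_lt_of_neg (by norm_num) (by linarith))
  have hStop : (1 - r)⁻¹ ≠ ⊤ := by
    rw [ENNReal.inv_ne_top]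
    exact (tsub_pos_of_lt hr1).ne'
  refine ⟨C3 + C2 * C1 * ((1 - r)⁻¹).toNNReal, ?_⟩
  intro Ω _ P _ B hB hR f hf hs hN
  obtain ⟨hn1, hn2, hn3⟩ := h_NORM q hq0 f hf Ω B hB
  obtain ⟨N, hNd⟩ : ∃ N : ℝ≥0∞, N = eLpNorm f (ENNReal.ofReal p) volume := ⟨_, rfl⟩
  rw [← hNd]
  have hmeas : ∀ k : ℕ, Measurable (fun ω : Ω => ∫⁻ t in Jk k, sl q (shr (B ω) f) t) := fun k =>
    Measurable.lintegral_prod_right' hn2
  have hsmall : ∫⁻ ω, (∫⁻ t in {t : ℝ | |t| < 1}, sl q (shr (B ω) f) t) ∂P ≤ C3 * N ^ q := by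
    calc ∫⁻ ω, (∫⁻ t in {t : ℝ | |t| < 1}, sl q (shr (B ω) f) t) ∂P
        ≤ ∫⁻ _ω, C3 * N ^ q ∂P := by
          apply lintegral_mono
          intro ω
          dsimp only
          rw [hNd]
          exact hC3 f hf hs (B ω) (hB.comp measurable_prodMk_left)
      _ = C3 * N ^ q := by rw [lintegral_const, measure_univ, mul_one]
  have hblk : ∀ k : ℕ, ∫⁻ ω, (∫⁻ t in Jk k, sl q (shr (B ω) f) t) ∂P ≤
      C2 * C1 * N ^ q * r ^ k := by
    intro k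
    have h5 := hC2 Ω P B hB (Jk k) (Dil.FUN_.measurableSet_Jk k)
      (C1 * ENNReal.ofReal (((2 : ℝ) ^ k) ^ ((4 - q) / 2 - a + η)))
      (fun A hA hAQ => hC1 Ω P B hB hR A hA hAQ k) f hf hs hN
    unfold blk at h5
    refine h5.trans (le_of_eq ?_)
    have e1 : ENNReal.ofReal (((2 : ℝ) ^ k) ^ ((4 - q) / 2 - a + η)) = r ^ k := by
      rw [hr, ← ENNReal.ofReal_pow (by positivity)]
      congr 1
      rw [← Real.rpow_natCast, ← Real.rpow_natCast, ← Real.rpow_mul (by norm_num),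
        ← Real.rpow_mul (by norm_num)]
      congr 1
      rw [hη]
      ring
    rw [e1, hNd]
    ring
  calc ∫⁻ ω, eLpNorm (E (shr (B ω) f)) (ENNReal.ofReal q) volume ^ q ∂P
      = ∫⁻ ω, (∫⁻ t, sl q (shr (B ω) f) t) ∂P := lintegral_congr fun ω => hn1 ω
    _ ≤ ∫⁻ ω, ((∫⁻ t in {t : ℝ | |t| < 1}, sl q (shr (B ω) f) t) +
          ∑' k : ℕ, ∫⁻ t in Jk k, sl q (shr (B ω) f) t) ∂P :=
        lintegral_mono fun ω => Dil.FRO_.split _
    _ = (∫⁻ ω, (∫⁻ t in {t : ℝ | |t| < 1}, sl q (shr (B ω) f) t) ∂P) +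
          ∑' k : ℕ, ∫⁻ ω, (∫⁻ t in Jk k, sl q (shr (B ω) f) t) ∂P := by
        rw [lintegral_add_right _ (Measurable.tsum hmeas),
          lintegral_tsum fun k => (hmeas k).aemeasurable]
    _ ≤ C3 * N ^ q + ∑' k : ℕ, C2 * C1 * N ^ q * r ^ k := by
        gcongr with k
        exact hblk k
    _ = C3 * N ^ q + C2 * C1 * N ^ q * (1 - r)⁻¹ := by
        rw [ENNReal.tsum_mul_left, ENNReal.tsum_geometric]
    _ = _ := by
        rw [← ENNReal.coe_toNNReal hStop]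
        push_cast
        simp only [ENNReal.toNNReal_coe]
        ring

end Pool.Agent.Shr
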