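import Mathlib
import Pool.Agent.Shr.Targets

/-!
# The mean over the Gaussian variables
-/

namespace Pool.Agent.Shr

open MeasureTheory Set Filter ProbabilityTheory
open Pool.Agent.Restr (u E Et E1 Lam Ik vv PP QQ)
open scoped ENNReal NNReal Topology

namespace MeanP

theorem gauss_split {φ : ℝ → ℂ} (hφ : Measurable φ) {M : ℝ} (hM : ∀ x, ‖φ x‖ ≤ M)
    (c ρ : ℝ) (v w : ℝ≥0) (h : c ^ 2 * (v : ℝ) = w + ρ ^ 2) :
    ∫ s, φ (c * s) ∂(gaussianReal 0 v) =
      ∫ s, ∫ r, φ (s + ρ * r) ∂(gaussianReal 0 1) ∂(gaussianReal 0 w) := by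
  have h1 : ∫ s, φ (c * s) ∂(gaussianReal 0 v) =
      ∫ y, φ y ∂(gaussianReal 0 (.mk (c ^ 2) (sq_nonneg _) * v)) := by
    have := gaussianReal_map_const_mul (μ := 0) (v := v) c
    rw [mul_zero] at this
    rw [← this, integral_map (by fun_prop) hφ.aestronglyMeasurable]
  have h2 : (gaussianReal 0 (.mk (c ^ 2) (sq_nonneg _) * v)) =
      (gaussianReal 0 w).conv ((gaussianReal 0 1).map (ρ * ·)) := by
    rw [gaussianReal_map_const_mul (μ := 0) (v := 1) ρ, mul_zero, gaussianReal_conv_gaussianReal,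
      add_zero]
    congr 1
    apply NNReal.eq
    rw [NNReal.coe_mul, NNReal.coe_add, NNReal.coe_mul]
    change c ^ 2 * (v : ℝ) = w + ρ ^ 2 * 1
    rw [h, mul_one]
  rw [h1, h2, Measure.conv, integral_map (by fun_prop) hφ.aestronglyMeasurable, integral_prod]
  · refine integral_congr_ae (Eventually.of_forall fun s => ?_)
    simp only
    rw [integral_map (by fun_prop)]
    exact (hφ.comp (by fun_prop)).aestronglyMeasurable
  · have : IsProbabilityMeasure ((gaussianReal 0 1).map (ρ * ·)) :=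
      Measure.isProbabilityMeasure_map (by fun_prop)
    refine Integrable.of_bound (C := M) (Measurable.aestronglyMeasurable ?_)
      (Eventually.of_forall fun z => hM _)
    exact hφ.comp (by fun_prop)

theorem lintegral_shiftf {F : ℝ × ℝ → ℝ≥0∞} (hF : Measurable F) {c : ℝ → ℝ} (hc : Measurable c) :
    ∫⁻ x : ℝ × ℝ, F (x.1, x.2 - c x.1) = ∫⁻ x, F x := by
  have hm : Measurable (fun x : ℝ × ℝ => F (x.1, x.2 - c x.1)) :=
    hF.comp (measurable_fst.prodMk (measurable_snd.sub (hc.comp measurable_fst)))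
  rw [Measure.volume_eq_prod, lintegral_prod _ hm.aemeasurable, lintegral_prod _ hF.aemeasurable]
  refine lintegral_congr fun x => ?_
  exact lintegral_sub_right_eq_self (fun y => F (x, y)) (c x)

/-- The first Gaussian average. -/
noncomputable def fp (h : ℝ × ℝ → ℂ) (ρ : ℝ → ℝ) (x : ℝ × ℝ) : ℂ :=
  ∫ s, h (x.1, x.2 - ρ x.1 * s) ∂(gaussianReal 0 1)

section

variable {h : ℝ × ℝ → ℂ} {ρ : ℝ → ℝ}

theorem meas_sh (hh : Measurable h) (hρ : Measurable ρ) :
    Measurable (fun z : (ℝ × ℝ) × ℝ => h (z.1.1, z.1.2 - ρ z.1.1 * z.2)) := by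
  apply hh.comp
  have h1 : Measurable (fun z : (ℝ × ℝ) × ℝ => ρ z.1.1) :=
    hρ.comp (measurable_fst.comp measurable_fst)
  exact (measurable_fst.comp measurable_fst).prodMk
    ((measurable_snd.comp measurable_fst).sub (h1.mul measurable_snd))

theorem meas_fp (hh : Measurable h) (hρ : Measurable ρ) : Measurable (fp h ρ) := by
  have : StronglyMeasurable (fun x : ℝ × ℝ => ∫ s, h (x.1, x.2 - ρ x.1 * s)
      ∂(gaussianReal 0 1)) := by
    apply StronglyMeasurable.integral_prod_right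
      (f := fun (x : ℝ × ℝ) (s : ℝ) => h (x.1, x.2 - ρ x.1 * s))
    exact (meas_sh hh hρ).stronglyMeasurable
  exact this.measurable

theorem shift_eq {F : ℝ × ℝ → ℝ≥0∞} (hF : Measurable F) (hρ : Measurable ρ) (s : ℝ) :
    ∫⁻ x : ℝ × ℝ, F (x.1, x.2 - ρ x.1 * s) = ∫⁻ x, F x :=
  lintegral_shiftf hF (c := fun a => ρ a * s) (hρ.mul_const s)

theorem pp_fp (hh : PP h) (hρ : Measurable ρ) : PP (fp h ρ) where
  meas := meas_fp hh.meas hρ
  int := by
    have hm := meas_sh hh.meas hρ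
    have hi : Integrable (fun z : (ℝ × ℝ) × ℝ => h (z.1.1, z.1.2 - ρ z.1.1 * z.2))
        (volume.prod (gaussianReal 0 1)) := by
      refine ⟨hm.aestronglyMeasurable, ?_⟩
      unfold HasFiniteIntegral
      rw [lintegral_prod_symm _ hm.enorm.aemeasurable]
      have : ∀ s : ℝ, ∫⁻ x : ℝ × ℝ, ‖h (x.1, x.2 - ρ x.1 * s)‖ₑ = ∫⁻ x, ‖h x‖ₑ := fun s =>
        shift_eq hh.meas.enorm hρ s
      simp only [this]
      rw [lintegral_const, measure_univ, mul_one]
      exact hh.int.2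
    exact hi.integral_prod_left
  bdd := by
    obtain ⟨M, hM⟩ := hh.bdd
    refine ⟨M, fun x => ?_⟩
    unfold fp
    refine (norm_integral_le_of_norm_le_const (Eventually.of_forall fun s => hM _)).trans ?_
    simp
  supp := fun x z hx => by
    unfold fp
    have : ∀ s : ℝ, h (x, z - ρ x * s) = 0 := fun s => hh.supp x _ hx
    simp [this]

theorem L4_fp (hh : PP h) (hρ : Measurable ρ) :
    ∫⁻ x, ‖fp h ρ x‖ₑ ^ 4 ≤ ∫⁻ x, ‖h x‖ₑ ^ 4 := by
  have hm := meas_sh hh.meas hρ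
  calc ∫⁻ x, ‖fp h ρ x‖ₑ ^ 4
      ≤ ∫⁻ x : ℝ × ℝ, ∫⁻ s, ‖h (x.1, x.2 - ρ x.1 * s)‖ₑ ^ 4 ∂(gaussianReal 0 1) := by
        refine lintegral_mono fun x => ?_
        have hj := Restr.rpow_lintegral_le (m := gaussianReal 0 1) (q := 4) (by norm_num)
          (F := fun s => ‖h (x.1, x.2 - ρ x.1 * s)‖ₑ)
          (hm.comp measurable_prodMk_left).enorm.aemeasurable
        have e4 : ∀ y : ℝ≥0∞, y ^ (4 : ℝ) = y ^ 4 := fun y => by
          rw [← ENNReal.rpow_natCast]; norm_num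
        simp only [e4] at hj
        calc ‖fp h ρ x‖ₑ ^ 4 ≤ (∫⁻ s, ‖h (x.1, x.2 - ρ x.1 * s)‖ₑ ∂(gaussianReal 0 1)) ^ 4 := by
              gcongr
              exact enorm_integral_le_lintegral_enorm _
          _ ≤ _ := hj
    _ = ∫⁻ s, (∫⁻ x : ℝ × ℝ, ‖h (x.1, x.2 - ρ x.1 * s)‖ₑ ^ 4) ∂(gaussianReal 0 1) :=
        lintegral_lintegral_swap (hm.enorm.pow_const 4).aemeasurable
    _ = ∫⁻ _, (∫⁻ x : ℝ × ℝ, ‖h x‖ₑ ^ 4) ∂(gaussianReal 0 1) := by
        refine lintegral_congr fun s => ?_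
        exact shift_eq (hh.meas.enorm.pow_const 4) hρ s
    _ = _ := by rw [lintegral_const, measure_univ, mul_one]

end

theorem vv_two (k : ℕ) : ((vv k 2 : ℝ≥0) : ℝ) = (vv k 0 : ℝ) / 4 := by
  have h1 := congrArg (fun x : ℝ≥0 => (x : ℝ)) (Restr.vv_add k 0)
  have h2 := congrArg (fun x : ℝ≥0 => (x : ℝ)) (Restr.vv_add k 1)
  simp only [NNReal.coe_add, zero_add] at h1 h2
  have e : (1 : ℕ) + 1 = 2 := rfl
  rw [e] at h2
  linarith

/-- The standard deviation of the first average. -/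
noncomputable def rho (k : ℕ) (lam : ℝ → ℝ) (a : ℝ) : ℝ :=
  √((vv k 0 : ℝ) * (lam a ^ 2 - 1 / 4))

theorem mean_eq (k : ℕ) {lam : ℝ → ℝ} (h1 : ∀ x, 1 / 2 ≤ lam x) {h : ℝ × ℝ → ℂ} (hh : PP h)
    (x : ℝ × ℝ) :
    ∫ s, h (x.1, x.2 + lam x.1 * s) ∂(gk k) = Restr.S (vv k 2) (fp h (rho k lam)) x := by
  obtain ⟨M, hM⟩ := hh.bdd
  have hφ : Measurable (fun y : ℝ => h (x.1, x.2 - y)) := hh.meas.comp (by fun_prop)
  have hv : (0 : ℝ) ≤ (vv k 0 : ℝ) := NNReal.coe_nonneg _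
  have hl : 0 ≤ lam x.1 ^ 2 - 1 / 4 := by
    have := h1 x.1
    nlinarith
  have key := gauss_split (φ := fun y : ℝ => h (x.1, x.2 - y)) hφ (M := M) (fun y => hM _)
    (-(lam x.1)) (rho k lam x.1) (vv k 0) (vv k 2) (by
      rw [vv_two]
      unfold rho
      rw [Real.sq_sqrt (mul_nonneg hv hl)]
      ring)
  unfold gk
  have e1 : ∀ s : ℝ, h (x.1, x.2 + lam x.1 * s) = h (x.1, x.2 - -(lam x.1) * s) := fun s => by
    congr 2
    ring
  simp only [e1]
  rw [key]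
  unfold Restr.S fp
  refine integral_congr_ae (Eventually.of_forall fun s => ?_)
  simp only [sub_sub]

end MeanP

open MeanP in
theorem p_MEAN : T_MEAN := by
  intro η hη
  set θ : ℝ := min η (1 / 2) with hθd
  have hθ : 0 < θ := lt_min hη (by norm_num)
  have hθ1 : θ < 1 := (min_le_right _ _).trans_lt (by norm_num)
  have hCb : 0 ≤ 8 * Restr.Cb θ := by
    have := Restr.Cb_pos hθ
    positivity
  refine ⟨(8 * Restr.Cb θ).toNNReal, ?_⟩
  intro k lam hlam h1 h2 h hh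
  have hρ : Measurable (rho k lam) := by
    unfold rho
    exact (((hlam.pow_const 2).sub_const _).const_mul _).sqrt
  have e : (fun x : ℝ × ℝ => ∫ s, h (x.1, x.2 + lam x.1 * s) ∂(gk k)) =
      Restr.S (vv k 2) (fp h (rho k lam)) := funext fun x => mean_eq k h1 hh x
  rw [e]
  refine (Restr.piece4 hθ hθ1 (pp_fp hh hρ) k 2).trans ?_
  have hnum : Restr.Cb θ * 2 ^ (((2 : ℕ) : ℝ) + 1 - k + k * θ) ≤
      8 * Restr.Cb θ * (((2 : ℝ) ^ k) ^ η / 2 ^ k) := by
    have hC := Restr.Cb_pos hθ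
    have e1 : (2 : ℝ) ^ (((2 : ℕ) : ℝ) + 1 - k + k * θ) = 8 * (((2 : ℝ) ^ k) ^ θ / 2 ^ k) := by
      have hs : (((2 : ℕ) : ℝ) + 1 - k + k * θ) = 3 - (k : ℝ) + k * θ := by
        push_cast
        ring
      rw [hs, Real.rpow_add (by norm_num), Real.rpow_sub (by norm_num), Real.rpow_natCast,
        Real.rpow_mul (by norm_num), Real.rpow_natCast]
      have : (2 : ℝ) ^ (3 : ℝ) = 8 := by
        have := Real.rpow_natCast (2 : ℝ) 3
        norm_num at this ⊢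
      rw [this]
      ring
    rw [e1]
    have h3 : ((2 : ℝ) ^ k) ^ θ ≤ ((2 : ℝ) ^ k) ^ η :=
      Real.rpow_le_rpow_of_exponent_le (one_le_pow₀ (by norm_num)) (min_le_left _ _)
    calc Restr.Cb θ * (8 * (((2 : ℝ) ^ k) ^ θ / 2 ^ k))
        = 8 * Restr.Cb θ * (((2 : ℝ) ^ k) ^ θ / 2 ^ k) := by ring
      _ ≤ _ := by gcongr
  have hC2 : (((8 * Restr.Cb θ).toNNReal : ℝ≥0) : ℝ≥0∞) = ENNReal.ofReal (8 * Restr.Cb θ) := rfl
  rw [hC2, ← ENNReal.ofReal_mul hCb]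
  exact mul_le_mul' (ENNReal.ofReal_le_ofReal hnum) (L4_fp hh hρ)

end Pool.Agent.Shr
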