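import Pool.Agent.Shr.Targets
import Pool.Agent.Dil.NORM

/-!
# NORM
-/

namespace Pool.Agent.Shr

open MeasureTheory Set Filter
open Pool.Agent.Restr (u E QQ)
open Pool.Agent.Dil (sl)
open scoped ENNReal NNReal Topology

namespace NORM_

/-- Joint measurability of the extension of the sheared functions. -/
theorem measurable_joint {f : ℝ × ℝ → ℂ} (hf : Measurable f) {Ω : Type} [MeasurableSpace Ω]
    {B : Ω → ℝ → ℝ} (hB : Measurable (Function.uncurry B)) :
    Measurable (fun p : Ω × (ℝ × ℝ × ℝ) => E (shr (B p.1) f) p.2) := by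
  have h1 : Measurable (fun p : (Ω × (ℝ × ℝ × ℝ)) × (ℝ × ℝ) =>
      u (p.1.2.1 * p.2.1 + (p.1.2.2.1 * p.2.2 + p.1.2.2.2 * (p.2.1 ^ 2 + p.2.2 ^ 2))) *
        shr (B p.1.1) f p.2) := by
    apply Measurable.mul
    · have hc : Continuous (fun p : (ℝ × ℝ × ℝ) × (ℝ × ℝ) =>
          u (p.1.1 * p.2.1 + (p.1.2.1 * p.2.2 + p.1.2.2 * (p.2.1 ^ 2 + p.2.2 ^ 2)))) := by
        have hu : Continuous u := by
          unfold u
          fun_prop
        exact hu.comp (by fun_prop)
      exact hc.measurable.comp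
        ((measurable_snd.comp measurable_fst).prodMk measurable_snd)
    · unfold shr
      have hB' : Measurable fun p : (Ω × (ℝ × ℝ × ℝ)) × (ℝ × ℝ) => B p.1.1 p.2.1 :=
        hB.comp ((measurable_fst.comp measurable_fst).prodMk (measurable_fst.comp measurable_snd))
      exact hf.comp ((measurable_fst.comp measurable_snd).prodMk
        ((measurable_snd.comp measurable_snd).add hB'))
  exact (h1.stronglyMeasurable.integral_prod_right).measurable

theorem part1 {q : ℝ} (hq : 0 < q) {f : ℝ × ℝ → ℂ} (hf : Measurable f) {Ω : Type}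
    [MeasurableSpace Ω] {B : Ω → ℝ → ℝ} (hB : Measurable (Function.uncurry B)) (ω : Ω) :
    eLpNorm (E (shr (B ω) f)) (ENNReal.ofReal q) volume ^ q = ∫⁻ t, sl q (shr (B ω) f) t := by
  have hb : Measurable (B ω) := hB.comp (measurable_const.prodMk measurable_id)
  have hE : Measurable (E (shr (B ω) f)) := Pool.Agent.Restr.measurable_E
    (hf.comp (measurable_fst.prodMk (measurable_snd.add (hb.comp measurable_fst))))
  rw [← Pool.Agent.Restr.lin_q hq,
    Pool.Agent.Dil.NORM_.lintegral_last (hE.enorm.pow_const q)]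
  rfl

theorem part2 (q : ℝ) {f : ℝ × ℝ → ℂ} (hf : Measurable f) {Ω : Type}
    [MeasurableSpace Ω] {B : Ω → ℝ → ℝ} (hB : Measurable (Function.uncurry B)) :
    Measurable (fun z : Ω × ℝ => sl q (shr (B z.1) f) z.2) := by
  have hm : Measurable fun p : (Ω × ℝ) × (ℝ × ℝ) => (p.1.1, (p.2.1, p.2.2, p.1.2)) :=
    (measurable_fst.comp measurable_fst).prodMk ((measurable_fst.comp measurable_snd).prodMk
      ((measurable_snd.comp measurable_snd).prodMk (measurable_snd.comp measurable_fst)))
  have h := ((measurable_joint hf hB).comp hm).enorm.pow_const q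
  exact h.lintegral_prod_right'

theorem part3 {q : ℝ} (hq : 0 < q) {f : ℝ × ℝ → ℂ} (hf : Measurable f) {Ω : Type}
    [MeasurableSpace Ω] {B : Ω → ℝ → ℝ} (hB : Measurable (Function.uncurry B)) :
    Measurable (fun ω => eLpNorm (E (shr (B ω) f)) (ENNReal.ofReal q) volume) := by
  have h3 := (part2 q hf hB).lintegral_prod_right' (ν := (volume : Measure ℝ))
  have h4 : (fun ω : Ω => eLpNorm (E (shr (B ω) f)) (ENNReal.ofReal q) volume) =
      fun ω : Ω => (∫⁻ t, sl q (shr (B ω) f) t) ^ (1 / q) := by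
    funext ω
    rw [← part1 hq hf hB ω, ← ENNReal.rpow_mul, mul_one_div_cancel hq.ne', ENNReal.rpow_one]
  rw [h4]
  exact h3.pow_const _

end NORM_

open NORM_ in
/-- NORM. -/
theorem p_NORM : T_NORM := by
  intro q hq f hf Ω _ B hB
  exact ⟨part1 hq hf hB, part2 q hf hB, part3 hq hf hB⟩

end Pool.Agent.Shr
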