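import Pool.Agent.Shr.CORE

/-!
# One cell without randomness
-/

set_option autoImplicit false

namespace Pool.Agent.Shr

open MeasureTheory Set Filter ProbabilityTheory
open Pool.Agent.Restr (u E Et E1 Lam Ik vv PP QQ)
open scoped ENNReal NNReal Topology

namespace ONE_

open CORE_

/-- The planar extension of the shifted slice. -/
noncomputable def R1 (f : ℝ × ℝ → ℂ) (ψ : ℝ → ℝ) (b t x : ℝ) : ℂ :=
  E1 (fun y => f (x, y + ψ x)) (b, t)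

theorem R1_eq (f : ℝ × ℝ → ℂ) (ψ : ℝ → ℝ) (b t x : ℝ) :
    R1 f ψ b t x = Rb f ψ (fun _ => 0) b t 0 x := by
  unfold R1 Rb
  simp

theorem meas_R1 {f : ℝ × ℝ → ℂ} (hf : Measurable f) {ψ : ℝ → ℝ} (hψ : Measurable ψ) :
    Measurable (fun q : ℝ × ℝ × ℝ => R1 f ψ q.1 q.2.1 q.2.2) := by
  have h := (meas_Rb hf hψ (measurable_const (a := (0 : ℝ)))).comp
    (by fun_prop : Measurable fun q : ℝ × ℝ × ℝ => (q, (0 : ℝ)))
  have e : (fun q : ℝ × ℝ × ℝ => R1 f ψ q.1 q.2.1 q.2.2) =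
      (fun q : (ℝ × ℝ × ℝ) × ℝ => Rb f ψ (fun _ => 0) q.1.1 q.1.2.1 q.2 q.1.2.2) ∘
        (fun q : ℝ × ℝ × ℝ => (q, (0 : ℝ))) := by
    funext q
    exact R1_eq f ψ _ _ _
  rw [e]
  exact h

theorem swap3 {I U : Set ℝ} {Φ : ℝ × ℝ × ℝ → ℝ≥0∞} (hΦ : Measurable Φ) :
    ∫⁻ t in I, ∫⁻ b, ∫⁻ x in U, Φ (b, t, x) = ∫⁻ x in U, ∫⁻ t in I, ∫⁻ b, Φ (b, t, x) := by
  have h := swap4 (I := I) (U := U) (m := Measure.dirac (0 : ℝ))
    (Φ := fun q : (ℝ × ℝ × ℝ) × ℝ => Φ q.1) (hΦ.comp measurable_fst)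
  simpa using h

end ONE_

open CORE_ ONE_ in
/-- ONE. -/
theorem p_ONE (h_STR : T_STR) (h_PLAN : T_PLAN) : T_ONE := by
  intro η hη
  obtain ⟨C, hC⟩ := h_PLAN η hη
  refine ⟨Real.toNNReal (2 * Real.pi) * C, ?_⟩
  intro k f hf hc ψ hψ
  obtain ⟨c, h0⟩ := hc
  obtain ⟨M, hM⟩ := hf.bdd
  set A : Set ℝ := Icc c (c + 1 / 2 ^ k) with hA
  have hAm : MeasurableSet A := measurableSet_Icc
  set W : ℝ≥0∞ := ENNReal.ofReal (((2 : ℝ) ^ k) ^ η) with hW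
  set K : ℝ≥0∞ := ENNReal.ofReal (2 * Real.pi * (1 / 2 ^ k) ^ 2) with hK
  have hKt : K ≠ ⊤ := ENNReal.ofReal_ne_top
  have hm : Measurable (shr ψ f) :=
    hf.meas.comp (measurable_fst.prodMk (measurable_snd.add (hψ.comp measurable_fst)))
  have hR := ((meas_R1 hf.meas hψ).enorm).pow_const 4
  have hcell : ∀ t b : ℝ, ∫⁻ a : ℝ, ‖Et (shr ψ f) (t, b, a)‖ₑ ^ 4 ≤
      K * ∫⁻ x in A, ‖R1 f ψ b t x‖ₑ ^ 4 := by
    intro t b
    have hm1 : Measurable (R1 f ψ b t) := (meas_R1 hf.meas hψ).comp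
      (by fun_prop : Measurable fun x : ℝ => ((b, t, x) : ℝ × ℝ × ℝ))
    have h1 := (h_STR k A hAm ⟨c, Subset.rfl⟩ (R1 f ψ b t) hm1
      ⟨M, fun x => by rw [R1_eq]; exact bdd_Rb hf hM ψ _ b t 0 x⟩ t).2.2
    refine le_trans (le_of_eq ?_) h1
    refine lintegral_congr fun a => ?_
    rw [Et_fub (shr_int hf hψ) hAm (fun x hx => h0 _ hx)]
    rfl
  have hE : Measurable (fun p => ‖E (shr ψ f) p‖ₑ ^ 4) :=
    (Pool.Agent.Restr.measurable_E hm).enorm.pow_const 4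
  have hL := Pool.Agent.Restr.lintegral_Lam (I := Ik k) hE
  have hnum : K * W ≤ ((Real.toNNReal (2 * Real.pi) : ℝ≥0) : ℝ≥0∞) *
        ENNReal.ofReal (((2 : ℝ) ^ k) ^ η / 2 ^ k) := by
    have h1 : ((Real.toNNReal (2 * Real.pi) : ℝ≥0) : ℝ≥0∞) = ENNReal.ofReal (2 * Real.pi) := rfl
    rw [h1, hW, hK, ← ENNReal.ofReal_mul (by positivity), ← ENNReal.ofReal_mul (by positivity)]
    apply ENNReal.ofReal_le_ofReal
    have h2 : (1 / 2 ^ k : ℝ) ≤ 1 := by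
      rw [div_le_one (by positivity)]
      exact one_le_pow₀ (by norm_num)
    have h3 : (1 / 2 ^ k : ℝ) ^ 2 ≤ 1 / 2 ^ k := by
      rw [sq]
      exact mul_le_of_le_one_left (by positivity) h2
    calc 2 * Real.pi * (1 / 2 ^ k) ^ 2 * ((2 : ℝ) ^ k) ^ η
        ≤ 2 * Real.pi * (1 / 2 ^ k) * ((2 : ℝ) ^ k) ^ η := by gcongr
      _ = _ := by ring
  calc ∫⁻ p, ‖Et (shr ψ f) p‖ₑ ^ 4 ∂(Lam (Ik k))
      = ∫⁻ t in Ik k, ∫⁻ b, ∫⁻ a, ‖E (shr ψ f) (a, b, t)‖ₑ ^ 4 := hL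
    _ ≤ ∫⁻ t in Ik k, ∫⁻ b, K * ∫⁻ x in A, ‖R1 f ψ b t x‖ₑ ^ 4 :=
        lintegral_mono fun t => lintegral_mono fun b => hcell t b
    _ = K * ∫⁻ t in Ik k, ∫⁻ b, ∫⁻ x in A, ‖R1 f ψ b t x‖ₑ ^ 4 := by
        simp_rw [lintegral_const_mul' K _ hKt]
    _ = K * ∫⁻ x in A, ∫⁻ t in Ik k, ∫⁻ b, ‖R1 f ψ b t x‖ₑ ^ 4 := by
        congr 1
        exact swap3 hR
    _ ≤ K * ∫⁻ x in A, C * W * ∫⁻ y, ‖f (x, y)‖ₑ ^ 4 := by
        gcongr with x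
        exact hC (fun y => f (x, y)) (hf.meas.comp measurable_prodMk_left)
            (fun y hy => hf.supp _ (fun hq => hy hq.2)) (ψ x) k
    _ = K * (C * W * ∫⁻ x in A, ∫⁻ y, ‖f (x, y)‖ₑ ^ 4) := by
        rw [lintegral_const_mul' _ _ (ENNReal.mul_ne_top ENNReal.coe_ne_top
            ENNReal.ofReal_ne_top)]
    _ ≤ K * (C * W * ∫⁻ x, ‖f x‖ₑ ^ 4) := by
        gcongr
        refine le_trans (setLIntegral_le_lintegral _ _) (le_of_eq ?_)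
        rw [Measure.volume_eq_prod, lintegral_prod _ (hf.meas.enorm.pow_const 4).aemeasurable]
    _ = (K * W) * (C * ∫⁻ x, ‖f x‖ₑ ^ 4) := by ring
    _ ≤ (((Real.toNNReal (2 * Real.pi) : ℝ≥0) : ℝ≥0∞) *
        ENNReal.ofReal (((2 : ℝ) ^ k) ^ η / 2 ^ k)) * (C * ∫⁻ x, ‖f x‖ₑ ^ 4) := by gcongr
    _ = _ := by
        push_cast
        ring

end Pool.Agent.Shr
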