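import Pool.Agent.Shr.Targets

/-!
# The planar fourth power estimate for translates
-/

set_option autoImplicit false

namespace Pool.Agent.Shr

open MeasureTheory Set Filter ProbabilityTheory
open Pool.Agent.Restr (u E Et E1 Lam Ik vv PP QQ)
open scoped ENNReal NNReal Topology

namespace PLAN_

/-- Translates of `g` change `E1 g` by a unimodular factor and a shift. -/
lemma shift (g : ℝ → ℂ) (b w t : ℝ) :
    E1 (fun x => g (x + b)) (w, t) = u (-(w * b) + t * b ^ 2) * E1 g (w - 2 * t * b, t) := by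
  unfold E1
  have h := integral_add_right_eq_self (μ := (volume : Measure ℝ))
    (fun y : ℝ => u (w * (y - b) + t * (y - b) ^ 2) * g y) b
  simp only [add_sub_cancel_right] at h
  rw [h, ← integral_const_mul]
  refine integral_congr_ae (Eventually.of_forall fun y => ?_)
  show u (w * (y - b) + t * (y - b) ^ 2) * g y =
    u (-(w * b) + t * b ^ 2) * (u ((w - 2 * t * b) * y + t * y ^ 2) * g y)
  rw [← mul_assoc, ← Restr.u_add]
  congr 2
  ring

lemma inner_eq (g : ℝ → ℂ) (b t : ℝ) :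
    ∫⁻ w : ℝ, ‖E1 (fun x => g (x + b)) (w, t)‖ₑ ^ 4 = ∫⁻ w : ℝ, ‖E1 g (w, t)‖ₑ ^ 4 := by
  rw [← lintegral_sub_right_eq_self (fun w : ℝ => ‖E1 g (w, t)‖ₑ ^ 4) (2 * t * b)]
  refine lintegral_congr fun w => ?_
  rw [shift, enorm_mul, Restr.enorm_u, one_mul]

end PLAN_

open PLAN_ in
/-- PLAN -/
theorem p_PLAN : T_PLAN := by
  intro η hη
  obtain ⟨θ, hθ⟩ : ∃ θ : ℝ, θ = min η (1 / 2) := ⟨_, rfl⟩
  have hθ0 : 0 < θ := by rw [hθ]; exact lt_min hη (by norm_num)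
  have hθ1 : θ < 1 := by rw [hθ]; exact lt_of_le_of_lt (min_le_right _ _) (by norm_num)
  have hθη : θ ≤ η := by rw [hθ]; exact min_le_left _ _
  refine ⟨(Real.exp 4 * (2 * Real.pi) * √Real.pi ^ θ * (4 * (2 / θ))).toNNReal, ?_⟩
  intro g hg hg0 b k
  have hT : (0 : ℝ) < 2 ^ k := by positivity
  obtain ⟨T, hTdef⟩ : ∃ T : ℝ, T = 2 ^ k := ⟨_, rfl⟩
  rw [← hTdef] at hT ⊢
  have hδ : 0 < 1 / T ^ 2 := by positivity
  have hm := (Restr.measurable_E1 hg).enorm.pow_const 4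
  simp only [inner_eq]
  have h1 : ∫⁻ t in Ik k, ∫⁻ w : ℝ, ‖E1 g (w, t)‖ₑ ^ 4 ≤
      ENNReal.ofReal (Real.exp 4) * ∫⁻ w : ℝ × ℝ, ‖E1 g w‖ₑ ^ 4 *
        ENNReal.ofReal (Real.exp (-(1 / T ^ 2) * w.2 ^ 2)) := by
    have hm2 : Measurable fun w : ℝ × ℝ => ‖E1 g w‖ₑ ^ 4 *
        ENNReal.ofReal (Real.exp (-(1 / T ^ 2) * w.2 ^ 2)) := hm.mul (by fun_prop)
    rw [Measure.volume_eq_prod, lintegral_prod_symm _ hm2.aemeasurable, ← lintegral_const_mul' _ _
      ENNReal.ofReal_ne_top]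
    calc ∫⁻ t in Ik k, ∫⁻ w : ℝ, ‖E1 g (w, t)‖ₑ ^ 4
        ≤ ∫⁻ t in Ik k, ENNReal.ofReal (Real.exp 4) * ∫⁻ w : ℝ, ‖E1 g (w, t)‖ₑ ^ 4 *
            ENNReal.ofReal (Real.exp (-(1 / T ^ 2) * t ^ 2)) := by
          refine setLIntegral_mono' (by unfold Restr.Ik; exact measurableSet_Ico) fun t ht => ?_
          unfold Restr.Ik at ht
          rw [← hTdef] at ht
          have h4 : T⁻¹ * t ≤ 2 := by
            rw [inv_mul_le_iff₀ hT]
            linarith [ht.2]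
          have h5 : 0 ≤ T⁻¹ * t := by
            have := hT.trans_le ht.1
            positivity
          have h3 : 1 / T ^ 2 * t ^ 2 ≤ 4 := by
            have e1 : 1 / T ^ 2 * t ^ 2 = (T⁻¹ * t) ^ 2 := by
              field_simp
            rw [e1]
            nlinarith
          have h6 : (1 : ℝ≥0∞) ≤ ENNReal.ofReal (Real.exp 4) *
              ENNReal.ofReal (Real.exp (-(1 / T ^ 2) * t ^ 2)) := by
            rw [← ENNReal.ofReal_mul (Real.exp_pos _).le, ← Real.exp_add,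
              ENNReal.one_le_ofReal]
            exact Real.one_le_exp (by linarith)
          rw [lintegral_mul_const' _ _ ENNReal.ofReal_ne_top, mul_comm (∫⁻ w : ℝ, _), ← mul_assoc]
          calc ∫⁻ w : ℝ, ‖E1 g (w, t)‖ₑ ^ 4 = 1 * ∫⁻ w : ℝ, ‖E1 g (w, t)‖ₑ ^ 4 := (one_mul _).symm
            _ ≤ _ := mul_le_mul_left h6 _
      _ ≤ _ := setLIntegral_le_lintegral _ _
  refine h1.trans ?_
  have h2 := Restr.E1_weighted hg hg0 (δ := 1 / T ^ 2) hδ hθ0 hθ1
  refine (mul_le_mul_right h2 _).trans ?_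
  have hsq : √(Real.pi / (1 / T ^ 2)) = √Real.pi * T := by
    rw [div_div_eq_mul_div, div_one, Real.sqrt_mul Real.pi_pos.le, Real.sqrt_sq hT.le]
  have hpi := Real.pi_pos
  rw [hsq, ENNReal.ofReal_rpow_of_nonneg (by positivity) hθ0.le,
    Real.mul_rpow (Real.sqrt_nonneg _) hT.le]
  rw [← mul_assoc, ← mul_assoc, ← ENNReal.ofReal_mul (by positivity),
    ← ENNReal.ofReal_mul (by positivity), ← ENNReal.ofReal_mul (by positivity)]
  have hTη : T ^ θ ≤ T ^ η := by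
    refine Real.rpow_le_rpow_of_exponent_le ?_ hθη
    rw [hTdef]
    exact one_le_pow₀ (by norm_num)
  change _ ≤ ENNReal.ofReal _ * _ * _
  rw [← ENNReal.ofReal_mul (by positivity)]
  refine mul_le_mul_left (ENNReal.ofReal_le_ofReal ?_) _
  calc Real.exp 4 * (2 * Real.pi) * (√Real.pi ^ θ * T ^ θ * (4 * (2 / θ)))
      = Real.exp 4 * (2 * Real.pi) * √Real.pi ^ θ * (4 * (2 / θ)) * T ^ θ := by ring
    _ ≤ _ := mul_le_mul_of_nonneg_left hTη (by positivity)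

end Pool.Agent.Shr
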