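import Pool.Agent.Shr.Targets

set_option autoImplicit false

/-!
# Reconstruction of a path from its values at dyadic points
-/

open MeasureTheory Filter Topology

namespace Pool.Agent.Shr

namespace REC_

theorem meas_step (n : ℕ) : Measurable (fun p : (ℕ × ℕ → ℝ) × ℝ =>
    p.1 (n, ⌊(2 : ℝ) ^ n * p.2⌋₊)) := by
  have h1 : Measurable (fun p : (ℕ × ℕ → ℝ) × ℝ => ⌊(2 : ℝ) ^ n * p.2⌋₊) :=
    Nat.measurable_floor.comp (measurable_snd.const_mul _)
  have h2 : Measurable (fun r : (ℕ × ℕ → ℝ) × ℕ => r.1 (n, r.2)) := by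
    apply measurable_from_prod_countable_left
    intro m
    exact measurable_pi_apply (n, m)
  exact h2.comp (measurable_fst.prodMk h1)

end REC_

/-- REC -/
theorem p_REC : T_REC := by
  refine ⟨fun X x => limUnder atTop (fun n : ℕ => X (n, ⌊(2 : ℝ) ^ n * x⌋₊)), ?_, ?_⟩
  · have h : StronglyMeasurable (fun p : (ℕ × ℕ → ℝ) × ℝ =>
        limUnder atTop (fun n : ℕ => p.1 (n, ⌊(2 : ℝ) ^ n * p.2⌋₊))) :=
      StronglyMeasurable.limUnder (fun n => (REC_.meas_step n).stronglyMeasurable)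
    exact h.measurable
  · intro X x v _ hv
    exact hv.limUnder_eq

end Pool.Agent.Shr
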