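import Mathlib
import Pool.Agent.Shr.Targets

set_option autoImplicit false

/-!
# Fourth moment of a sum of independent centred complex random variables
-/

namespace Pool.Agent.Shr

open MeasureTheory Set Filter ProbabilityTheory
open scoped ENNReal NNReal Topology

namespace ROS_

lemma integrable_of_bdd {α : Type} [MeasurableSpace α] (μ : Measure α) [IsFiniteMeasure μ]
    {f : α → ℝ} (hf : Measurable f) {C : ℝ} (hC : ∀ x, |f x| ≤ C) : Integrable f μ :=
  Integrable.of_bound hf.aestronglyMeasurable C (Filter.Eventually.of_forall hC)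

/-- one step -/
lemma step {α β : Type} [MeasurableSpace α] [MeasurableSpace β] (μ : Measure α) (ν : Measure β)
    [IsProbabilityMeasure μ] [IsProbabilityMeasure ν] {a : α → ℝ} {S : β → ℝ}
    (ha : Measurable a) (hS : Measurable S) {A B : ℝ} (hA : ∀ x, |a x| ≤ A)
    (hB : ∀ x, |S x| ≤ B) (ha0 : ∫ x, a x ∂μ = 0) (hS0 : ∫ x, S x ∂ν = 0) :
    ∫ z, (a z.1 + S z.2) ∂(μ.prod ν) = 0 ∧
    ∫ z, (a z.1 + S z.2) ^ 2 ∂(μ.prod ν) = ∫ x, a x ^ 2 ∂μ + ∫ x, S x ^ 2 ∂ν ∧
    ∫ z, (a z.1 + S z.2) ^ 4 ∂(μ.prod ν) =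
      ∫ x, a x ^ 4 ∂μ + 6 * (∫ x, a x ^ 2 ∂μ) * (∫ x, S x ^ 2 ∂ν) + ∫ x, S x ^ 4 ∂ν := by
  have hi : ∀ i j : ℕ, Integrable (fun z : α × β => a z.1 ^ i * S z.2 ^ j) (μ.prod ν) := by
    intro i j
    refine integrable_of_bdd _ (C := A ^ i * B ^ j) (((ha.comp measurable_fst).pow_const i).mul
      ((hS.comp measurable_snd).pow_const j)) fun z => ?_
    rw [abs_mul, abs_pow, abs_pow]
    have h1 : 0 ≤ A := (abs_nonneg _).trans (hA z.1)
    gcongr
    · exact hA _
    · exact hB _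
  have hm : ∀ i j : ℕ, ∫ z, a z.1 ^ i * S z.2 ^ j ∂(μ.prod ν) =
      (∫ x, a x ^ i ∂μ) * ∫ x, S x ^ j ∂ν := fun i j =>
    integral_prod_mul (fun x => a x ^ i) (fun x => S x ^ j)
  refine ⟨?_, ?_, ?_⟩
  · have e : ∀ z : α × β, a z.1 + S z.2 = a z.1 ^ 1 * S z.2 ^ 0 + a z.1 ^ 0 * S z.2 ^ 1 := by
      intro z
      ring
    simp_rw [e]
    rw [integral_add (hi _ _) (hi _ _), hm, hm]
    simp [ha0, hS0]
  · have e : ∀ z : α × β, (a z.1 + S z.2) ^ 2 =
        a z.1 ^ 2 * S z.2 ^ 0 + 2 * (a z.1 ^ 1 * S z.2 ^ 1) + a z.1 ^ 0 * S z.2 ^ 2 := by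
      intro z
      ring
    simp_rw [e]
    rw [integral_add ((hi _ _).fun_add ((hi _ _).const_mul _)) (hi _ _),
      integral_add (hi _ _) ((hi _ _).const_mul _), integral_const_mul, hm, hm, hm]
    simp [ha0, hS0]
  · have e : ∀ z : α × β, (a z.1 + S z.2) ^ 4 =
        a z.1 ^ 4 * S z.2 ^ 0 + 4 * (a z.1 ^ 3 * S z.2 ^ 1) + 6 * (a z.1 ^ 2 * S z.2 ^ 2) +
        4 * (a z.1 ^ 1 * S z.2 ^ 3) + a z.1 ^ 0 * S z.2 ^ 4 := by
      intro z
      ring
    simp_rw [e]
    rw [integral_add ((((hi _ _).fun_add ((hi _ _).const_mul _)).fun_add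
        ((hi _ _).const_mul _)).fun_add ((hi _ _).const_mul _)) (hi _ _),
      integral_add (((hi _ _).fun_add ((hi _ _).const_mul _)).fun_add ((hi _ _).const_mul _))
        ((hi _ _).const_mul _),
      integral_add ((hi _ _).fun_add ((hi _ _).const_mul _)) ((hi _ _).const_mul _),
      integral_add (hi _ _) ((hi _ _).const_mul _), integral_const_mul, integral_const_mul,
      integral_const_mul, hm, hm, hm, hm, hm]
    simp [ha0, hS0]
    ring

lemma real_case (m : Measure ℝ) [IsProbabilityMeasure m] : ∀ (N : ℕ) (y : Fin N → ℝ → ℝ),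
    (∀ j, Measurable (y j)) → (∀ j, ∃ M : ℝ, ∀ s, |y j s| ≤ M) → (∀ j, ∫ s, y j s ∂m = 0) →
    ∫ g : Fin N → ℝ, ∑ j, y j (g j) ∂(Measure.pi fun _ => m) = 0 ∧
    ∫ g : Fin N → ℝ, (∑ j, y j (g j)) ^ 2 ∂(Measure.pi fun _ => m) = ∑ j, ∫ s, y j s ^ 2 ∂m ∧
    ∫ g : Fin N → ℝ, (∑ j, y j (g j)) ^ 4 ∂(Measure.pi fun _ => m) ≤
      3 * (∑ j, ∫ s, y j s ^ 2 ∂m) ^ 2 + ∑ j, ∫ s, y j s ^ 4 ∂m := by
  intro N
  induction N with
  | zero =>
    intro y _ _ _
    simp
  | succ N ih =>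
    intro y hy hM h0
    obtain ⟨h1, h2, h3⟩ := ih (fun j => y j.succ) (fun j => hy _) (fun j => hM _) (fun j => h0 _)
    choose M hM using hM
    have hmp := measurePreserving_piFinSuccAbove (fun _ : Fin (N + 1) => m) 0
    have hS : Measurable (fun g : Fin N → ℝ => ∑ j : Fin N, y j.succ (g j)) :=
      Finset.measurable_fun_sum _ fun j _ => (hy _).comp (measurable_pi_apply j)
    have hSb : ∀ g : Fin N → ℝ, |∑ j : Fin N, y j.succ (g j)| ≤ ∑ j : Fin N, M j.succ := fun g =>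
      (Finset.abs_sum_le_sum_abs _ _).trans (Finset.sum_le_sum fun j _ => hM _ _)
    obtain ⟨s1, s2, s3⟩ := step m (Measure.pi fun _ : Fin N => m) (hy 0) hS (hM 0) hSb (h0 0) h1
    have key : ∀ i : ℕ, ∫ g : Fin (N + 1) → ℝ, (∑ j, y j (g j)) ^ i ∂(Measure.pi fun _ => m) =
        ∫ z, (y 0 z.1 + ∑ j : Fin N, y j.succ (z.2 j)) ^ i
          ∂(m.prod (Measure.pi fun _ : Fin N => m)) := by
      intro i
      have := hmp.integral_comp' (g := fun z : ℝ × (Fin N → ℝ) =>
        (y 0 z.1 + ∑ j : Fin N, y j.succ (z.2 j)) ^ i)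
      rw [← this]
      refine integral_congr_ae (Filter.Eventually.of_forall fun g => ?_)
      simp only
      rw [Fin.sum_univ_succ]
      rfl
    refine ⟨?_, ?_, ?_⟩
    · have := key 1
      simp only [pow_one] at this
      rw [this, s1]
    · rw [key 2, s2, h2, Fin.sum_univ_succ]
    · rw [key 4, s3, h2, Fin.sum_univ_succ, Fin.sum_univ_succ]
      have p0 : 0 ≤ ∫ s, y 0 s ^ 2 ∂m := integral_nonneg fun s => sq_nonneg _
      nlinarith

lemma lint_sq {α : Type} [MeasurableSpace α] (μ : Measure α) [IsFiniteMeasure μ] {f : α → ℂ}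
    (hf : Measurable f) {C : ℝ} (hC : ∀ x, ‖f x‖ ≤ C) (i : ℕ) :
    ∫⁻ x, ‖f x‖ₑ ^ i ∂μ = ENNReal.ofReal (∫ x, ‖f x‖ ^ i ∂μ) := by
  have hint : Integrable (fun x => ‖f x‖ ^ i) μ := by
    refine integrable_of_bdd μ (C := C ^ i) (hf.norm.pow_const i) fun x => ?_
    rw [abs_of_nonneg (by positivity)]
    gcongr
    exact hC x
  rw [ofReal_integral_eq_lintegral_ofReal hint (Filter.Eventually.of_forall fun x => by positivity)]
  refine lintegral_congr fun x => ?_
  rw [ENNReal.ofReal_pow (norm_nonneg _), ofReal_norm]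

end ROS_

open ROS_ in
theorem p_ROS : T_ROS := by
  intro N m _ y hy hM h0
  choose M hM using hM
  have hMi : ∀ j, Integrable (y j) m := fun j =>
    Integrable.of_bound (hy j).aestronglyMeasurable (M j) (Filter.Eventually.of_forall (hM j))
  -- real and imaginary parts
  obtain ⟨_, _, hR⟩ := real_case m N (fun j s => (y j s).re)
    (fun j => Complex.measurable_re.comp (hy j))
    (fun j => ⟨M j, fun s => (Complex.abs_re_le_norm _).trans (hM j s)⟩)
    (fun j => by
      have := Complex.reCLM.integral_comp_comm (hMi j)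
      simp only [Complex.reCLM_apply] at this
      rw [this, h0 j]
      rfl)
  obtain ⟨_, _, hI⟩ := real_case m N (fun j s => (y j s).im)
    (fun j => Complex.measurable_im.comp (hy j))
    (fun j => ⟨M j, fun s => (Complex.abs_im_le_norm _).trans (hM j s)⟩)
    (fun j => by
      have := Complex.imCLM.integral_comp_comm (hMi j)
      simp only [Complex.imCLM_apply] at this
      rw [this, h0 j]
      rfl)
  have hpow : ∀ (i : ℕ) (j : Fin N), Integrable (fun s => (y j s).re ^ i) m ∧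
      Integrable (fun s => (y j s).im ^ i) m ∧ Integrable (fun s => ‖y j s‖ ^ i) m := by
    intro i j
    refine ⟨integrable_of_bdd m (C := M j ^ i) ((Complex.measurable_re.comp (hy j)).pow_const i)
      fun s => ?_, integrable_of_bdd m (C := M j ^ i)
      ((Complex.measurable_im.comp (hy j)).pow_const i) fun s => ?_,
      integrable_of_bdd m (C := M j ^ i) ((hy j).norm.pow_const i) fun s => ?_⟩
    · rw [abs_pow]
      exact pow_le_pow_left₀ (abs_nonneg _) ((Complex.abs_re_le_norm _).trans (hM j s)) i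
    · rw [abs_pow]
      exact pow_le_pow_left₀ (abs_nonneg _) ((Complex.abs_im_le_norm _).trans (hM j s)) i
    · rw [abs_pow, abs_norm]
      exact pow_le_pow_left₀ (norm_nonneg _) (hM j s) i
  set AR := ∑ j, ∫ s, (y j s).re ^ 2 ∂m with hAR
  set AI := ∑ j, ∫ s, (y j s).im ^ 2 ∂m with hAI
  set BR := ∑ j, ∫ s, (y j s).re ^ 4 ∂m with hBR
  set BI := ∑ j, ∫ s, (y j s).im ^ 4 ∂m with hBI
  set A := ∑ j, ∫ s, ‖y j s‖ ^ 2 ∂m with hA
  set B := ∑ j, ∫ s, ‖y j s‖ ^ 4 ∂m with hB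
  have hAA : AR + AI = A := by
    rw [hAR, hAI, hA, ← Finset.sum_add_distrib]
    refine Finset.sum_congr rfl fun j _ => ?_
    rw [← integral_add (hpow 2 j).1 (hpow 2 j).2.1]
    refine integral_congr_ae (Filter.Eventually.of_forall fun s => ?_)
    simp only
    rw [← Complex.normSq_eq_norm_sq, Complex.normSq_apply]
    ring
  have hBB : BR + BI ≤ B := by
    rw [hBR, hBI, hB, ← Finset.sum_add_distrib]
    refine Finset.sum_le_sum fun j _ => ?_
    rw [← integral_add (hpow 4 j).1 (hpow 4 j).2.1]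
    refine integral_mono ((hpow 4 j).1.add (hpow 4 j).2.1) (hpow 4 j).2.2 fun s => ?_
    simp only
    have e : ‖y j s‖ ^ 4 = ((y j s).re ^ 2 + (y j s).im ^ 2) ^ 2 := by
      have : ‖y j s‖ ^ 4 = (‖y j s‖ ^ 2) ^ 2 := by ring
      rw [this, ← Complex.normSq_eq_norm_sq, Complex.normSq_apply]
      ring
    rw [e]
    nlinarith [mul_nonneg (sq_nonneg (y j s).re) (sq_nonneg (y j s).im)]
  have hAR0 : 0 ≤ AR := Finset.sum_nonneg fun j _ => integral_nonneg fun s => sq_nonneg _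
  have hAI0 : 0 ≤ AI := Finset.sum_nonneg fun j _ => integral_nonneg fun s => sq_nonneg _
  have hA0 : 0 ≤ A := by linarith
  have hB0 : 0 ≤ B := Finset.sum_nonneg fun j _ => integral_nonneg fun s => by positivity
  have hY : Measurable (fun g : Fin N → ℝ => ∑ j, y j (g j)) :=
    Finset.measurable_fun_sum _ fun j _ => (hy _).comp (measurable_pi_apply j)
  have hYb : ∀ g : Fin N → ℝ, ‖∑ j, y j (g j)‖ ≤ ∑ j, M j := fun g =>
    norm_sum_le_of_le _ fun j _ => hM _ _
  have hmain : ∫ g : Fin N → ℝ, ‖∑ j, y j (g j)‖ ^ 4 ∂(Measure.pi fun _ => m) ≤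
      12 * A ^ 2 + 12 * B := by
    have i1 : Integrable (fun g : Fin N → ℝ => ‖∑ j, y j (g j)‖ ^ 4) (Measure.pi fun _ => m) := by
      refine integrable_of_bdd _ (C := (∑ j, M j) ^ 4) (hY.norm.pow_const 4) fun g => ?_
      rw [abs_pow, abs_norm]
      exact pow_le_pow_left₀ (norm_nonneg _) (hYb g) 4
    have i2 : Integrable (fun g : Fin N → ℝ => (∑ j, (y j (g j)).re) ^ 4)
        (Measure.pi fun _ => m) := by
      refine integrable_of_bdd _ (C := (∑ j, M j) ^ 4) ((Finset.measurable_fun_sum _ fun j _ =>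
        (Complex.measurable_re.comp (hy j)).comp (measurable_pi_apply j)).pow_const 4) fun g => ?_
      rw [abs_pow]
      refine pow_le_pow_left₀ (abs_nonneg _) ((Finset.abs_sum_le_sum_abs _ _).trans
        (Finset.sum_le_sum fun j _ => ?_)) 4
      exact (Complex.abs_re_le_norm _).trans (hM j _)
    have i3 : Integrable (fun g : Fin N → ℝ => (∑ j, (y j (g j)).im) ^ 4)
        (Measure.pi fun _ => m) := by
      refine integrable_of_bdd _ (C := (∑ j, M j) ^ 4) ((Finset.measurable_fun_sum _ fun j _ =>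
        (Complex.measurable_im.comp (hy j)).comp (measurable_pi_apply j)).pow_const 4) fun g => ?_
      rw [abs_pow]
      refine pow_le_pow_left₀ (abs_nonneg _) ((Finset.abs_sum_le_sum_abs _ _).trans
        (Finset.sum_le_sum fun j _ => ?_)) 4
      exact (Complex.abs_im_le_norm _).trans (hM j _)
    calc ∫ g : Fin N → ℝ, ‖∑ j, y j (g j)‖ ^ 4 ∂(Measure.pi fun _ => m)
        ≤ ∫ g : Fin N → ℝ, (2 * (∑ j, (y j (g j)).re) ^ 4 + 2 * (∑ j, (y j (g j)).im) ^ 4)
            ∂(Measure.pi fun _ => m) := by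
          refine integral_mono i1 ((i2.const_mul 2).add (i3.const_mul 2)) fun g => ?_
          simp only
          rw [← Complex.re_sum, ← Complex.im_sum]
          set z := ∑ j, y j (g j)
          have e : ‖z‖ ^ 4 = (z.re ^ 2 + z.im ^ 2) ^ 2 := by
            have : ‖z‖ ^ 4 = (‖z‖ ^ 2) ^ 2 := by ring
            rw [this, ← Complex.normSq_eq_norm_sq, Complex.normSq_apply]
            ring
          rw [e]
          nlinarith [sq_nonneg (z.re ^ 2 - z.im ^ 2)]
      _ = 2 * (∫ g : Fin N → ℝ, (∑ j, (y j (g j)).re) ^ 4 ∂(Measure.pi fun _ => m)) +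
          2 * ∫ g : Fin N → ℝ, (∑ j, (y j (g j)).im) ^ 4 ∂(Measure.pi fun _ => m) := by
          rw [integral_add (i2.const_mul 2) (i3.const_mul 2), integral_const_mul,
            integral_const_mul]
      _ ≤ 2 * (3 * AR ^ 2 + BR) + 2 * (3 * AI ^ 2 + BI) := by linarith
      _ ≤ 12 * A ^ 2 + 12 * B := by
          rw [← hAA]
          nlinarith [mul_nonneg hAR0 hAI0, sq_nonneg AR, sq_nonneg AI]
  rw [lint_sq _ hY hYb 4]
  have e2 : ∑ j, ∫⁻ s, ‖y j s‖ₑ ^ 2 ∂m = ENNReal.ofReal A := by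
    rw [hA, ENNReal.ofReal_sum_of_nonneg fun j _ => integral_nonneg fun s => by positivity]
    exact Finset.sum_congr rfl fun j _ => lint_sq m (hy j) (hM j) 2
  have e4 : ∑ j, ∫⁻ s, ‖y j s‖ₑ ^ 4 ∂m = ENNReal.ofReal B := by
    rw [hB, ENNReal.ofReal_sum_of_nonneg fun j _ => integral_nonneg fun s => by positivity]
    exact Finset.sum_congr rfl fun j _ => lint_sq m (hy j) (hM j) 4
  rw [e2, e4, ← ENNReal.ofReal_pow hA0]
  have e12 : (12 : ℝ≥0∞) = ENNReal.ofReal 12 := by norm_num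
  rw [e12, ← ENNReal.ofReal_mul (by norm_num), ← ENNReal.ofReal_mul (by norm_num),
    ← ENNReal.ofReal_add (by positivity) (by positivity)]
  exact ENNReal.ofReal_le_ofReal hmain

end Pool.Agent.Shr
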