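import Pool.Agent.Shr.Targets

set_option autoImplicit false

/-!
# SHR-RSE: the series is rough on every unit interval
-/

namespace Pool.Agent.Shr

open MeasureTheory Set Filter ProbabilityTheory
open scoped ENNReal NNReal Topology

namespace RSE_

/-- distance to the even integers near an even integer -/
lemma tri_near (n : ℤ) (y : ℝ) (h1 : 2 * (n : ℝ) - 1 ≤ y) (h2 : y ≤ 2 * n + 1) :
    tri y = |y - 2 * n| := by
  unfold tri
  rcases h2.lt_or_eq with h2 | h2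
  · have h3 : round (y / 2) = n := by
      rw [round_eq, Int.floor_eq_iff]
      constructor <;> linarith
    rw [h3]
  · have h3 : round (y / 2) = n + 1 := by
      rw [round_eq, Int.floor_eq_iff, h2]
      push_cast
      constructor <;> linarith
    rw [h3, h2]
    push_cast
    have e1 : (2 * (n : ℝ) + 1 - 2 * (n + 1)) = -1 := by ring
    have e2 : (2 * (n : ℝ) + 1 - 2 * n) = 1 := by ring
    rw [e1, e2]
    norm_num

/-- the function `tri` on a unit interval -/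
lemma tri_aff (m : ℤ) : ∃ ε : ℝ, (ε = 1 ∨ ε = -1) ∧
    ∀ x ∈ SS, tri (x + ((m : ℝ) + 1 / 2)) = 1 / 2 + ε * x := by
  rcases Int.even_or_odd' m with ⟨n, h | h⟩
  · refine ⟨1, Or.inl rfl, fun x hx => ?_⟩
    have hx1 : -(1 / 2) ≤ x := hx.1
    have hx2 : x ≤ 1 / 2 := hx.2
    have hm : (m : ℝ) = 2 * n := by rw [h]; push_cast; ring
    rw [tri_near n _ (by rw [hm]; linarith) (by rw [hm]; linarith), hm]
    rw [abs_of_nonneg (by linarith)]
    ring
  · refine ⟨-1, Or.inr rfl, fun x hx => ?_⟩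
    have hx1 : -(1 / 2) ≤ x := hx.1
    have hx2 : x ≤ 1 / 2 := hx.2
    have hm : (m : ℝ) = 2 * n + 1 := by rw [h]; push_cast; ring
    rw [tri_near (n + 1) _ (by rw [hm]; push_cast; linarith) (by rw [hm]; push_cast; linarith), hm]
    push_cast
    rw [abs_of_nonpos (by linarith)]
    ring

/-- the cells -/
def Ac (ε : ℝ) (k a j : ℕ) : Set ℝ :=
  {x | x ∈ SS ∧ |1 / 2 + ε * x - ((2 * j + a : ℕ) : ℝ) / 2 ^ k| ≤ 1 / 2 ^ k / 2}

/-- the weight -/
noncomputable def lm (ε : ℝ) (k a N : ℕ) (x : ℝ) : ℝ :=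
  max (1 / 2) (min 1 (∑ j : Fin N, tent k (((2 * (j : ℕ) + a : ℕ) : ℝ) / 2 ^ k) (1 / 2 + ε * x)))

lemma tent_cont (k : ℕ) (c : ℝ) : Continuous (tent k c) := by
  unfold tent
  fun_prop

lemma tent_zero {k : ℕ} {c x : ℝ} (h : 1 / 2 ^ k ≤ |x - c|) : tent k c x = 0 := by
  unfold tent
  have hp : (0 : ℝ) < 2 ^ k := by positivity
  rw [div_le_iff₀ hp] at h
  exact max_eq_left (by linarith)

lemma tent_mid {k : ℕ} {c x : ℝ} (h : |x - c| ≤ 1 / 2 ^ k / 2) :
    1 / 2 ≤ tent k c x ∧ tent k c x ≤ 1 := by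
  unfold tent
  have hp : (0 : ℝ) < 2 ^ k := by positivity
  rw [div_div, le_div_iff₀ (by positivity)] at h
  have h0 : 0 ≤ (2 : ℝ) ^ k * |x - c| := by positivity
  constructor
  · exact le_max_of_le_right (by linarith)
  · exact max_le (by norm_num) (by linarith)

/-- two centres of the same parity -/
lemma far {k a i j : ℕ} {y : ℝ} (hij : i ≠ j)
    (h : |y - ((2 * i + a : ℕ) : ℝ) / 2 ^ k| ≤ 1 / 2 ^ k / 2) :
    1 / 2 ^ k ≤ |y - ((2 * j + a : ℕ) : ℝ) / 2 ^ k| ∧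
      1 / 2 ^ k / 2 < |y - ((2 * j + a : ℕ) : ℝ) / 2 ^ k| := by
  have hp : (0 : ℝ) < 1 / 2 ^ k := by positivity
  have h1 : 2 * (1 / 2 ^ k : ℝ) ≤
      |((2 * i + a : ℕ) : ℝ) / 2 ^ k - ((2 * j + a : ℕ) : ℝ) / 2 ^ k| := by
    have e1 : ((2 * i + a : ℕ) : ℝ) / 2 ^ k - ((2 * j + a : ℕ) : ℝ) / 2 ^ k =
        2 * (1 / 2 ^ k) * ((i : ℝ) - j) := by
      push_cast
      field_simp
      ring
    rw [e1, abs_mul, abs_of_pos (by positivity : (0 : ℝ) < 2 * (1 / 2 ^ k))]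
    have h2 : (1 : ℝ) ≤ |(i : ℝ) - j| := by
      have h3 : (1 : ℤ) ≤ |(i : ℤ) - j| := Int.one_le_abs (by omega)
      exact_mod_cast h3
    nlinarith
  have h2 : |((2 * i + a : ℕ) : ℝ) / 2 ^ k - ((2 * j + a : ℕ) : ℝ) / 2 ^ k| ≤
      |y - ((2 * i + a : ℕ) : ℝ) / 2 ^ k| + |y - ((2 * j + a : ℕ) : ℝ) / 2 ^ k| := by
    rw [abs_sub_comm y (((2 * i + a : ℕ) : ℝ) / 2 ^ k)]
    exact abs_sub_le _ _ _
  constructor <;> linarith

lemma cells (ε : ℝ) (hε : ε = 1 ∨ ε = -1) (k a N : ℕ) :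
    Cells k (fun j : Fin N => Ac ε k a j) (lm ε k a N) where
  meas j := by
    have h1 : Measurable fun x : ℝ => |1 / 2 + ε * x - ((2 * (j : ℕ) + a : ℕ) : ℝ) / 2 ^ k| := by
      fun_prop
    exact measurableSet_Icc.inter (measurableSet_le h1 measurable_const)
  disj i j hij := by
    rw [Set.disjoint_left]
    rintro x ⟨_, h1⟩ ⟨_, h2⟩
    have h3 := (far (a := a) (fun h => hij (Fin.ext h)) h1).2
    exact absurd h2 (not_le.2 h3)
  small j := by
    refine ⟨ε * (((2 * (j : ℕ) + a : ℕ) : ℝ) / 2 ^ k - 1 / 2) - 1 / 2 ^ k / 2, ?_⟩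
    rintro x ⟨_, h1⟩
    rw [abs_le] at h1
    rcases hε with rfl | rfl
    · constructor <;> linarith
    · constructor <;> linarith
  mlam := by
    unfold lm
    have h1 : Continuous fun x : ℝ => ∑ j : Fin N,
        tent k (((2 * (j : ℕ) + a : ℕ) : ℝ) / 2 ^ k) (1 / 2 + ε * x) := by
      refine continuous_finsetSum _ fun j _ => ?_
      exact (tent_cont k _).comp (by fun_prop)
    exact (continuous_const.max (continuous_const.min h1)).measurable
  lam1 x := le_max_left _ _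
  lam2 x := max_le (by norm_num) (min_le_left _ _)

/-- the random part on the cells -/
lemma rnd_eq (ε : ℝ) (k a N : ℕ) (g : Fin N → ℝ) (x : ℝ) (hx : x ∈ ⋃ j : Fin N, Ac ε k a j) :
    rnd (fun j : Fin N => Ac ε k a j) (lm ε k a N) g x =
      ∑ j : Fin N, g j * tent k (((2 * (j : ℕ) + a : ℕ) : ℝ) / 2 ^ k) (1 / 2 + ε * x) := by
  obtain ⟨j, hj⟩ := mem_iUnion.1 hx
  have hz : ∀ i : Fin N, i ≠ j →
      tent k (((2 * (i : ℕ) + a : ℕ) : ℝ) / 2 ^ k) (1 / 2 + ε * x) = 0 := fun i hi =>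
    tent_zero (far (fun h => hi (Fin.ext h.symm)) hj.2).1
  have hm := tent_mid hj.2
  have hlm : lm ε k a N x =
      tent k (((2 * (j : ℕ) + a : ℕ) : ℝ) / 2 ^ k) (1 / 2 + ε * x) := by
    unfold lm
    rw [Finset.sum_eq_single j (fun i _ hi => hz i hi) (fun h => absurd (Finset.mem_univ _) h)]
    rw [min_eq_right hm.2, max_eq_right hm.1]
  unfold rnd
  rw [Finset.sum_eq_single j, Finset.sum_eq_single j (fun i _ hi => by rw [hz i hi, mul_zero])
    (fun h => absurd (Finset.mem_univ _) h)]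
  · rw [indicator_of_mem hj, hlm, mul_comm]
  · intro i _ hi
    refine indicator_of_notMem (fun h => ?_) _
    exact absurd h.2 (not_le.2 (far (fun h => hi (Fin.ext h.symm)) hj.2).2)
  · intro h
    exact absurd (Finset.mem_univ _) h

/-- the series without some of its coordinates -/
lemma term_X (k a : ℕ) (ha : a ≤ 1) (ω : ℕ × ℕ → ℝ) (k' : ℕ) (y : ℝ) :
    term (fun i : ℕ × ℕ => if i.1 = k ∧ ∃ j : Fin ((2 ^ k - a) / 2 + 1), i.2 = 2 * (j : ℕ) + a
      then 0 else ω i) k' y = term ω k' y - if k' = k then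
        ∑ j : Fin ((2 ^ k - a) / 2 + 1), ω (k, 2 * (j : ℕ) + a) *
          tent k (((2 * (j : ℕ) + a : ℕ) : ℝ) / 2 ^ k) (tri y) else 0 := by
  unfold term
  by_cases hk : k' = k
  · subst hk
    rw [if_pos rfl, eq_sub_iff_add_eq]
    have h1 : ∑ j : Fin ((2 ^ k' - a) / 2 + 1), ω (k', 2 * (j : ℕ) + a) *
        tent k' (((2 * (j : ℕ) + a : ℕ) : ℝ) / 2 ^ k') (tri y) =
        ∑ i ∈ (Finset.range (2 ^ k' + 1)).filter
          (fun i => ∃ j : Fin ((2 ^ k' - a) / 2 + 1), i = 2 * (j : ℕ) + a),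
          ω (k', i) * tent k' ((i : ℝ) / 2 ^ k') (tri y) := by
      refine Finset.sum_nbij (fun j : Fin ((2 ^ k' - a) / 2 + 1) => 2 * (j : ℕ) + a) ?_ ?_ ?_ ?_
      · intro j _
        simp only [Finset.mem_filter, Finset.mem_range]
        refine ⟨?_, j, rfl⟩
        have hj := j.2
        have hp : 1 ≤ 2 ^ k' := Nat.one_le_two_pow
        omega
      · intro i _ j _ h
        have h' : 2 * (i : ℕ) + a = 2 * (j : ℕ) + a := h
        exact Fin.ext (by omega)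
      · intro i hi
        simp only [Finset.coe_filter, Finset.mem_range, mem_ofPred_eq] at hi
        obtain ⟨_, j, rfl⟩ := hi
        exact ⟨j, Finset.mem_coe.2 (Finset.mem_univ _), rfl⟩
      · intro j _
        rfl
    rw [h1, Finset.sum_filter, ← Finset.sum_add_distrib]
    refine Finset.sum_congr rfl fun i _ => ?_
    by_cases h2 : ∃ j : Fin ((2 ^ k' - a) / 2 + 1), i = 2 * (j : ℕ) + a
    · rw [if_pos h2]
      have h3 : ((k', i) : ℕ × ℕ).1 = k' ∧
          ∃ j : Fin ((2 ^ k' - a) / 2 + 1), ((k', i) : ℕ × ℕ).2 = 2 * (j : ℕ) + a := ⟨rfl, h2⟩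
      beta_reduce
      rw [if_pos h3, zero_mul, zero_add]
    · rw [if_neg h2, add_zero]
      have h3 : ¬ (((k', i) : ℕ × ℕ).1 = k' ∧
          ∃ j : Fin ((2 ^ k' - a) / 2 + 1), ((k', i) : ℕ × ℕ).2 = 2 * (j : ℕ) + a) :=
        fun h => h2 h.2
      beta_reduce
      rw [if_neg h3]
  · rw [if_neg hk, sub_zero]
    refine Finset.sum_congr rfl fun i _ => ?_
    have h3 : ¬ (((k', i) : ℕ × ℕ).1 = k ∧
        ∃ j : Fin ((2 ^ k - a) / 2 + 1), ((k', i) : ℕ × ℕ).2 = 2 * (j : ℕ) + a) :=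
      fun h => hk h.1
    beta_reduce
    rw [if_neg h3]

end RSE_

open RSE_ in
theorem p_RSE (h_IPI : T_IPI) (h_SER : T_SER) : T_RSE := by
  intro W hW m k
  obtain ⟨ε, hε, htri⟩ := tri_aff m
  obtain ⟨Ψ, hΨm, hΨ⟩ := h_SER ((m : ℝ) + 1 / 2)
  have key : ∀ a : ℕ, a ≤ 1 → RoughOn GP (fun ω x => W ω (x + ((m : ℝ) + 1 / 2))) k
      (⋃ j : Fin ((2 ^ k - a) / 2 + 1), Ac ε k a j) := by
    intro a ha
    refine ⟨(2 ^ k - a) / 2 + 1, fun j => Ac ε k a j, lm ε k a _,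
      fun (ω : ℕ × ℕ → ℝ) (i : ℕ × ℕ) => if i.1 = k ∧
        ∃ j : Fin ((2 ^ k - a) / 2 + 1), i.2 = 2 * (j : ℕ) + a then 0 else ω i,
      fun (ω : ℕ × ℕ → ℝ) (j : Fin ((2 ^ k - a) / 2 + 1)) => ω (k, 2 * (j : ℕ) + a), Ψ,
      cells ε hε k a _, subset_rfl, ?_, ?_, hΨm, (h_IPI k a _).1, (h_IPI k a _).2, ?_⟩
    · refine Measurable.aemeasurable (measurable_pi_lambda _ fun i => ?_)
      split_ifs
      · exact measurable_const
      · exact measurable_pi_apply i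
    · exact Measurable.aemeasurable (measurable_pi_lambda _ fun j => measurable_pi_apply _)
    · filter_upwards [hW] with ω hω x hx
      have hxS : x ∈ SS := by
        obtain ⟨j, hj⟩ := mem_iUnion.1 hx
        exact hj.1
      rw [rnd_eq ε k a _ _ x hx]
      have h1 := hω (x + ((m : ℝ) + 1 / 2))
      have h2 := h1.sub (hasSum_ite_eq k (∑ j : Fin ((2 ^ k - a) / 2 + 1),
        ω (k, 2 * (j : ℕ) + a) * tent k (((2 * (j : ℕ) + a : ℕ) : ℝ) / 2 ^ k)
          (tri (x + ((m : ℝ) + 1 / 2)))))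
      have h3 : (fun k' => term (fun i : ℕ × ℕ => if i.1 = k ∧
          ∃ j : Fin ((2 ^ k - a) / 2 + 1), i.2 = 2 * (j : ℕ) + a then 0 else ω i) k'
            (x + ((m : ℝ) + 1 / 2))) = fun k' => term ω k' (x + ((m : ℝ) + 1 / 2)) -
          if k' = k then (∑ j : Fin ((2 ^ k - a) / 2 + 1),
            ω (k, 2 * (j : ℕ) + a) * tent k (((2 * (j : ℕ) + a : ℕ) : ℝ) / 2 ^ k)
              (tri (x + ((m : ℝ) + 1 / 2)))) else 0 :=
        funext fun k' => term_X k a ha ω k' _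
      rw [← h3] at h2
      have h4 := hΨ _ x _ h2
      rw [h4, htri x hxS]
      ring
  refine ⟨_, _, ∅, ?_, ?_, MeasurableSet.empty, ?_, key 0 (by norm_num), key 1 le_rfl, 0,
    empty_subset _⟩
  · exact MeasurableSet.iUnion fun j => (cells ε hε k 0 ((2 ^ k - 0) / 2 + 1)).meas j
  · exact MeasurableSet.iUnion fun j => (cells ε hε k 1 ((2 ^ k - 1) / 2 + 1)).meas j
  · intro x hx
    have hx1 : -(1 / 2) ≤ x := hx.1
    have hx2 : x ≤ 1 / 2 := hx.2
    have hy : 0 ≤ 1 / 2 + ε * x ∧ 1 / 2 + ε * x ≤ 1 := by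
      rcases hε with rfl | rfl
      · constructor <;> linarith
      · constructor <;> linarith
    set y := 1 / 2 + ε * x with hydef
    have hp : (0 : ℝ) < 2 ^ k := by positivity
    set n := ⌊2 ^ k * y + 1 / 2⌋₊ with hn
    have h0 : 0 ≤ 2 ^ k * y + 1 / 2 := by
      have := mul_nonneg hp.le hy.1
      linarith
    have h1 : (n : ℝ) ≤ 2 ^ k * y + 1 / 2 := Nat.floor_le h0
    have h2 : 2 ^ k * y + 1 / 2 < n + 1 := Nat.lt_floor_add_one _
    have h3 : n ≤ 2 ^ k := by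
      have h4 : (n : ℝ) < 2 ^ k + 1 := by
        have : 2 ^ k * y ≤ 2 ^ k * 1 := mul_le_mul_of_nonneg_left hy.2 hp.le
        linarith
      have h5 : (n : ℝ) < ((2 ^ k + 1 : ℕ) : ℝ) := by
        push_cast
        exact h4
      exact Nat.lt_succ_iff.1 (by exact_mod_cast h5)
    have h4 : |y - (n : ℝ) / 2 ^ k| ≤ 1 / 2 ^ k / 2 := by
      have e1 : y - (n : ℝ) / 2 ^ k = (2 ^ k * y - n) / 2 ^ k := by
        field_simp
      rw [e1, abs_div, abs_of_pos hp, div_div, div_le_div_iff₀ hp (by positivity)]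
      have h5 : |2 ^ k * y - n| ≤ 1 / 2 := by
        rw [abs_le]
        constructor <;> linarith
      nlinarith
    left
    rcases Nat.even_or_odd' n with ⟨j, hj | hj⟩
    · left
      refine mem_iUnion.2 ⟨⟨j, by omega⟩, hx, ?_⟩
      rw [hj] at h4
      show |y - ((2 * j + 0 : ℕ) : ℝ) / 2 ^ k| ≤ _
      rw [add_zero]
      exact h4
    · right
      refine mem_iUnion.2 ⟨⟨j, by omega⟩, hx, ?_⟩
      rw [hj] at h4
      exact h4

end Pool.Agent.Shr
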