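import Pool.Agent.Shr.Targets

/-!
# SHR-SER: a series of functions from countably many values
-/

set_option autoImplicit false

namespace Pool.Agent.Shr

open MeasureTheory Set Filter
open scoped Topology

namespace SER_

lemma tri_meas : Measurable tri := by
  unfold tri
  have h1 : Measurable fun x : ℝ => ((round (x / 2) : ℤ) : ℝ) := by
    have h2 : (fun x : ℝ => ((round (x / 2) : ℤ) : ℝ)) =
        fun x : ℝ => ((⌊x / 2 + 1 / 2⌋ : ℤ) : ℝ) := by
      ext x
      rw [round_eq]
    rw [h2]
    have h3 : Measurable fun x : ℝ => ⌊x / 2 + 1 / 2⌋ := Int.measurable_floor.comp (by fun_prop)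
    exact measurable_from_top.comp h3
  have h4 : Measurable fun x : ℝ => x - 2 * ((round (x / 2) : ℤ) : ℝ) :=
    measurable_id.sub (h1.const_mul 2)
  exact continuous_abs.measurable.comp h4

lemma tent_meas (k : ℕ) (c : ℝ) : Measurable (tent k c) := by
  unfold tent
  exact measurable_const.max ((measurable_const.sub
    ((continuous_abs.measurable.comp (measurable_id.sub_const c)).const_mul _)))

lemma term_meas (o : ℝ) (k : ℕ) :
    Measurable fun p : (ℕ × ℕ → ℝ) × ℝ => term p.1 k (p.2 + o) := by
  unfold term
  refine Finset.measurable_fun_sum _ fun j _ => Measurable.mul ?_ ?_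
  · exact (measurable_pi_apply (k, j)).comp measurable_fst
  · exact (tent_meas k _).comp (tri_meas.comp (measurable_snd.add_const o))

end SER_

open SER_ in
theorem p_SER : T_SER := by
  intro o
  set S : ℕ → (ℕ × ℕ → ℝ) × ℝ → ℝ := fun n p => ∑ k ∈ Finset.range n, term p.1 k (p.2 + o)
    with hS
  have hm : ∀ n, Measurable (S n) := fun n =>
    Finset.measurable_fun_sum _ fun k _ => term_meas o k
  have hlim : StronglyMeasurable fun p : (ℕ × ℕ → ℝ) × ℝ => limUnder atTop (fun n => S n p) :=
    StronglyMeasurable.limUnder fun n => (hm n).stronglyMeasurable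
  refine ⟨fun X x => limUnder atTop (fun n => S n (X, x)), ?_, ?_⟩
  · exact hlim.measurable
  · intro X x v hv
    exact hv.tendsto_sum_nat.limUnder_eq

end Pool.Agent.Shr
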