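import Pool.Agent.Shr.Targets

/-!
# WIE: the continuous random function
-/

set_option autoImplicit false

namespace Pool.Agent.Shr.WIE_

open MeasureTheory Set Filter ProbabilityTheory
open Pool.Agent.Shr
open scoped ENNReal NNReal Topology

lemma tri_le (x : ℝ) (z : ℤ) : tri x ≤ |x - 2 * z| := by
  have h := round_le (x / 2) z
  unfold tri
  have h1 : |x - 2 * round (x / 2)| = 2 * |x / 2 - round (x / 2)| := by
    rw [show x - 2 * (round (x / 2) : ℝ) = 2 * (x / 2 - round (x / 2)) by ring, abs_mul]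
    norm_num
  have h2 : |x - 2 * z| = 2 * |x / 2 - z| := by
    rw [show x - 2 * (z : ℝ) = 2 * (x / 2 - z) by ring, abs_mul]
    norm_num
  rw [h1, h2]
  linarith

lemma tri_lip (x y : ℝ) : tri x ≤ tri y + |x - y| := by
  refine (tri_le x (round (y / 2))).trans ?_
  unfold tri
  have h := abs_add_le (y - 2 * (round (y / 2) : ℝ)) (x - y)
  rw [show y - 2 * (round (y / 2) : ℝ) + (x - y) = x - 2 * (round (y / 2) : ℝ) by ring] at h
  exact h

lemma continuous_tri : Continuous tri := by
  have h : LipschitzWith 1 tri := by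
    apply LipschitzWith.of_le_add
    intro x y
    simpa [Real.dist_eq] using tri_lip x y
  exact h.continuous

lemma continuous_tent (k : ℕ) (c : ℝ) : Continuous (tent k c) := by
  unfold tent
  fun_prop

/-- The tents as continuous functions. -/
noncomputable def T (k j : ℕ) : C(ℝ, ℝ) :=
  ⟨fun x => tent k (j / 2 ^ k) (tri x), (continuous_tent k _).comp continuous_tri⟩

/-- The terms as continuous functions. -/
noncomputable def termC (ω : ℕ × ℕ → ℝ) (k : ℕ) : C(ℝ, ℝ) :=
  ∑ j ∈ Finset.range (2 ^ k + 1), ω (k, j) • T k j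

lemma termC_apply (ω : ℕ × ℕ → ℝ) (k : ℕ) (x : ℝ) : termC ω k x = term ω k x := by
  unfold termC term
  simp [T]

/-- WIE -/
theorem _root_.Pool.Agent.Shr.p_WIE (h_CNV : T_CNV) : T_WIE := by
  let _ : MeasurableSpace C(ℝ, ℝ) := borel C(ℝ, ℝ)
  have : BorelSpace C(ℝ, ℝ) := ⟨rfl⟩
  have : TopologicalSpace.PseudoMetrizableSpace C(ℝ, ℝ) :=
    UniformSpace.pseudoMetrizableSpace
  have hmeas : ∀ n : ℕ, Measurable (fun ω : ℕ × ℕ → ℝ => ∑ k ∈ Finset.range n, termC ω k) := by
    intro n
    refine Finset.measurable_sum _ fun k _ => ?_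
    unfold termC
    refine Finset.measurable_sum _ fun j _ => ?_
    have hc : Continuous (fun c : ℝ => c • T k j) := continuous_id.smul continuous_const
    exact hc.measurable.comp (measurable_pi_apply (k, j))
  have hsum : ∀ ω : ℕ × ℕ → ℝ, (∃ b : ℕ → ℝ, Summable b ∧ ∀ k x, |term ω k x| ≤ b k) →
      Summable (fun k => termC ω k) := by
    rintro ω ⟨b, hb, hle⟩
    apply ContinuousMap.summable_of_locally_summable_norm
    intro K
    refine Summable.of_nonneg_of_le (fun k => norm_nonneg _) (fun k => ?_) hb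
    have hb0 : 0 ≤ b k := (abs_nonneg _).trans (hle k 0)
    rw [ContinuousMap.norm_le _ hb0]
    intro x
    rw [ContinuousMap.restrict_apply, termC_apply, Real.norm_eq_abs]
    exact hle k x
  obtain ⟨W, hW, hlim⟩ := measurable_limit_of_tendsto_metrizable_ae (μ := GP) (L := atTop)
    (f := fun (n : ℕ) (ω : ℕ × ℕ → ℝ) => ∑ k ∈ Finset.range n, termC ω k)
    (fun n => (hmeas n).aemeasurable) (by
      filter_upwards [h_CNV] with ω hω
      exact ⟨_, (hsum ω hω).hasSum.tendsto_sum_nat⟩)
  refine ⟨W, hW, ?_⟩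
  filter_upwards [h_CNV, hlim] with ω hω hl x
  obtain ⟨b, hb, hle⟩ := hω
  have hs : Summable (fun k => term ω k x) :=
    Summable.of_norm_bounded hb (fun k => by rw [Real.norm_eq_abs]; exact hle k x)
  rw [hs.hasSum_iff_tendsto_nat]
  have h1 := ((continuous_eval_const (F := C(ℝ, ℝ)) x).tendsto (W ω)).comp hl
  refine h1.congr fun n => ?_
  simp [ContinuousMap.coe_sum, termC_apply]

end Pool.Agent.Shr.WIE_
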