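import Pool.Agent.Shr.Final
import Pool.Agent.Shr.AVG
import Pool.Agent.Shr.ROS
import Pool.Agent.Shr.STR
import Pool.Agent.Shr.CELL
import Pool.Agent.Shr.PLAN
import Pool.Agent.Shr.MEAN
import Pool.Agent.Shr.CORE
import Pool.Agent.Shr.ONE
import Pool.Agent.Shr.LAW
import Pool.Agent.Shr.BLK4
import Pool.Agent.Shr.RES
import Pool.Agent.Shr.LAY
import Pool.Agent.Shr.ZERO
import Pool.Agent.Shr.NORM
import Pool.Agent.Shr.MAIN
import Pool.Agent.Shr.TRN
import Pool.Agent.Shr.CUT
import Pool.Agent.Shr.BMI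
import Pool.Agent.Shr.REC
import Pool.Agent.Shr.BM
import Pool.Agent.Shr.CNV
import Pool.Agent.Shr.WIE
import Pool.Agent.Shr.IPI
import Pool.Agent.Shr.SER
import Pool.Agent.Shr.RSE

/-!
# Brownian shears: all steps together
-/

namespace Pool.Agent.Shr

open MeasureTheory

theorem cell : T_CELL := p_CELL p_ROS p_STR

theorem core : T_CORE := p_CORE cell p_PLAN p_MEAN

theorem one : T_ONE := p_ONE p_STR p_PLAN

theorem blk4 : T_BLK4 := p_BLK4 (p_LAW core) one

theorem main : T_MAIN := p_MAIN (p_RES blk4) p_LAY p_ZERO p_NORM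

theorem cut : T_CUT := p_CUT p_TRN

theorem bm : T_BM := p_BM p_BMI p_REC

theorem wie : T_WIE := p_WIE p_CNV

theorem rse : T_RSE := p_RSE p_IPI p_SER

/-- The transverse measure, carried by Hölder continuous functions. -/
theorem haar2 : T_HAAR2 := p_HAAR2 main cut wie rse p_NORM

/-- The exceptional set is a Borel set. -/
theorem borel_exc {q : ℝ} (hq : 0 < q) {f : ℝ × ℝ → ℂ} (hf : Measurable f) :
    @MeasurableSet C(ℝ, ℝ) (borel C(ℝ, ℝ))
      {φ : C(ℝ, ℝ) | eLpNorm (Pool.Agent.Restr.E (shr φ f)) (ENNReal.ofReal q) volume = ⊤} :=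
  meas_exc p_NORM hq hf

/-- The average estimate for Brownian shears with drift. -/
theorem avg : T_AVG := p_AVG main cut bm p_NORM

end Pool.Agent.Shr
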