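import Mathlib
import Pool.Agent.Shr.Targets

/-!
# Midpoint displacement for Brownian motion (SHR-BMI)
-/

namespace Pool.Agent.Shr

open MeasureTheory Set Filter ProbabilityTheory
open Pool.Agent.Restr (vv)
open scoped ENNReal NNReal Topology

namespace BMI_

variable {Ω : Type} [MeasurableSpace Ω] {P : Measure Ω} {B : ℝ≥0 → Ω → ℝ}

/-- linear combinations of finitely many values of `B` -/
def Lin (B : ℝ≥0 → Ω → ℝ) (X : Ω → ℝ) : Prop :=
  ∃ I : Finset ℝ≥0, ∃ L : (I → ℝ) →L[ℝ] ℝ, ∀ ω, X ω = L (I.restrict (B · ω))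

omit [MeasurableSpace Ω] in
theorem Lin.eval (s : ℝ≥0) : Lin B (B s) :=
  ⟨{s}, ContinuousLinearMap.proj ⟨s, by simp⟩, fun ω => by simp⟩

/-- restriction to a smaller finite set -/
noncomputable def rs {I J : Finset ℝ≥0} (h : I ⊆ J) : (J → ℝ) →L[ℝ] (I → ℝ) :=
  ContinuousLinearMap.pi fun i => ContinuousLinearMap.proj ⟨i.1, h i.2⟩

omit [MeasurableSpace Ω] in
theorem rs_apply {I J : Finset ℝ≥0} (h : I ⊆ J) (ω : Ω) :
    rs h (J.restrict (B · ω)) = I.restrict (B · ω) := by
  ext i
  simp [rs]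

omit [MeasurableSpace Ω] in
theorem Lin.add {X Y : Ω → ℝ} (hX : Lin B X) (hY : Lin B Y) : Lin B fun ω => X ω + Y ω := by
  classical
  obtain ⟨I, L, hL⟩ := hX
  obtain ⟨J, K, hK⟩ := hY
  refine ⟨I ∪ J, L.comp (rs Finset.subset_union_left) + K.comp (rs Finset.subset_union_right),
    fun ω => ?_⟩
  change X ω + Y ω = _
  rw [add_apply, ContinuousLinearMap.comp_apply,
    ContinuousLinearMap.comp_apply, rs_apply, rs_apply, hL, hK]

omit [MeasurableSpace Ω] in
theorem Lin.mul {X : Ω → ℝ} (c : ℝ) (hX : Lin B X) : Lin B fun ω => c * X ω := by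
  obtain ⟨I, L, hL⟩ := hX
  refine ⟨I, c • L, fun ω => ?_⟩
  change c * X ω = _
  rw [smul_apply, hL, smul_eq_mul]

omit [MeasurableSpace Ω] in
theorem Lin.sub {X Y : Ω → ℝ} (hX : Lin B X) (hY : Lin B Y) : Lin B fun ω => X ω - Y ω := by
  have h := hX.add (hY.mul (-1))
  have e : (fun ω => X ω + -1 * Y ω) = fun ω => X ω - Y ω := by
    funext ω
    ring
  rwa [e] at h

omit [MeasurableSpace Ω] in
theorem Lin.zero : Lin B fun _ => (0 : ℝ) := ⟨∅, 0, fun ω => by simp⟩

omit [MeasurableSpace Ω] in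
theorem Lin.sum {ι : Type} (s : Finset ι) (X : ι → Ω → ℝ) (h : ∀ i, Lin B (X i)) :
    Lin B fun ω => ∑ i ∈ s, X i ω := by
  classical
  induction s using Finset.induction_on with
  | empty =>
    simp only [Finset.sum_empty]
    exact Lin.zero
  | insert a s ha ih =>
    simp only [Finset.sum_insert ha]
    exact (h a).add ih

omit [MeasurableSpace Ω] in
theorem Lin.pth (x : ℝ) : Lin B fun ω => pth B ω x := Lin.eval x.toNNReal

omit [MeasurableSpace Ω] in
theorem Lin.dd (k a j : ℕ) : Lin B fun ω => Shr.dd k a (Shr.pth B ω) j := by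
  have h := (Lin.pth (B := B) (ctr k a j)).sub
    (((Lin.pth (B := B) (ctr k a j - 1 / 2 ^ k)).add
      (Lin.pth (B := B) (ctr k a j + 1 / 2 ^ k))).mul (1 / 2))
  have e : (fun ω => Shr.dd k a (Shr.pth B ω) j) = fun ω => Shr.pth B ω (ctr k a j) -
      1 / 2 * (Shr.pth B ω (ctr k a j - 1 / 2 ^ k) + Shr.pth B ω (ctr k a j + 1 / 2 ^ k)) := by
    funext ω
    unfold Shr.dd
    ring
  rw [e]
  exact h

omit [MeasurableSpace Ω] in
theorem Lin.bg (k a N : ℕ) (x : ℝ) : Lin B fun ω => Shr.bg k a N (Shr.pth B ω) x := by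
  unfold Shr.bg
  exact (Lin.pth x).sub (Lin.sum _ _ fun j => (Lin.dd k a j).mul _)

theorem Lin.gauss (hB : IsPreBrownianReal B P) {X : Ω → ℝ} (hX : Lin B X) :
    HasGaussianLaw X P := by
  have h : IsGaussianProcess (fun _ : Unit => X) P :=
    hB.isGaussianProcess.of_isGaussianProcess fun _ => hX
  exact h.hasGaussianLaw_eval ()

theorem Lin.mem (hB : IsPreBrownianReal B P) {X : Ω → ℝ} (hX : Lin B X) : MemLp X 2 P :=
  (hX.gauss hB).memLp_two

theorem Lin.mean (hB : IsPreBrownianReal B P) {X : Ω → ℝ} (hX : Lin B X) : P[X] = 0 := by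
  obtain ⟨I, L, hL⟩ := hX
  have hint : ∀ i : I, Integrable (fun ω => L (Pi.single i 1) * B i ω) P :=
    fun i => (hB.integrable_eval i).const_mul _
  have e : X = fun ω => ∑ i : I, L (Pi.single i 1) * B i ω := by
    funext ω
    rw [hL ω]
    have h1 : I.restrict (B · ω) = ∑ i : I, (B i ω) • (Pi.single i (1 : ℝ) : I → ℝ) := by
      ext j
      simp [Finset.sum_apply, Pi.single_apply]
    rw [h1, map_sum]
    refine Finset.sum_congr rfl fun i _ => ?_
    rw [map_smul, smul_eq_mul, mul_comm]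
  rw [e, integral_finsetSum _ fun i _ => hint i]
  refine Finset.sum_eq_zero fun i _ => ?_
  rw [integral_const_mul, hB.integral_eval, mul_zero]

theorem cov_pth (hB : IsPreBrownianReal B P) {x y : ℝ} (hx : 0 ≤ x) (hy : 0 ≤ y) :
    cov[fun ω => pth B ω x, fun ω => pth B ω y; P] = min x y := by
  have h := hB.covariance_eval x.toNNReal y.toNNReal
  have h2 : ((min x.toNNReal y.toNNReal : ℝ≥0) : ℝ) = min x y := by
    rw [NNReal.coe_min, Real.coe_toNNReal _ hx, Real.coe_toNNReal _ hy]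
  rw [← h2]
  exact h

/-- the covariance of the path and the second differences: real numbers -/
theorem tent_id (k : ℕ) (m x : ℝ) :
    min x m - (min x (m - 1 / 2 ^ k) + min x (m + 1 / 2 ^ k)) / 2 =
      1 / 2 ^ (k + 1) * tent k m x := by
  unfold tent
  have h2 : (0 : ℝ) < 2 ^ k := by positivity
  obtain ⟨h, hh⟩ : ∃ h : ℝ, h = 1 / 2 ^ k := ⟨_, rfl⟩
  have hpos : 0 < h := by rw [hh]; positivity
  have e2 : (2 : ℝ) ^ k = 1 / h := by rw [hh]; field_simp
  have e3 : (1 : ℝ) / 2 ^ (k + 1) = h / 2 := by rw [hh, pow_succ]; field_simp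
  rw [e3, ← hh, e2]
  rcases le_total x m with h1 | h1
  · rw [min_eq_left h1, min_eq_left (by linarith : x ≤ m + h), abs_of_nonpos (by linarith)]
    rcases le_total x (m - h) with h3 | h3
    · rw [min_eq_left h3, max_eq_left]
      · ring
      · rw [sub_nonpos, div_mul_eq_mul_div, one_mul, le_div_iff₀ hpos]
        linarith
    · rw [min_eq_right h3, max_eq_right]
      · field_simp
        ring
      · rw [sub_nonneg, div_mul_eq_mul_div, one_mul, div_le_iff₀ hpos]
        linarith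
  · rw [min_eq_right h1, min_eq_right (by linarith : m - h ≤ x), abs_of_nonneg (by linarith)]
    rcases le_total x (m + h) with h3 | h3
    · rw [min_eq_left h3, max_eq_right]
      · field_simp
        ring
      · rw [sub_nonneg, div_mul_eq_mul_div, one_mul, div_le_iff₀ hpos]
        linarith
    · rw [min_eq_right h3, max_eq_left]
      · ring
      · rw [sub_nonpos, div_mul_eq_mul_div, one_mul, le_div_iff₀ hpos]
        linarith

theorem ctr_left (k a j : ℕ) : 0 ≤ ctr k a j - 1 / 2 ^ k := by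
  unfold ctr
  rw [← sub_div]
  apply div_nonneg _ (by positivity)
  have h1 : (0 : ℝ) ≤ j := Nat.cast_nonneg j
  have h2 : (0 : ℝ) ≤ a := Nat.cast_nonneg a
  linarith

theorem ctr_pos (k a j : ℕ) : 0 ≤ ctr k a j := by
  unfold ctr
  positivity

/-- covariance with a second difference -/
theorem cov_dd (hB : IsPreBrownianReal B P) (k a j : ℕ) {X : Ω → ℝ} (hX : Lin B X) :
    cov[X, fun ω => dd k a (pth B ω) j; P] =
      cov[X, fun ω => pth B ω (ctr k a j); P] -
        (cov[X, fun ω => pth B ω (ctr k a j - 1 / 2 ^ k); P] +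
          cov[X, fun ω => pth B ω (ctr k a j + 1 / 2 ^ k); P]) / 2 := by
  have := hB.isGaussianProcess.isProbabilityMeasure
  unfold Shr.dd
  have m1 := (Lin.pth (B := B) (ctr k a j)).mem hB
  have m2 := (Lin.pth (B := B) (ctr k a j - 1 / 2 ^ k)).mem hB
  have m3 := (Lin.pth (B := B) (ctr k a j + 1 / 2 ^ k)).mem hB
  have m4 : MemLp (fun ω => (pth B ω (ctr k a j - 1 / 2 ^ k) +
      pth B ω (ctr k a j + 1 / 2 ^ k)) / 2) 2 P := by
    have h1 := (m2.add m3).const_mul (1 / 2)
    have e : (fun ω => (pth B ω (ctr k a j - 1 / 2 ^ k) +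
        pth B ω (ctr k a j + 1 / 2 ^ k)) / 2) = fun ω => 1 / 2 * ((fun ω =>
        pth B ω (ctr k a j - 1 / 2 ^ k)) + fun ω => pth B ω (ctr k a j + 1 / 2 ^ k)) ω := by
      funext ω
      simp only [Pi.add_apply]
      ring
    rw [e]
    exact h1
  rw [covariance_fun_sub_right (hX.mem hB) m1 m4, covariance_fun_div_right]
  congr 2
  exact covariance_add_right (hX.mem hB) m2 m3

theorem cov_pth_dd (hB : IsPreBrownianReal B P) (k a j : ℕ) {x : ℝ} (hx : 0 ≤ x) :
    cov[fun ω => pth B ω x, fun ω => dd k a (pth B ω) j; P] =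
      1 / 2 ^ (k + 1) * tent k (ctr k a j) x := by
  rw [cov_dd hB k a j (Lin.pth x), cov_pth hB hx (ctr_pos k a j), cov_pth hB hx (ctr_left k a j),
    cov_pth hB hx, tent_id]
  have := ctr_pos k a j
  positivity

theorem tent_ctr (k a i j : ℕ) : tent k (ctr k a j) (ctr k a i) = if i = j then 1 else 0 := by
  unfold tent
  split_ifs with h
  · subst h
    simp
  · rw [max_eq_left]
    have e : (2 : ℝ) ^ k * |ctr k a i - ctr k a j| = |2 * ((i : ℝ) - j)| := by
      unfold ctr
      rw [← sub_div, abs_div, abs_of_pos (by positivity : (0 : ℝ) < 2 ^ k)]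
      field_simp
      congr 1
      ring
    rw [e, sub_nonpos]
    have h1 : (1 : ℝ) ≤ |(i : ℝ) - j| := by
      have h2 : (1 : ℤ) ≤ |(i : ℤ) - j| := Int.one_le_abs (by omega)
      exact_mod_cast h2
    rw [abs_mul, abs_two]
    linarith

theorem tent_ctr' (k a i j : ℕ) (σ : ℝ) (hσ : σ = 1 ∨ σ = -1) :
    tent k (ctr k a j) (ctr k a i + σ * (1 / 2 ^ k)) = 0 := by
  unfold tent
  rw [max_eq_left]
  have e : (2 : ℝ) ^ k * |ctr k a i + σ * (1 / 2 ^ k) - ctr k a j| = |2 * ((i : ℝ) - j) + σ| := by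
    have h2 : (0 : ℝ) < 2 ^ k := by positivity
    rw [← abs_of_pos h2, ← abs_mul, abs_of_pos h2]
    unfold ctr
    congr 1
    field_simp
    ring
  rw [e, sub_nonpos]
  rcases hσ with h | h
  · have h2 : (1 : ℤ) ≤ |2 * ((i : ℤ) - j) + 1| := Int.one_le_abs (by omega)
    rw [h]
    exact_mod_cast h2
  · have h2 : (1 : ℤ) ≤ |2 * ((i : ℤ) - j) + (-1)| := Int.one_le_abs (by omega)
    rw [h]
    exact_mod_cast h2

theorem cov_dd_dd (hB : IsPreBrownianReal B P) (k a i j : ℕ) :
    cov[fun ω => dd k a (pth B ω) i, fun ω => dd k a (pth B ω) j; P] =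
      if i = j then 1 / 2 ^ (k + 1) else 0 := by
  rw [covariance_comm, cov_dd hB k a i (Lin.dd k a j), covariance_comm,
    cov_pth_dd hB k a j (ctr_pos k a i)]
  rw [covariance_comm (fun ω => dd k a (pth B ω) j) (fun ω => pth B ω (ctr k a i - 1 / 2 ^ k)),
    cov_pth_dd hB k a j (ctr_left k a i)]
  rw [covariance_comm (fun ω => dd k a (pth B ω) j) (fun ω => pth B ω (ctr k a i + 1 / 2 ^ k)),
    cov_pth_dd hB k a j (by have := ctr_pos k a i; positivity)]
  have e1 := tent_ctr' k a i j (-1) (Or.inr rfl)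
  have e2 := tent_ctr' k a i j 1 (Or.inl rfl)
  rw [neg_one_mul, ← sub_eq_add_neg] at e1
  rw [one_mul] at e2
  rw [e1, e2, tent_ctr]
  split_ifs <;> ring

theorem cov_bg_dd (hB : IsPreBrownianReal B P) (k a N : ℕ) {x : ℝ} (hx : 0 ≤ x) (i : Fin N) :
    cov[fun ω => bg k a N (pth B ω) x, fun ω => dd k a (pth B ω) i; P] = 0 := by
  have := hB.isGaussianProcess.isProbabilityMeasure
  unfold Shr.bg
  have hm : ∀ j : Fin N, MemLp (fun ω => tent k (ctr k a j) x * dd k a (pth B ω) j) 2 P :=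
    fun j => ((Lin.dd k a j).mul _).mem hB
  rw [covariance_fun_sub_left ((Lin.pth x).mem hB)
    ((Lin.sum _ _ fun j : Fin N => (Lin.dd k a j).mul (tent k (ctr k a j) x)).mem hB)
    ((Lin.dd k a i).mem hB), covariance_fun_sum_left hm ((Lin.dd k a i).mem hB),
    cov_pth_dd hB k a i hx]
  have h1 : ∀ j : Fin N, cov[fun ω => tent k (ctr k a j) x * dd k a (pth B ω) j,
      fun ω => dd k a (pth B ω) i; P] = if j = i then
        1 / 2 ^ (k + 1) * tent k (ctr k a i) x else 0 := by
    intro j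
    rw [covariance_const_mul_left, cov_dd_dd hB]
    by_cases h : j = i
    · subst h
      simp
      ring
    · rw [if_neg h, if_neg (fun h' => h (Fin.ext h')), mul_zero]
  rw [Finset.sum_congr rfl fun j _ => h1 j, Finset.sum_ite_eq' Finset.univ i]
  simp

end BMI_

open BMI_ in
theorem p_BMI : T_BMI := by
  intro Ω _ P B hB k a N D _ d hd
  have hP := hB.isGaussianProcess.isProbabilityMeasure
  have mX : ∀ i : D, AEMeasurable (fun ω => bg k a N (pth B ω) (d i)) P :=
    fun i => ((Lin.bg k a N (d i)).gauss hB).aemeasurable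
  have mY : ∀ j : Fin N, AEMeasurable (fun ω => dd k a (pth B ω) j) P :=
    fun j => ((Lin.dd k a j).gauss hB).aemeasurable
  refine ⟨aemeasurable_pi_lambda _ mX, aemeasurable_pi_lambda _ mY, ?_, ?_⟩
  · refine IsGaussianProcess.indepFun_of_covariance_eq_zero
      (X := fun (i : D) ω => bg k a N (pth B ω) (d i))
      (Y := fun (j : Fin N) ω => dd k a (pth B ω) j) ?_ mX mY
      fun i j => cov_bg_dd hB k a N (hd i) j
    refine hB.isGaussianProcess.of_isGaussianProcess ?_
    rintro (i | j)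
    · exact Lin.bg k a N (d i)
    · exact Lin.dd k a j
  · have hG : IsGaussianProcess (fun (j : Fin N) ω => dd k a (pth B ω) j) P :=
      hB.isGaussianProcess.of_isGaussianProcess fun j => Lin.dd k a j
    have hi : iIndepFun (fun (j : Fin N) ω => dd k a (pth B ω) j) P := by
      refine HasGaussianLaw.iIndepFun_of_covariance_eq_zero ?_ fun i j hij => ?_
      · exact (hG.hasGaussianLaw Finset.univ).map
          (ContinuousLinearMap.pi fun j : Fin N =>
            ContinuousLinearMap.proj (⟨j, Finset.mem_univ j⟩ : {x // x ∈ Finset.univ}))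
      · rw [cov_dd_dd hB, if_neg (fun h => hij (Fin.ext h))]
    rw [hi.map_fun_eq_pi_map mY]
    unfold gN
    congr 1
    funext j
    rw [((Lin.dd k a j).gauss hB).map_eq_gaussianReal, (Lin.dd k a j).mean hB,
      ← covariance_self (mY j), cov_dd_dd hB, if_pos rfl]
    unfold gk vv
    congr 1
    rw [add_zero]
    apply NNReal.coe_injective
    rw [Real.coe_toNNReal _ (by positivity)]
    push_cast
    rw [one_div_pow]

end Pool.Agent.Shr
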