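import Pool.Agent.Shr.HOL

/-!
# The transverse measure lives on Hölder functions
-/

namespace Pool.Agent.Shr

open MeasureTheory Set Filter ProbabilityTheory
open scoped ENNReal NNReal Topology

theorem isClosed_holder (K r : ℝ≥0) : IsClosed {φ : C(ℝ, ℝ) | HolderWith K r φ} := by
  have e : {φ : C(ℝ, ℝ) | HolderWith K r φ} =
      ⋂ x : ℝ, ⋂ y : ℝ, {φ : C(ℝ, ℝ) | edist (φ x) (φ y) ≤ K * edist x y ^ (r : ℝ)} := by
    ext φ
    simp only [mem_iInter]
    exact Iff.rfl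
  rw [e]
  refine isClosed_iInter fun x => isClosed_iInter fun y => ?_
  refine isClosed_le ?_ continuous_const
  exact (continuous_eval_const x).edist (continuous_eval_const y)

variable [MeasurableSpace C(ℝ, ℝ)] [BorelSpace C(ℝ, ℝ)]

theorem measurableSet_holder (r : ℝ≥0) :
    MeasurableSet {φ : C(ℝ, ℝ) | ∃ K : ℝ≥0, HolderWith K r φ} := by
  have e : {φ : C(ℝ, ℝ) | ∃ K : ℝ≥0, HolderWith K r φ} =
      ⋃ n : ℕ, {φ : C(ℝ, ℝ) | HolderWith (n : ℝ≥0) r φ} := by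
    ext φ
    simp only [mem_iUnion]
    constructor
    · rintro ⟨K, hK⟩
      obtain ⟨n, hn⟩ := exists_nat_ge K
      refine ⟨n, fun x y => (hK x y).trans ?_⟩
      gcongr
    · rintro ⟨n, hn⟩
      exact ⟨n, hn⟩
  rw [e]
  exact MeasurableSet.iUnion fun n => (isClosed_holder n r).measurableSet

theorem map_holder {W : (ℕ × ℕ → ℝ) → C(ℝ, ℝ)} (hW : Measurable W)
    (hs : ∀ᵐ ω ∂GP, ∀ x, HasSum (fun k => term ω k x) (W ω x)) (r : ℝ≥0) (hr : r < 1 / 2) :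
    ∀ᵐ φ : C(ℝ, ℝ) ∂(GP.map W), ∃ K : ℝ≥0, HolderWith K r φ := by
  rw [ae_map_iff hW.aemeasurable (measurableSet_holder r)]
  have hr' : (r : ℝ) < 1 / 2 := by exact_mod_cast hr
  filter_upwards [hs, holder (NNReal.coe_nonneg r) hr'] with ω h1 h2
  have h3 := h2 (W ω) h1
  rwa [Real.toNNReal_coe] at h3

end Pool.Agent.Shr
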