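import Pool.Agent.Shr.HAAR
import Pool.Agent.Shr.HOL2

/-!
# The transverse measure, with Hölder continuity
-/

namespace Pool.Agent.Shr

open MeasureTheory Set Filter ProbabilityTheory
open Pool.Agent.Restr (u E QQ)
open scoped ENNReal NNReal Topology

/-- One transverse measure on `C(ℝ, ℝ)`, carried by the functions that are Hölder continuous of
every order below `1/2`. -/
def T_HAAR2 : Prop := ∃ μ : @Measure C(ℝ, ℝ) (borel C(ℝ, ℝ)),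
  @IsProbabilityMeasure _ (borel _) μ ∧
  (∀ r : ℝ≥0, r < 1 / 2 → ∀ᵐ φ : C(ℝ, ℝ) ∂μ, ∃ K : ℝ≥0, HolderWith K r φ) ∧
  ∀ q p : ℝ, 3 < q → q < 4 → q / (q - 2) < p → ∀ f : ℝ × ℝ → ℂ, Measurable f →
  HasCompactSupport f → eLpNorm f (ENNReal.ofReal p) volume ≠ ⊤ → ∀ g : C(ℝ, ℝ),
  μ {φ : C(ℝ, ℝ) | eLpNorm (E (shr (g + φ) f)) (ENNReal.ofReal q) volume = ⊤} = 0

/-- The exceptional set is a Borel set. -/
theorem meas_exc (h_NORM : T_NORM) {q : ℝ} (hq : 0 < q) {f : ℝ × ℝ → ℂ} (hf : Measurable f) :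
    @MeasurableSet C(ℝ, ℝ) (borel C(ℝ, ℝ))
      {φ : C(ℝ, ℝ) | eLpNorm (E (shr φ f)) (ENNReal.ofReal q) volume = ⊤} := by
  let _ : MeasurableSpace C(ℝ, ℝ) := borel C(ℝ, ℝ)
  have : BorelSpace C(ℝ, ℝ) := ⟨rfl⟩
  have hid : Measurable (Function.uncurry fun (φ : C(ℝ, ℝ)) x => φ x) :=
    HAAR_.meas_uncurry (W := fun φ : C(ℝ, ℝ) => φ) measurable_id
  have h1 := (h_NORM q hq f hf C(ℝ, ℝ) (fun φ x => φ x) hid).2.2
  exact h1 (measurableSet_singleton ⊤)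

theorem p_HAAR2 (h_MAIN : T_MAIN) (h_CUT : T_CUT) (h_WIE : T_WIE) (h_RSE : T_RSE)
    (h_NORM : T_NORM) : T_HAAR2 := by
  obtain ⟨W, hWm, hWs⟩ := h_WIE
  refine ⟨@Measure.map _ _ _ (borel _) W GP, ?_, ?_, haar_of h_MAIN h_CUT h_RSE h_NORM hWm hWs⟩
  · exact @Measure.isProbabilityMeasure_map _ _ _ (borel _) GP _ W
      (@Measurable.aemeasurable _ _ _ (borel _) W GP hWm)
  · intro r hr
    let _ : MeasurableSpace C(ℝ, ℝ) := borel C(ℝ, ℝ)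
    have : BorelSpace C(ℝ, ℝ) := ⟨rfl⟩
    exact map_holder hWm hWs r hr

end Pool.Agent.Shr
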