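import Pool.Agent.Shr.Pieces

/-!
# One transverse measure on `C(ℝ, ℝ)`
-/

namespace Pool.Agent.Shr

open MeasureTheory Set Filter ProbabilityTheory
open Pool.Agent.Restr (u E QQ)
open scoped ENNReal NNReal Topology

namespace HAAR_

/-- joint measurability of a random continuous function -/
theorem meas_uncurry {Ω : Type} [MeasurableSpace Ω] {W : Ω → C(ℝ, ℝ)}
    (hW : @Measurable _ _ _ (borel C(ℝ, ℝ)) W) :
    Measurable (Function.uncurry fun ω x => W ω x) := by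
  have h1 : ∀ x : ℝ, Measurable fun ω => W ω x := by
    intro x
    let _ : MeasurableSpace C(ℝ, ℝ) := borel C(ℝ, ℝ)
    have : BorelSpace C(ℝ, ℝ) := ⟨rfl⟩
    have h2 : Continuous fun φ : C(ℝ, ℝ) => φ x := by fun_prop
    exact h2.measurable.comp hW
  have h3 : Measurable (Function.uncurry fun (x : ℝ) (ω : Ω) => W ω x) :=
    measurable_uncurry_of_continuous_of_measurable (u := fun (x : ℝ) (ω : Ω) => W ω x)
      (fun ω => (W ω).continuous) h1
  exact h3.comp measurable_swap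

end HAAR_

open HAAR_

theorem haar_of (h_MAIN : T_MAIN) (h_CUT : T_CUT) (h_RSE : T_RSE) (h_NORM : T_NORM)
    {W : (ℕ × ℕ → ℝ) → C(ℝ, ℝ)} (hWm : @Measurable _ _ _ (borel C(ℝ, ℝ)) W)
    (hWs : ∀ᵐ ω ∂GP, ∀ x, HasSum (fun k => term ω k x) (W ω x)) :
    ∀ q p : ℝ, 3 < q → q < 4 → q / (q - 2) < p → ∀ f : ℝ × ℝ → ℂ, Measurable f →
    HasCompactSupport f → eLpNorm f (ENNReal.ofReal p) volume ≠ ⊤ → ∀ g : C(ℝ, ℝ),
    (@Measure.map _ _ _ (borel _) W GP)
      {φ : C(ℝ, ℝ) | eLpNorm (E (shr (g + φ) f)) (ENNReal.ofReal q) volume = ⊤} = 0 := by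
  intro q p hq hq4 hp f hf hfc hN g
  have hq0 : 0 < q := by linarith
  have hp1 : 1 ≤ p := by
    refine le_trans ?_ hp.le
    rw [le_div_iff₀ (by linarith)]
    linarith
  -- the set is measurable
  let _ : MeasurableSpace C(ℝ, ℝ) := borel C(ℝ, ℝ)
  have : BorelSpace C(ℝ, ℝ) := ⟨rfl⟩
  have hid : Measurable (Function.uncurry fun (φ : C(ℝ, ℝ)) x => (g + φ) x) := by
    have h1 : Measurable (Function.uncurry fun (φ : C(ℝ, ℝ)) x => φ x) :=
      meas_uncurry (W := fun φ : C(ℝ, ℝ) => φ) measurable_id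
    exact (g.continuous.measurable.comp measurable_snd).add h1
  have hset : MeasurableSet {φ : C(ℝ, ℝ) | eLpNorm (E (shr (g + φ) f)) (ENNReal.ofReal q) volume = ⊤} := by
    have h1 := (h_NORM q hq0 f hf C(ℝ, ℝ) (fun φ x => (g + φ) x) hid).2.2
    exact h1 (measurableSet_singleton ⊤)
  rw [Measure.map_apply hWm hset]
  -- almost surely the norm is finite
  obtain ⟨R, hR⟩ := hfc.isBounded.subset_closedBall 0
  set M : ℕ := ⌈|R|⌉₊ + 1 with hM
  have hRM : |R| < M := by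
    have := Nat.le_ceil |R|
    rw [hM]
    push_cast
    linarith
  have hsM : ∀ x : ℝ × ℝ, x ∉ Ico (-(M : ℝ)) M ×ˢ Ico (-(M : ℝ)) M → f x = 0 := by
    intro x hx
    by_contra hn
    apply hx
    have h1 : x ∈ Metric.closedBall (0 : ℝ × ℝ) R := hR (subset_tsupport f hn)
    rw [mem_closedBall_zero_iff, Prod.norm_def] at h1
    have h2 : |x.1| < M := by
      have := (le_max_left ‖x.1‖ ‖x.2‖).trans h1
      exact lt_of_le_of_lt (this.trans (le_abs_self R)) hRM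
    have h3 : |x.2| < M := by
      have := (le_max_right ‖x.1‖ ‖x.2‖).trans h1
      exact lt_of_le_of_lt (this.trans (le_abs_self R)) hRM
    have h4 := abs_lt.1 h2
    have h5 := abs_lt.1 h3
    exact ⟨⟨h4.1.le, h4.2⟩, ⟨h5.1.le, h5.2⟩⟩
  have hint : Integrable f := integrable_of_supp hp1 hf hsM (volume_box M) hN
  obtain ⟨C, hC⟩ := h_MAIN q p hq hq4 hp
  have hWu : Measurable (Function.uncurry fun ω x => W ω x) := meas_uncurry hWm
  have hfin : ∀ i j : ℤ, ∀ᵐ ω ∂GP, eLpNorm (E (shr (fun x => (g + W ω) (x + ((i : ℝ) + 1 / 2)))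
      (pc ((i : ℝ) + 1 / 2) ((j : ℝ) + 1 / 2) f))) (ENNReal.ofReal q) volume < ⊤ := by
    intro i j
    have hgi : Measurable fun x : ℝ => g (x + ((i : ℝ) + 1 / 2)) :=
      g.continuous.measurable.comp (by fun_prop)
    have hWi : Measurable (Function.uncurry fun ω x => W ω (x + ((i : ℝ) + 1 / 2))) := by
      have : (Function.uncurry fun (ω : ℕ × ℕ → ℝ) (x : ℝ) => W ω (x + ((i : ℝ) + 1 / 2))) =
          (Function.uncurry fun ω x => W ω x) ∘
            (fun z : (ℕ × ℕ → ℝ) × ℝ => (z.1, z.2 + ((i : ℝ) + 1 / 2))) := rfl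
      rw [this]
      exact hWu.comp (measurable_fst.prodMk (measurable_snd.add_const _))
    have hB : Measurable (Function.uncurry fun ω x => (g + W ω) (x + ((i : ℝ) + 1 / 2))) :=
      (hgi.comp measurable_snd).add hWi
    have hr : Rough GP (fun ω x => (g + W ω) (x + ((i : ℝ) + 1 / 2))) :=
      (h_RSE W hWs i).drift hgi
    have hpcm := measurable_pc hf ((i : ℝ) + 1 / 2) ((j : ℝ) + 1 / 2)
    have hpcN : eLpNorm (pc ((i : ℝ) + 1 / 2) ((j : ℝ) + 1 / 2) f) (ENNReal.ofReal p) volume ≠ ⊤ :=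
      ne_top_of_le_ne_top hN (eLpNorm_pc_le hf _ _ _)
    have h1 := hC (ℕ × ℕ → ℝ) GP (fun ω x => (g + W ω) (x + ((i : ℝ) + 1 / 2))) hB hr
      (pc ((i : ℝ) + 1 / 2) ((j : ℝ) + 1 / 2) f) hpcm (pc_supp _ _ f) hpcN
    have h2 : ∫⁻ ω, eLpNorm (E (shr (fun x => (g + W ω) (x + ((i : ℝ) + 1 / 2)))
      (pc ((i : ℝ) + 1 / 2) ((j : ℝ) + 1 / 2) f))) (ENNReal.ofReal q) volume ^ q ∂GP ≠ ⊤ :=
      ne_top_of_le_ne_top (ENNReal.mul_ne_top ENNReal.coe_ne_top
        (ENNReal.rpow_ne_top_of_nonneg hq0.le hpcN)) h1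
    have h3 := (h_NORM q hq0 _ hpcm (ℕ × ℕ → ℝ) _ hB).2.2
    have h4 := ae_lt_top (h3.pow_const q) h2
    filter_upwards [h4] with ω hω
    by_contra hc
    rw [not_lt, top_le_iff] at hc
    rw [hc, ENNReal.top_rpow_of_pos hq0] at hω
    exact lt_irrefl _ hω
  have hall : ∀ᵐ ω ∂GP, ∀ i j : ℤ,
      eLpNorm (E (shr (fun x => (g + W ω) (x + ((i : ℝ) + 1 / 2)))
      (pc ((i : ℝ) + 1 / 2) ((j : ℝ) + 1 / 2) f))) (ENNReal.ofReal q) volume < ⊤ :=
    ae_all_iff.2 fun i => ae_all_iff.2 fun j => hfin i j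
  have hlast : ∀ᵐ ω ∂GP, eLpNorm (E (shr (g + W ω) f)) (ENNReal.ofReal q) volume ≠ ⊤ := by
    filter_upwards [hall] with ω hω
    have h1 := h_CUT q (by linarith) M f hf hint hsM (g + W ω)
      (ContinuousMap.continuous (g + W ω)).measurable
    refine ne_top_of_le_ne_top ?_ h1
    refine (ENNReal.sum_lt_top.2 fun i _ => ENNReal.sum_lt_top.2 fun j _ => hω i j).ne
  refine Eq.trans (congrArg GP ?_) (ae_iff.1 hlast)
  ext ω
  simp only [mem_preimage, mem_ofPred_eq, ne_eq, not_not]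

theorem p_HAAR (h_MAIN : T_MAIN) (h_CUT : T_CUT) (h_WIE : T_WIE) (h_RSE : T_RSE)
    (h_NORM : T_NORM) : T_HAAR := by
  obtain ⟨W, hWm, hWs⟩ := h_WIE
  refine ⟨@Measure.map _ _ _ (borel _) W GP, ?_, haar_of h_MAIN h_CUT h_RSE h_NORM hWm hWs⟩
  exact @Measure.isProbabilityMeasure_map _ _ _ (borel _) GP _ W
    (@Measurable.aemeasurable _ _ _ (borel _) W GP hWm)

end Pool.Agent.Shr
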