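import Pool.Agent.Shr.Targets

/-!
# Hölder continuity of the random series
-/

namespace Pool.Agent.Shr

open MeasureTheory Set Filter ProbabilityTheory
open Pool.Agent.Restr (vv)
open scoped ENNReal NNReal Topology

namespace HOL_

/-- The indices of the tents that are not zero at `z`. -/
noncomputable def act (N : ℕ) (z : ℝ) : Finset ℕ := (Finset.range N).filter fun j : ℕ => |z - j| < 1

theorem card_act (N : ℕ) (z : ℝ) : (act N z).card ≤ 2 := by
  have h : ∀ j ∈ act N z, ((j : ℤ)) ∈ ({⌊z⌋, ⌊z⌋ + 1} : Finset ℤ) := by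
    intro j hj
    have h1 : |z - j| < 1 := (Finset.mem_filter.1 hj).2
    rw [abs_lt] at h1
    have h2 : (⌊z⌋ : ℝ) ≤ z := Int.floor_le z
    have h3 : z < ⌊z⌋ + 1 := Int.lt_floor_add_one z
    have h4 : (j : ℝ) < ⌊z⌋ + 2 := by linarith [h1.1]
    have h5 : (⌊z⌋ : ℝ) - 1 < j := by linarith [h1.2]
    have h6 : (j : ℤ) < ⌊z⌋ + 2 := by exact_mod_cast h4
    have h7 : ⌊z⌋ - 1 < (j : ℤ) := by exact_mod_cast h5
    simp only [Finset.mem_insert, Finset.mem_singleton]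
    omega
  have h8 : (act N z).card ≤ ({⌊z⌋, ⌊z⌋ + 1} : Finset ℤ).card :=
    Finset.card_le_card_of_injOn (fun j : ℕ => (j : ℤ)) h (by
      intro a _ b _ hab
      have hab' : (a : ℤ) = b := hab
      exact_mod_cast hab')
  refine h8.trans ?_
  exact Finset.card_le_two

/-- The tent in the scaled variable. -/
theorem tent_eq (k j : ℕ) (y : ℝ) : tent k (j / 2 ^ k) y = max 0 (1 - |2 ^ k * y - j|) := by
  unfold tent
  have h2 : (0 : ℝ) < 2 ^ k := by positivity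
  have : 2 ^ k * |y - j / 2 ^ k| = |2 ^ k * y - j| := by
    rw [← abs_of_pos h2, ← abs_mul, abs_of_pos h2]
    congr 1
    field_simp
  rw [this]

theorem tent_zero {k j : ℕ} {y : ℝ} (h : 1 ≤ |2 ^ k * y - j|) : tent k (j / 2 ^ k) y = 0 := by
  rw [tent_eq, max_eq_left (by linarith)]

theorem tent_nonneg (k j : ℕ) (y : ℝ) : 0 ≤ tent k (j / 2 ^ k) y := by
  rw [tent_eq]
  exact le_max_left _ _

theorem tent_le_one (k j : ℕ) (y : ℝ) : tent k (j / 2 ^ k) y ≤ 1 := by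
  rw [tent_eq]
  exact max_le zero_le_one (by linarith [abs_nonneg (2 ^ k * y - j)])

theorem tent_lip (k j : ℕ) (y z : ℝ) :
    |tent k (j / 2 ^ k) y - tent k (j / 2 ^ k) z| ≤ 2 ^ k * |y - z| := by
  rw [tent_eq, tent_eq]
  refine (abs_max_sub_max_le_max _ _ _ _).trans ?_
  rw [sub_self, abs_zero]
  have h2 : (0 : ℝ) < 2 ^ k := by positivity
  refine max_le (by positivity) ?_
  have h1 : (1 - |2 ^ k * y - j|) - (1 - |2 ^ k * z - j|) = |2 ^ k * z - j| - |2 ^ k * y - j| := by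
    ring
  rw [h1]
  refine (abs_abs_sub_abs_le _ _).trans (le_of_eq ?_)
  rw [show 2 ^ k * z - j - (2 ^ k * y - j) = 2 ^ k * (z - y) by ring, abs_mul, abs_of_pos h2,
    abs_sub_comm]

/-- The difference of two values of a term. -/
theorem term_sub_le (ω : ℕ × ℕ → ℝ) (k : ℕ) {m : ℝ} (hm : ∀ j < 2 ^ k + 1, |ω (k, j)| ≤ m)
    (x y : ℝ) {e : ℝ} (he : ∀ j : ℕ, |tent k (j / 2 ^ k) (tri x) - tent k (j / 2 ^ k) (tri y)| ≤ e) :
    |term ω k x - term ω k y| ≤ 4 * m * e := by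
  have hm0 : 0 ≤ m := (abs_nonneg _).trans (hm 0 (by positivity))
  have he0 : 0 ≤ e := (abs_nonneg _).trans (he 0)
  unfold term
  rw [← Finset.sum_sub_distrib]
  refine (Finset.abs_sum_le_sum_abs _ _).trans ?_
  set U : Finset ℕ := act (2 ^ k + 1) (2 ^ k * tri x) ∪ act (2 ^ k + 1) (2 ^ k * tri y) with hU
  have hsub : U ⊆ Finset.range (2 ^ k + 1) :=
    Finset.union_subset (Finset.filter_subset _ _) (Finset.filter_subset _ _)
  have h1 : ∑ j ∈ Finset.range (2 ^ k + 1), |ω (k, j) * tent k (j / 2 ^ k) (tri x) -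
      ω (k, j) * tent k (j / 2 ^ k) (tri y)| = ∑ j ∈ U, |ω (k, j) * tent k (j / 2 ^ k) (tri x) -
      ω (k, j) * tent k (j / 2 ^ k) (tri y)| := by
    refine (Finset.sum_subset hsub fun j hj hjU => ?_).symm
    rw [hU, Finset.mem_union, not_or] at hjU
    have h2 : 1 ≤ |2 ^ k * tri x - j| := by
      by_contra hn
      exact hjU.1 (Finset.mem_filter.2 ⟨hj, not_le.1 hn⟩)
    have h3 : 1 ≤ |2 ^ k * tri y - j| := by
      by_contra hn
      exact hjU.2 (Finset.mem_filter.2 ⟨hj, not_le.1 hn⟩)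
    rw [tent_zero h2, tent_zero h3]
    simp
  rw [h1]
  have h4 : U.card ≤ 4 := (Finset.card_union_le _ _).trans
    (by linarith [card_act (2 ^ k + 1) (2 ^ k * tri x), card_act (2 ^ k + 1) (2 ^ k * tri y)])
  calc ∑ j ∈ U, |ω (k, j) * tent k (j / 2 ^ k) (tri x) - ω (k, j) * tent k (j / 2 ^ k) (tri y)|
      ≤ ∑ _j ∈ U, m * e := by
        refine Finset.sum_le_sum fun j hj => ?_
        rw [← mul_sub, abs_mul]
        exact mul_le_mul (hm j (Finset.mem_range.1 (hsub hj))) (he j) (abs_nonneg _) hm0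
    _ = U.card * (m * e) := by rw [Finset.sum_const, nsmul_eq_mul]
    _ ≤ 4 * (m * e) := by
        gcongr
        exact_mod_cast h4
    _ = _ := by ring

theorem tri_lip (x y : ℝ) : |tri x - tri y| ≤ |x - y| := by
  have key : ∀ x y : ℝ, tri x ≤ tri y + |x - y| := by
    intro x y
    have h1 : |x / 2 - round (x / 2)| ≤ |x / 2 - round (y / 2)| := round_le _ _
    have h2 : tri x ≤ |x - 2 * round (y / 2)| := by
      unfold tri
      have e1 : x - 2 * round (x / 2) = 2 * (x / 2 - round (x / 2)) := by ring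
      have e2 : x - 2 * round (y / 2) = 2 * (x / 2 - round (y / 2)) := by ring
      rw [e1, e2, abs_mul, abs_mul]
      gcongr
    refine h2.trans ?_
    unfold tri
    calc |x - 2 * round (y / 2)| = |(y - 2 * round (y / 2)) + (x - y)| := by congr 1; ring
      _ ≤ _ := abs_add_le _ _
  rw [abs_sub_le_iff]
  constructor
  · linarith [key x y]
  · have := key y x
    rw [abs_sub_comm y x] at this
    linarith

/-- The Hölder bound for a term. -/
theorem term_holder (ω : ℕ × ℕ → ℝ) (k : ℕ) {m : ℝ} (hm : ∀ j < 2 ^ k + 1, |ω (k, j)| ≤ m)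
    {α : ℝ} (h0 : 0 ≤ α) (h1 : α ≤ 1) (x y : ℝ) :
    |term ω k x - term ω k y| ≤ 4 * m * ((2 : ℝ) ^ k) ^ α * |x - y| ^ α := by
  have hm0 : 0 ≤ m := (abs_nonneg _).trans (hm 0 (by positivity))
  have h2 : (0 : ℝ) < 2 ^ k := by positivity
  have key := term_sub_le ω k hm x y (e := ((2 : ℝ) ^ k * |x - y|) ^ α) (fun j => by
    set z : ℝ := (2 : ℝ) ^ k * |x - y| with hz
    have hz0 : 0 ≤ z := by positivity
    have b1 : |tent k (j / 2 ^ k) (tri x) - tent k (j / 2 ^ k) (tri y)| ≤ z := by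
      refine (tent_lip k j _ _).trans ?_
      rw [hz]
      exact mul_le_mul_of_nonneg_left (tri_lip x y) h2.le
    have b2 : |tent k (j / 2 ^ k) (tri x) - tent k (j / 2 ^ k) (tri y)| ≤ 1 := by
      rw [abs_sub_le_iff]
      constructor
      · linarith [tent_le_one k j (tri x), tent_nonneg k j (tri y)]
      · linarith [tent_le_one k j (tri y), tent_nonneg k j (tri x)]
    rcases le_total z 1 with h | h
    · refine b1.trans ?_
      calc z = z ^ (1 : ℝ) := (Real.rpow_one z).symm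
        _ ≤ z ^ α := by
          rcases hz0.eq_or_lt with h3 | h3
          · rcases h0.eq_or_lt with h4 | h4
            · rw [← h3, ← h4, Real.rpow_one, Real.rpow_zero]
              exact zero_le_one
            · rw [← h3, Real.rpow_one, Real.zero_rpow h4.ne']
          · exact Real.rpow_le_rpow_of_exponent_ge h3 h h1
    · exact b2.trans (Real.one_le_rpow h h0))
  refine key.trans (le_of_eq ?_)
  rw [Real.mul_rpow h2.le (abs_nonneg _)]
  ring

/-- Hölder continuity of the sum from bounds for the coefficients. -/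
theorem sum_holder (ω : ℕ × ℕ → ℝ) {m : ℕ → ℝ} (hm : ∀ k, ∀ j < 2 ^ k + 1, |ω (k, j)| ≤ m k)
    {α : ℝ} (h0 : 0 ≤ α) (h1 : α ≤ 1) (hs : Summable fun k => m k * ((2 : ℝ) ^ k) ^ α)
    {F : ℝ → ℝ} (hF : ∀ x, HasSum (fun k => term ω k x) (F x)) :
    ∃ K : ℝ≥0, HolderWith K α.toNNReal F := by
  have hm0 : ∀ k, 0 ≤ m k := fun k => (abs_nonneg _).trans (hm k 0 (by positivity))
  set K : ℝ := 4 * ∑' k, m k * ((2 : ℝ) ^ k) ^ α with hK
  have hK0 : 0 ≤ K := by
    have : 0 ≤ ∑' k, m k * ((2 : ℝ) ^ k) ^ α := tsum_nonneg fun k => by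
      have := hm0 k
      positivity
    positivity
  refine ⟨K.toNNReal, fun x y => ?_⟩
  have key : |F x - F y| ≤ K * |x - y| ^ α := by
    have h2 : HasSum (fun k => term ω k x - term ω k y) (F x - F y) := (hF x).sub (hF y)
    have h3 : HasSum (fun k => 4 * (m k * ((2 : ℝ) ^ k) ^ α) * |x - y| ^ α)
        (K * |x - y| ^ α) := by
      rw [hK]
      exact (hs.hasSum.mul_left 4).mul_right _
    have h4 : ∀ k, |term ω k x - term ω k y| ≤ 4 * (m k * ((2 : ℝ) ^ k) ^ α) * |x - y| ^ α := by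
      intro k
      refine (term_holder ω k (hm k) h0 h1 x y).trans (le_of_eq ?_)
      ring
    rw [abs_le]
    constructor
    · have h5 := hasSum_le (fun k => (abs_le.1 (h4 k)).1) h3.neg h2
      exact h5
    · exact hasSum_le (fun k => (abs_le.1 (h4 k)).2) h2 h3
  rw [edist_dist, edist_dist, Real.dist_eq, Real.dist_eq]
  rw [Real.coe_toNNReal α h0, ENNReal.ofReal_rpow_of_nonneg (abs_nonneg _) h0]
  change _ ≤ ENNReal.ofReal K * _
  rw [← ENNReal.ofReal_mul hK0]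
  exact ENNReal.ofReal_le_ofReal key

/-- The absolute moments of the coordinates. -/
theorem moment {r : ℝ} (hr : 0 ≤ r) (i : ℕ × ℕ) : ∫⁻ ω, ‖ω i‖ₑ ^ r ∂GP =
    ((vv i.1 0 : ℝ≥0) : ℝ≥0∞) ^ (r / 2) * ∫⁻ x, ‖x‖ₑ ^ r ∂(gaussianReal 0 1) := by
  have hm : Measurable fun x : ℝ => ‖x‖ₑ ^ r := measurable_id.enorm.pow_const r
  have h1 : MeasurePreserving (Function.eval i) GP (gk i.1) := by
    unfold GP
    exact measurePreserving_eval_infinitePi (fun i : ℕ × ℕ => gk i.1) i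
  have h2 : ∫⁻ ω, ‖ω i‖ₑ ^ r ∂GP = ∫⁻ x, ‖x‖ₑ ^ r ∂(gk i.1) := h1.lintegral_comp hm
  rw [h2]
  have hv : (0 : ℝ) ≤ ((vv i.1 0 : ℝ≥0) : ℝ) := NNReal.coe_nonneg _
  have h3 : gk i.1 = (gaussianReal 0 1).map (√((vv i.1 0 : ℝ≥0) : ℝ) * ·) := by
    rw [gaussianReal_map_const_mul, mul_zero, mul_one]
    unfold gk
    congr 1
    apply NNReal.eq
    exact (Real.sq_sqrt hv).symm
  rw [h3, lintegral_map hm (by fun_prop)]
  have h4 : ∀ x : ℝ, ‖√((vv i.1 0 : ℝ≥0) : ℝ) * x‖ₑ ^ r =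
      ((vv i.1 0 : ℝ≥0) : ℝ≥0∞) ^ (r / 2) * ‖x‖ₑ ^ r := by
    intro x
    rw [enorm_mul, ENNReal.mul_rpow_of_nonneg _ _ hr]
    congr 1
    rw [← ofReal_norm, Real.norm_of_nonneg (Real.sqrt_nonneg _), Real.sqrt_eq_rpow,
      ← ENNReal.ofReal_rpow_of_nonneg hv (by norm_num), ENNReal.ofReal_coe_nnreal,
      ← ENNReal.rpow_mul]
    congr 1
    ring
  simp only [h4]
  rw [lintegral_const_mul _ hm]

theorem moment_lt_top {r : ℝ} (hr : 0 < r) : ∫⁻ x, ‖x‖ₑ ^ r ∂(gaussianReal 0 1) ≠ ⊤ := by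
  have h := memLp_id_gaussianReal' (μ := 0) (v := 1) (ENNReal.ofReal r) ENNReal.ofReal_ne_top
  have h2 := lintegral_rpow_enorm_lt_top_of_eLpNorm_lt_top (by simpa using hr)
    ENNReal.ofReal_ne_top h.2
  rw [ENNReal.toReal_ofReal hr.le] at h2
  exact h2.ne

/-- The size of the coefficients of scale `k`. -/
noncomputable def bb (r : ℝ) (k : ℕ) (ω : ℕ × ℕ → ℝ) : ℝ≥0∞ :=
  (∑ j ∈ Finset.range (2 ^ k + 1), ‖ω (k, j)‖ₑ ^ r) ^ (1 / r)

theorem measurable_bb (r : ℝ) (k : ℕ) : Measurable (bb r k) := by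
  unfold bb
  refine Measurable.pow_const (Finset.measurable_sum _ fun j _ => ?_) _
  exact (measurable_pi_apply (k, j)).enorm.pow_const r

theorem bb_ne_top {r : ℝ} (hr : 0 < r) (k : ℕ) (ω : ℕ × ℕ → ℝ) : bb r k ω ≠ ⊤ := by
  unfold bb
  refine ENNReal.rpow_ne_top_of_nonneg (by positivity) ?_
  rw [ENNReal.sum_ne_top]
  exact fun j _ => ENNReal.rpow_ne_top_of_nonneg hr.le (by simp)

theorem le_bb {r : ℝ} (hr : 0 < r) (k : ℕ) (ω : ℕ × ℕ → ℝ) {j : ℕ} (hj : j < 2 ^ k + 1) :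
    |ω (k, j)| ≤ (bb r k ω).toReal := by
  have h1 : ‖ω (k, j)‖ₑ ≤ bb r k ω := by
    unfold bb
    have h2 : ‖ω (k, j)‖ₑ ^ r ≤ ∑ j ∈ Finset.range (2 ^ k + 1), ‖ω (k, j)‖ₑ ^ r :=
      Finset.single_le_sum (f := fun j => ‖ω (k, j)‖ₑ ^ r) (fun _ _ => bot_le)
        (Finset.mem_range.2 hj)
    calc ‖ω (k, j)‖ₑ = (‖ω (k, j)‖ₑ ^ r) ^ (1 / r) := by
          rw [← ENNReal.rpow_mul, mul_one_div_cancel hr.ne', ENNReal.rpow_one]
      _ ≤ _ := by gcongr
  have h3 := (ENNReal.toReal_le_toReal (by simp) (bb_ne_top hr k ω)).2 h1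
  simpa using h3

theorem lintegral_bb {r : ℝ} (hr : 1 ≤ r) (k : ℕ) : ∫⁻ ω, bb r k ω ∂GP ≤
    ENNReal.ofReal (2 ^ (((k : ℝ) + 1) * (1 / r - 1 / 2))) *
      (∫⁻ x, ‖x‖ₑ ^ r ∂(gaussianReal 0 1)) ^ (1 / r) := by
  have hr0 : 0 < r := by linarith
  set K := ∫⁻ x, ‖x‖ₑ ^ r ∂(gaussianReal 0 1) with hK
  have h1 : (∫⁻ ω, bb r k ω ∂GP) ^ r ≤ ∫⁻ ω, bb r k ω ^ r ∂GP :=
    Restr.rpow_lintegral_le hr (measurable_bb r k).aemeasurable
  have h2 : ∫⁻ ω, bb r k ω ^ r ∂GP ≤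
      ENNReal.ofReal (2 ^ ((k : ℝ) + 1)) * (ENNReal.ofReal (2 ^ (-(((k : ℝ) + 1) * (r / 2)))) * K) := by
    have e1 : ∀ ω : ℕ × ℕ → ℝ, bb r k ω ^ r = ∑ j ∈ Finset.range (2 ^ k + 1), ‖ω (k, j)‖ₑ ^ r := by
      intro ω
      unfold bb
      rw [← ENNReal.rpow_mul, one_div_mul_cancel hr0.ne', ENNReal.rpow_one]
    simp only [e1]
    rw [lintegral_finsetSum _ fun j _ => (measurable_pi_apply (k, j)).enorm.pow_const r]
    have e2 : ∀ j : ℕ, ∫⁻ ω, ‖ω (k, j)‖ₑ ^ r ∂GP =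
        ENNReal.ofReal (2 ^ (-(((k : ℝ) + 1) * (r / 2)))) * K := by
      intro j
      rw [moment hr0.le (k, j)]
      simp only
      have h := Restr.vv_rpow k 0 (r / 2)
      simp only [Nat.cast_zero, add_zero] at h
      rw [h]
    simp only [e2]
    rw [Finset.sum_const, Finset.card_range, nsmul_eq_mul]
    gcongr
    rw [show ((2 ^ k + 1 : ℕ) : ℝ≥0∞) = ENNReal.ofReal ((2 ^ k + 1 : ℕ) : ℝ) by
      rw [ENNReal.ofReal_natCast]]
    apply ENNReal.ofReal_le_ofReal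
    rw [Real.rpow_add (by norm_num), Real.rpow_natCast, Real.rpow_one]
    push_cast
    have : (1 : ℝ) ≤ 2 ^ k := one_le_pow₀ (by norm_num)
    linarith
  have h3 : ∫⁻ ω, bb r k ω ∂GP = ((∫⁻ ω, bb r k ω ∂GP) ^ r) ^ (1 / r) := by
    rw [← ENNReal.rpow_mul, mul_one_div_cancel hr0.ne', ENNReal.rpow_one]
  rw [h3]
  calc ((∫⁻ ω, bb r k ω ∂GP) ^ r) ^ (1 / r)
      ≤ (ENNReal.ofReal (2 ^ ((k : ℝ) + 1)) *
          (ENNReal.ofReal (2 ^ (-(((k : ℝ) + 1) * (r / 2)))) * K)) ^ (1 / r) := by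
        gcongr
        exact h1.trans h2
    _ = _ := by
        rw [← mul_assoc, ← ENNReal.ofReal_mul (by positivity),
          ENNReal.mul_rpow_of_nonneg _ _ (by positivity),
          ENNReal.ofReal_rpow_of_pos (by positivity), ← Real.rpow_add (by norm_num),
          ← Real.rpow_mul (by norm_num)]
        congr 3
        field_simp
        ring

/-- Almost surely the coefficients are summable with the weight `2 ^ (k α)`, `α < 1/2`. -/
theorem ae_summable {α : ℝ} (h0 : 0 ≤ α) (h1 : α < 1 / 2) : ∀ᵐ ω ∂GP, ∃ m : ℕ → ℝ,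
    (∀ k, ∀ j < 2 ^ k + 1, |ω (k, j)| ≤ m k) ∧ Summable fun k => m k * ((2 : ℝ) ^ k) ^ α := by
  set r : ℝ := 2 / (1 / 2 - α) with hr
  have hα : 0 < 1 / 2 - α := by linarith
  have hr1 : 1 ≤ r := by
    rw [hr, le_div_iff₀ hα]
    linarith
  have hr0 : 0 < r := by linarith
  have hir : 1 / r = (1 / 2 - α) / 2 := by
    rw [hr, one_div_div]
  set K := (∫⁻ x, ‖x‖ₑ ^ r ∂(gaussianReal 0 1)) ^ (1 / r) with hK
  have hKt : K ≠ ⊤ := ENNReal.rpow_ne_top_of_nonneg (by positivity) (moment_lt_top hr0)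
  set T : ℕ → (ℕ × ℕ → ℝ) → ℝ≥0∞ := fun k ω => bb r k ω * ENNReal.ofReal (((2 : ℝ) ^ k) ^ α) with hT
  have hTm : ∀ k, Measurable (T k) := fun k => (measurable_bb r k).mul_const _
  set ρ : ℝ≥0∞ := ENNReal.ofReal (2 ^ (-((1 / 2 - α) / 2))) with hρ
  have hρ1 : ρ < 1 := by
    rw [hρ, ← ENNReal.ofReal_one]
    exact (ENNReal.ofReal_lt_ofReal_iff one_pos).2
      (Real.rpow_lt_one_of_one_lt_of_neg (by norm_num) (by linarith))
  have hint : ∀ k, ∫⁻ ω, T k ω ∂GP ≤ K * ρ ^ k := by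
    intro k
    simp only [hT]
    rw [lintegral_mul_const _ (measurable_bb r k)]
    calc (∫⁻ ω, bb r k ω ∂GP) * ENNReal.ofReal (((2 : ℝ) ^ k) ^ α)
        ≤ (ENNReal.ofReal (2 ^ (((k : ℝ) + 1) * (1 / r - 1 / 2))) * K) *
          ENNReal.ofReal (((2 : ℝ) ^ k) ^ α) := by
          gcongr
          exact lintegral_bb hr1 k
      _ = K * ENNReal.ofReal (2 ^ (((k : ℝ) + 1) * (1 / r - 1 / 2)) * ((2 : ℝ) ^ k) ^ α) := by
          rw [ENNReal.ofReal_mul (by positivity)]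
          ring
      _ ≤ _ := by
          gcongr
          rw [hρ, ← ENNReal.ofReal_pow (by positivity)]
          apply ENNReal.ofReal_le_ofReal
          rw [← Real.rpow_natCast, ← Real.rpow_natCast, ← Real.rpow_mul (by norm_num),
            ← Real.rpow_mul (by norm_num), ← Real.rpow_add (by norm_num)]
          apply Real.rpow_le_rpow_of_exponent_le (by norm_num)
          rw [hir]
          nlinarith
  have hsum : ∫⁻ ω, ∑' k, T k ω ∂GP ≠ ⊤ := by
    rw [lintegral_tsum fun k => (hTm k).aemeasurable]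
    have h2 : ∑' k, ∫⁻ ω, T k ω ∂GP ≤ K * (1 - ρ)⁻¹ := by
      calc ∑' k, ∫⁻ ω, T k ω ∂GP ≤ ∑' k : ℕ, K * ρ ^ k := ENNReal.tsum_le_tsum hint
        _ = K * (1 - ρ)⁻¹ := by rw [ENNReal.tsum_mul_left, ENNReal.tsum_geometric]
    refine ne_top_of_le_ne_top (ENNReal.mul_ne_top hKt ?_) h2
    rw [ENNReal.inv_ne_top]
    exact (tsub_pos_of_lt hρ1).ne'
  filter_upwards [ae_lt_top (Measurable.tsum hTm) hsum] with ω hω
  refine ⟨fun k => (bb r k ω).toReal, fun k j hj => le_bb hr0 k ω hj, ?_⟩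
  have h3 := ENNReal.summable_toReal hω.ne
  refine h3.congr fun k => ?_
  simp only [hT]
  rw [ENNReal.toReal_mul, ENNReal.toReal_ofReal (by positivity)]

end HOL_

open HOL_ in
/-- The random function is Hölder continuous of every order below `1/2`. -/
theorem holder {α : ℝ} (h0 : 0 ≤ α) (h1 : α < 1 / 2) : ∀ᵐ ω ∂GP, ∀ F : ℝ → ℝ,
    (∀ x, HasSum (fun k => term ω k x) (F x)) → ∃ K : ℝ≥0, HolderWith K α.toNNReal F := by
  filter_upwards [ae_summable h0 h1] with ω ⟨m, hm, hs⟩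
  intro F hF
  exact sum_holder ω hm h0 (by linarith) hs hF

end Pool.Agent.Shr
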