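import Pool.Agent.Shr.Targets

/-!
# Drifts and pieces
-/

namespace Pool.Agent.Shr

open MeasureTheory Set Filter ProbabilityTheory
open Pool.Agent.Restr (u E QQ)
open scoped ENNReal NNReal Topology

/-- A drift may be added to a process that is rough on a set. -/
theorem RoughOn.drift {Ω : Type} [MeasurableSpace Ω] {P : Measure Ω} {B : Ω → ℝ → ℝ} {k : ℕ}
    {V : Set ℝ} (h : RoughOn P B k V) {g : ℝ → ℝ} (hg : Measurable g) :
    RoughOn P (fun ω x => g x + B ω x) k V := by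
  obtain ⟨N, A, lam, X, G, Ψ, hc, hV, hX, hG, hΨ, hi, hm, hae⟩ := h
  refine ⟨N, A, lam, X, G, fun X x => g x + Ψ X x, hc, hV, hX, hG, ?_, hi, hm, ?_⟩
  · exact (hg.comp measurable_snd).add hΨ
  · filter_upwards [hae] with ω hω
    intro x hx
    rw [hω x hx]
    ring

/-- A drift may be added to a rough process. -/
theorem Rough.drift {Ω : Type} [MeasurableSpace Ω] {P : Measure Ω} {B : Ω → ℝ → ℝ}
    (h : Rough P B) {g : ℝ → ℝ} (hg : Measurable g) : Rough P (fun ω x => g x + B ω x) := by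
  intro k
  obtain ⟨V₀, V₁, U, h0, h1, h2, h3, h4, h5, h6⟩ := h k
  exact ⟨V₀, V₁, U, h0, h1, h2, h3, h4.drift hg, h5.drift hg, h6⟩

theorem measurable_pc {f : ℝ × ℝ → ℂ} (hf : Measurable f) (a b : ℝ) : Measurable (pc a b f) := by
  unfold pc
  exact (hf.comp (by fun_prop)).indicator (measurableSet_Ico.prod measurableSet_Ico)

theorem pc_supp (a b : ℝ) (f : ℝ × ℝ → ℂ) (x : ℝ × ℝ) (hx : x ∉ QQ) : pc a b f x = 0 := by
  unfold pc
  refine indicator_of_notMem (fun h => hx ?_) _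
  exact ⟨⟨h.1.1, h.1.2.le⟩, ⟨h.2.1, h.2.2.le⟩⟩

theorem eLpNorm_pc_le {f : ℝ × ℝ → ℂ} (hf : Measurable f) (a b : ℝ) (p : ℝ≥0∞) :
    eLpNorm (pc a b f) p volume ≤ eLpNorm f p volume := by
  have h1 : eLpNorm (pc a b f) p volume ≤
      eLpNorm (fun x : ℝ × ℝ => f (x.1 + a, x.2 + b)) p volume := by
    unfold pc
    exact eLpNorm_indicator_le _
  refine h1.trans (le_of_eq ?_)
  have h2 : MeasurePreserving (fun x : ℝ × ℝ => x + (a, b)) volume volume :=
    measurePreserving_add_right _ _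
  exact eLpNorm_comp_measurePreserving hf.aestronglyMeasurable h2

/-- A piece only sees the shear on the unit interval. -/
theorem shr_pc_congr {b b' : ℝ → ℝ} (h : ∀ x ∈ SS, b x = b' x) (a c : ℝ) (f : ℝ × ℝ → ℂ) :
    shr b (pc a c f) = shr b' (pc a c f) := by
  funext x
  unfold shr
  by_cases hx : x.1 ∈ SS
  · rw [h x.1 hx]
  · rw [pc_supp, pc_supp]
    · exact fun hn => hx hn.1
    · exact fun hn => hx hn.1

theorem integrable_of_supp {f : ℝ × ℝ → ℂ} {p : ℝ} (hp : 1 ≤ p) (hf : Measurable f)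
    {s : Set (ℝ × ℝ)} (hs : ∀ x, x ∉ s → f x = 0) (hsv : volume s ≠ ⊤)
    (h : eLpNorm f (ENNReal.ofReal p) volume ≠ ⊤) : Integrable f := by
  have hm : MemLp f (ENNReal.ofReal p) volume :=
    ⟨hf.aestronglyMeasurable, lt_top_iff_ne_top.2 h⟩
  rw [← memLp_one_iff_integrable]
  refine hm.mono_exponent_of_measure_support_ne_top hs hsv ?_
  rw [← ENNReal.ofReal_one]
  exact ENNReal.ofReal_le_ofReal hp

theorem volume_box (M : ℕ) : volume (Ico (-(M : ℝ)) M ×ˢ Ico (-(M : ℝ)) M) ≠ ⊤ := by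
  rw [Measure.volume_eq_prod, Measure.prod_prod, Real.volume_Ico]
  exact ENNReal.mul_ne_top ENNReal.ofReal_ne_top ENNReal.ofReal_ne_top

end Pool.Agent.Shr
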